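import Mathlib

/-!
# Two linear-algebra lemmas

* a lower bound for the dimension of the invariants of a finite group from a character sum;
* the product of two linearly independent vectors is not zero in the exterior algebra.
-/

namespace Pool.Agent.Lib.MP_eacc3c_al

/-- Let `G × B` be a finite group which acts on `T`, and `r` a function on `B` with
`∑ ‖r b‖ < |B|` and `∑ r b tr(g, b) = |G| |B|`. Then the space of the invariants of `G` in `T` has
dimension at least two. -/
theorem two_invariants {T : Type*} [AddCommGroup T] [Module ℂ T] [Module.Finite ℂ T]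
    {G B : Type*} [Group G] [Fintype G] [Group B] [Fintype B]
    (θ : G × B →* (T →ₗ[ℂ] T)) (r : B → ℂ) (hr : ∑ b, ‖r b‖ < (Fintype.card B : ℝ))
    (hm : ∑ g : G, ∑ b : B, r b * LinearMap.trace ℂ T (θ (g, b)) =
      (Fintype.card G : ℂ) * (Fintype.card B : ℂ)) :
    ∃ x y : T, (∀ g, θ (g, 1) x = x) ∧ (∀ g, θ (g, 1) y = y) ∧ x ≠ 0 ∧ ∀ c : ℂ, c • x ≠ y := by
  classical
  by_contra hcon
  push Not at hcon
  set c : ℂ := (Fintype.card G : ℂ)⁻¹ with hc
  have hG : (Fintype.card G : ℂ) ≠ 0 := Nat.cast_ne_zero.2 Fintype.card_ne_zero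
  have hcG : c * (Fintype.card G : ℂ) = 1 := inv_mul_cancel₀ hG
  let p : Submodule ℂ T :=
    { carrier := {x | ∀ g, θ (g, 1) x = x}
      add_mem' := fun {a b} ha hb g => by rw [map_add, ha g, hb g]
      zero_mem' := fun g => map_zero _
      smul_mem' := fun d x hx g => by rw [map_smul, hx g] }
  have hp : ∀ x, x ∈ p ↔ ∀ g, θ (g, 1) x = x := fun x => Iff.rfl
  let π : T →ₗ[ℂ] T := c • ∑ g, θ (g, 1)
  have hπ : ∀ x, π x = c • ∑ g, θ (g, 1) x := fun x => by
    simp [π, LinearMap.smul_apply, LinearMap.sum_apply]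
  have hπ1 : ∀ x, π x ∈ p := by
    intro x
    rw [hp]
    intro h
    rw [hπ, map_smul, map_sum]
    congr 1
    rw [← Equiv.sum_comp (Equiv.mulLeft h) (fun g => θ (g, 1) x)]
    refine Finset.sum_congr rfl fun g _ => ?_
    have : ((h, 1) : G × B) * (g, 1) = (h * g, 1) := by simp
    show θ (h, 1) (θ (g, 1) x) = θ (h * g, 1) x
    rw [← this, map_mul]
    rfl
  have hπ2 : ∀ x ∈ p, π x = x := by
    intro x hx
    rw [hπ, Finset.sum_congr rfl (fun g _ => (hp x).1 hx g), Finset.sum_const, Finset.card_univ,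
      ← Nat.cast_smul_eq_nsmul ℂ, smul_smul, hcG, one_smul]
  have hproj : LinearMap.IsProj p π := ⟨hπ1, hπ2⟩
  have htr : LinearMap.trace ℂ T π = (Module.finrank ℂ p : ℂ) := hproj.trace
  -- `p` is spanned by one vector
  obtain ⟨u, hup, hu⟩ : ∃ u ∈ p, ∀ x ∈ p, ∃ d : ℂ, d • u = x := by
    by_cases h0 : ∃ u ∈ p, u ≠ 0
    · obtain ⟨u, hup, hu0⟩ := h0
      exact ⟨u, hup, fun x hx => hcon u x hup hx hu0⟩
    · push Not at h0
      exact ⟨0, p.zero_mem, fun x hx => ⟨0, by rw [h0 x hx, smul_zero]⟩⟩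
  have hfr : Module.finrank ℂ p ≤ 1 := by
    refine finrank_le_one (⟨u, hup⟩ : p) fun w => ?_
    obtain ⟨d, hd⟩ := hu w.1 w.2
    exact ⟨d, Subtype.ext hd⟩
  have hcomm : ∀ (b : B) (x : T), x ∈ p → θ (1, b) x ∈ p := by
    intro b x hx
    rw [hp]
    intro g
    have e1 : ((g, 1) : G × B) * (1, b) = (1, b) * (g, 1) := by simp
    have e2 : θ (g, 1) (θ (1, b) x) = θ (1, b) (θ (g, 1) x) := by
      have := congrArg (fun z => θ z x) e1
      simp only [map_mul] at this
      exact this
    rw [e2, (hp x).1 hx g]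
  have hbound : ∀ b : B, ‖LinearMap.trace ℂ T (θ (1, b) * π)‖ ≤ 1 := by
    intro b
    by_cases hu0 : u = 0
    · have hz : θ (1, b) * π = 0 := by
        refine LinearMap.ext fun x => ?_
        obtain ⟨d, hd⟩ := hu (π x) (hπ1 x)
        show θ (1, b) (π x) = 0
        rw [← hd, hu0, smul_zero, map_zero]
      rw [hz, map_zero, norm_zero]
      exact zero_le_one
    · obtain ⟨d, hd⟩ := hu (θ (1, b) u) (hcomm b u hup)
      have hpow : ∀ n : ℕ, (θ (1, b) ^ n) u = d ^ n • u := by
        intro n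
        induction n with
        | zero => simp
        | succ n ih =>
          rw [pow_succ, Module.End.mul_apply, ← hd, map_smul, ih, smul_smul, pow_succ, mul_comm]
      have hd1 : ‖d‖ = 1 := by
        have hn : 0 < orderOf b := orderOf_pos b
        refine Complex.norm_eq_one_of_pow_eq_one (n := orderOf b) ?_ hn.ne'
        have h1 : ((1, b) : G × B) ^ orderOf b = 1 := by
          ext <;> simp [pow_orderOf_eq_one]
        have h2 : (θ (1, b) ^ orderOf b) u = u := by
          rw [← map_pow, h1, map_one]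
          rfl
        rw [hpow] at h2
        have h3 : (d ^ orderOf b - 1) • u = 0 := by
          rw [sub_smul, h2, one_smul, sub_self]
        exact sub_eq_zero.1 ((smul_eq_zero.1 h3).resolve_right hu0)
      have hz : θ (1, b) * π = d • π := by
        refine LinearMap.ext fun x => ?_
        obtain ⟨a, ha⟩ := hu (π x) (hπ1 x)
        show θ (1, b) (π x) = d • π x
        rw [← ha, map_smul, ← hd, smul_smul, smul_smul, mul_comm]
      rw [hz, map_smul, htr, smul_eq_mul, norm_mul, hd1, one_mul, Complex.norm_natCast]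
      exact_mod_cast hfr
  have htrb : ∀ b : B, LinearMap.trace ℂ T (θ (1, b) * π) =
      c * ∑ g, LinearMap.trace ℂ T (θ (g, b)) := by
    intro b
    have : θ (1, b) * π = c • ∑ g, θ (g, b) := by
      show θ (1, b) * (c • ∑ g, θ (g, 1)) = _
      rw [mul_smul_comm, Finset.mul_sum]
      congr 1
      refine Finset.sum_congr rfl fun g _ => ?_
      rw [← map_mul]
      congr 1
      simp
    rw [this, map_smul, map_sum, smul_eq_mul]
  have hsum : ∑ b : B, r b * LinearMap.trace ℂ T (θ (1, b) * π) = (Fintype.card B : ℂ) := by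
    have e : ∀ b : B, r b * LinearMap.trace ℂ T (θ (1, b) * π) =
        c * ∑ g, r b * LinearMap.trace ℂ T (θ (g, b)) := by
      intro b
      rw [htrb, ← Finset.mul_sum]
      ring
    rw [Finset.sum_congr rfl fun b _ => e b, ← Finset.mul_sum, Finset.sum_comm, hm, ← mul_assoc,
      hcG, one_mul]
  have hle : ‖∑ b : B, r b * LinearMap.trace ℂ T (θ (1, b) * π)‖ ≤ ∑ b, ‖r b‖ := by
    refine (norm_sum_le _ _).trans (Finset.sum_le_sum fun b _ => ?_)
    rw [norm_mul]
    exact mul_le_of_le_one_right (norm_nonneg _) (hbound b)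
  rw [hsum, Complex.norm_natCast] at hle
  exact absurd hr (not_lt.2 hle)

/-- The product of two linearly independent vectors is not zero in the exterior algebra. -/
theorem ext_mul_ne {M : Type*} [AddCommGroup M] [Module ℂ M] (x y : M) (hx : x ≠ 0)
    (hxy : ∀ c : ℂ, c • x ≠ y) : ExteriorAlgebra.ι ℂ x * ExteriorAlgebra.ι ℂ y ≠ 0 := by
  intro h
  have hy : y ∉ Submodule.span ℂ {x} := by
    intro hmem
    obtain ⟨c, hc⟩ := Submodule.mem_span_singleton.1 hmem
    exact hxy c hc
  obtain ⟨f, hf, hle⟩ := Submodule.exists_le_ker_of_notMem hy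
  have hfx : f x = 0 := LinearMap.mem_ker.1 (hle (Submodule.mem_span_singleton_self x))
  have h1 := congrArg (CliffordAlgebra.contractLeft (Q := (0 : QuadraticForm ℂ M)) f) h
  rw [map_zero] at h1
  have h2 := CliffordAlgebra.contractLeft_ι_mul (Q := (0 : QuadraticForm ℂ M)) (d := f) x
    (CliffordAlgebra.ι (0 : QuadraticForm ℂ M) y)
  rw [CliffordAlgebra.contractLeft_ι, hfx, zero_smul, zero_sub] at h2
  have h3 : CliffordAlgebra.ι (0 : QuadraticForm ℂ M) x *
      algebraMap ℂ (CliffordAlgebra (0 : QuadraticForm ℂ M)) (f y) = 0 := by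
    have h4 := h2.symm.trans h1
    exact neg_eq_zero.1 h4
  rw [← Algebra.commutes, ← Algebra.smul_def] at h3
  have h5 := (smul_eq_zero.1 h3).resolve_left hf
  exact hx (ExteriorAlgebra.ι_leftInverse.injective (by
    rw [map_zero]
    exact h5))

end Pool.Agent.Lib.MP_eacc3c_al
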