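import Pool.Agent.Lib.MP_eacc3c_al.Grp

/-!
# The explicit solution of the orthogonality relations in type F4
-/

namespace Pool.Agent.Lib.MP_eacc3c_al

/-! ### Polynomials as lists of coefficients -/

/-- sum -/
def padd : List ℤ → List ℤ → List ℤ
  | [], b => b
  | a :: s, [] => a :: s
  | a :: s, b :: t => (a + b) :: padd s t

/-- multiple -/
def psmul (c : ℤ) (a : List ℤ) : List ℤ := a.map fun x => c * x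

/-- product -/
def pmul : List ℤ → List ℤ → List ℤ
  | [], _ => []
  | a :: s, b => if a = 0 then 0 :: pmul s b else padd (psmul a b) (0 :: pmul s b)

/-- sum of products -/
def pdot : List (List ℤ) → List (List ℤ) → List ℤ
  | [], _ => []
  | _ :: _, [] => []
  | a :: s, b :: t => padd (pmul a b) (pdot s t)

/-- all coefficients are zero -/
def isZ (a : List ℤ) : Bool := a.all fun x => x == 0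

/-- value -/
def pev {R : Type*} [CommRing R] (q : R) : List ℤ → R
  | [] => 0
  | a :: s => (a : R) + q * pev q s

section

variable {R : Type*} [CommRing R] (q : R)

theorem pev_padd (a b : List ℤ) : pev q (padd a b) = pev q a + pev q b := by
  induction a generalizing b with
  | nil => simp [padd, pev]
  | cons x s ih =>
    cases b with
    | nil => simp [padd, pev]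
    | cons y t =>
      simp only [padd, pev, ih]
      push_cast
      ring

theorem pev_psmul (c : ℤ) (a : List ℤ) : pev q (psmul c a) = (c : R) * pev q a := by
  induction a with
  | nil => simp [psmul, pev]
  | cons x s ih =>
    simp only [psmul, List.map_cons, pev] at ih ⊢
    rw [ih]
    push_cast
    ring

theorem pev_pmul (a b : List ℤ) : pev q (pmul a b) = pev q a * pev q b := by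
  induction a with
  | nil => simp [pmul, pev]
  | cons x s ih =>
    simp only [pmul, pev]
    split_ifs with h
    · simp only [pev, ih, h]
      push_cast
      ring
    · simp only [pev_padd, pev_psmul, pev, ih]
      push_cast
      ring

theorem pev_isZ {a : List ℤ} (h : isZ a = true) : pev q a = 0 := by
  induction a with
  | nil => rfl
  | cons x s ih =>
    simp only [isZ, List.all_cons, Bool.and_eq_true, beq_iff_eq] at h ih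
    simp [pev, h.1, ih h.2]

theorem pev_pdot (xs ys : List (List ℤ)) (n : ℕ) (h : xs.length ≤ n) :
    pev q (pdot xs ys) = ∑ k ∈ Finset.range n, pev q (xs.getD k []) * pev q (ys.getD k []) := by
  induction xs generalizing ys n with
  | nil => simp [pdot, pev]
  | cons x s ih =>
    obtain ⟨n, rfl⟩ : ∃ n', n = n' + 1 := ⟨n - 1, by simp at h; omega⟩
    rw [Finset.sum_range_succ']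
    cases ys with
    | nil => simp [pdot, pev]
    | cons y t =>
      simp only [pdot, pev_padd, pev_pmul, List.getD_cons_zero, List.getD_cons_succ]
      rw [ih t n (by simpa using h)]
      ring

end

/-! ### The tables -/

/-- the values of the 25 characters on the 25 classes -/
def charT : List (List ℤ) :=
  [[1, -1, -1, 1, 1, 1, 1, -1, -1, -1, -1, 1, 1, -1, -1, 1, 1, -1, -1, 1, 1, 1, 1, 1, 1],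
   [2, 0, -2, -1, 0, 0, 2, 1, 1, 0, 0, -1, 2, 0, -2, 0, -1, -2, 0, 2, -1, 2, 0, -1, 2],
   [4, -2, -2, 1, 0, 2, 1, -1, 1, 1, -1, 0, 0, 0, 0, 0, 2, 2, 2, -1, -1, 0, -2, -2, -4],
   [2, -2, 0, 2, 0, 0, -1, 0, 0, 1, 1, -1, 2, -2, 0, 0, -1, 0, -2, -1, 2, 2, 0, -1, 2],
   [9, -3, -3, 0, 1, 1, 0, 0, 0, 0, 0, 0, 1, 1, 1, -1, 0, -3, -3, 0, 0, -3, 1, 0, 9],
   [8, 0, -4, -1, 0, 0, 2, 1, -1, 0, 0, 0, 0, 0, 0, 0, -2, 4, 0, -2, 1, 0, 0, 2, -8],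
   [1, 1, -1, 1, -1, -1, 1, -1, -1, 1, 1, 1, 1, 1, -1, -1, 1, -1, 1, 1, 1, 1, -1, 1, 1],
   [8, -4, 0, 2, 0, 0, -1, 0, 0, -1, 1, 0, 0, 0, 0, 0, -2, 0, 4, 1, -2, 0, 0, 2, -8],
   [4, 2, -2, 1, 0, -2, 1, -1, 1, -1, 1, 0, 0, 0, 0, 0, 2, 2, -2, -1, -1, 0, 2, -2, -4],
   [9, 3, -3, 0, -1, -1, 0, 0, 0, 0, 0, 0, 1, -1, 1, 1, 0, -3, 3, 0, 0, -3, -1, 0, 9],
   [4, 0, 0, -2, 0, 0, -2, 0, 0, 0, 0, 1, 4, 0, 0, 0, 1, 0, 0, -2, -2, 4, 0, 1, 4],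
   [6, 0, 0, 0, 2, -2, 0, 0, 0, 0, 0, -1, -2, 0, 0, 0, 3, 0, 0, 0, 0, 2, -2, 3, 6],
   [16, 0, 0, -2, 0, 0, -2, 0, 0, 0, 0, 0, 0, 0, 0, 0, 2, 0, 0, 2, 2, 0, 0, -2, -16],
   [4, -2, 2, 1, 0, -2, 1, 1, -1, 1, -1, 0, 0, 0, 0, 0, 2, -2, 2, -1, -1, 0, 2, -2, -4],
   [12, 0, 0, 0, 0, 0, 0, 0, 0, 0, 0, 1, -4, 0, 0, 0, -3, 0, 0, 0, 0, 4, 0, -3, 12],
   [9, -3, 3, 0, -1, -1, 0, 0, 0, 0, 0, 0, 1, 1, -1, 1, 0, 3, -3, 0, 0, -3, -1, 0, 9],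
   [6, 0, 0, 0, -2, 2, 0, 0, 0, 0, 0, -1, -2, 0, 0, 0, 3, 0, 0, 0, 0, 2, 2, 3, 6],
   [1, -1, 1, 1, -1, -1, 1, 1, 1, -1, -1, 1, 1, -1, 1, -1, 1, 1, -1, 1, 1, 1, -1, 1, 1],
   [8, 4, 0, 2, 0, 0, -1, 0, 0, 1, -1, 0, 0, 0, 0, 0, -2, 0, -4, 1, -2, 0, 0, 2, -8],
   [8, 0, 4, -1, 0, 0, 2, -1, 1, 0, 0, 0, 0, 0, 0, 0, -2, -4, 0, -2, 1, 0, 0, 2, -8],
   [9, 3, 3, 0, 1, 1, 0, 0, 0, 0, 0, 0, 1, -1, -1, -1, 0, 3, 3, 0, 0, -3, 1, 0, 9],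
   [2, 2, 0, 2, 0, 0, -1, 0, 0, -1, -1, -1, 2, 2, 0, 0, -1, 0, 2, -1, 2, 2, 0, -1, 2],
   [4, 2, 2, 1, 0, 2, 1, 1, -1, -1, 1, 0, 0, 0, 0, 0, 2, -2, -2, -1, -1, 0, -2, -2, -4],
   [2, 0, 2, -1, 0, 0, 2, -1, -1, 0, 0, -1, 2, 0, 2, 0, -1, 2, 0, 2, -1, 2, 0, -1, 2],
   [1, 1, 1, 1, 1, 1, 1, 1, 1, 1, 1, 1, 1, 1, 1, 1, 1, 1, 1, 1, 1, 1, 1, 1, 1]]

/-- the coefficients of `det (q - w)` for the 25 classes -/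
def detT : List (List ℤ) :=
  [[1, -4, 6, -4, 1],
   [-1, 2, 0, -2, 1],
   [-1, 2, 0, -2, 1],
   [1, -1, 0, -1, 1],
   [1, 0, -2, 0, 1],
   [1, -2, 2, -2, 1],
   [1, -1, 0, -1, 1],
   [-1, 1, 0, -1, 1],
   [-1, -1, 0, 1, 1],
   [-1, -1, 0, 1, 1],
   [-1, 1, 0, -1, 1],
   [1, 0, -1, 0, 1],
   [1, 0, -2, 0, 1],
   [-1, 0, 0, 0, 1],
   [-1, 0, 0, 0, 1],
   [1, 0, 0, 0, 1],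
   [1, -2, 3, -2, 1],
   [-1, -2, 0, 2, 1],
   [-1, -2, 0, 2, 1],
   [1, 1, 0, 1, 1],
   [1, 1, 0, 1, 1],
   [1, 0, 2, 0, 1],
   [1, 2, 2, 2, 1],
   [1, 2, 3, 2, 1],
   [1, 4, 6, 4, 1]]

/-- the coefficients of `(q²-1)(q⁶-1)(q⁸-1)(q¹²-1) / det (q - w)` for the 25 classes -/
def cofT : List (List ℤ) :=
  [[1, 4, 9, 16, 25, 36, 48, 60, 71, 80, 87, 92, 94, 92, 87, 80, 71, 60, 48, 36, 25, 16, 9, 4, 1],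
   [-1, -2, -3, -4, -5, -6, -6, -6, -5, -4, -3, -2, 0, 2, 3, 4, 5, 6, 6, 6, 5, 4, 3, 2, 1],
   [-1, -2, -3, -4, -5, -6, -6, -6, -5, -4, -3, -2, 0, 2, 3, 4, 5, 6, 6, 6, 5, 4, 3, 2, 1],
   [1, 1, 0, 1, 1, 0, 0, 0, -1, -1, 0, -1, -2, -1, 0, -1, -1, 0, 0, 0, 1, 1, 0, 1, 1],
   [1, 0, 1, 0, 1, 0, 0, 0, -1, 0, -1, 0, -2, 0, -1, 0, -1, 0, 0, 0, 1, 0, 1, 0, 1],
   [1, 2, 1, 0, 1, 2, 0, -2, -1, 0, -1, -2, -2, -2, -1, 0, -1, -2, 0, 2, 1, 0, 1, 2, 1],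
   [1, 1, 0, 1, 1, 0, 0, 0, -1, -1, 0, -1, -2, -1, 0, -1, -1, 0, 0, 0, 1, 1, 0, 1, 1],
   [-1, -1, 0, 1, 1, 0, 0, 0, 1, 1, 0, -1, 0, 1, 0, -1, -1, 0, 0, 0, -1, -1, 0, 1, 1],
   [-1, 1, 0, -1, 1, 0, 0, 0, 1, -1, 0, 1, 0, -1, 0, 1, -1, 0, 0, 0, -1, 1, 0, -1, 1],
   [-1, 1, 0, -1, 1, 0, 0, 0, 1, -1, 0, 1, 0, -1, 0, 1, -1, 0, 0, 0, -1, 1, 0, -1, 1],
   [-1, -1, 0, 1, 1, 0, 0, 0, 1, 1, 0, -1, 0, 1, 0, -1, -1, 0, 0, 0, -1, -1, 0, 1, 1],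
   [1, 0, 0, 0, -1, 0, -2, 0, -1, 0, 2, 0, 2, 0, 2, 0, -1, 0, -2, 0, -1, 0, 0, 0, 1],
   [1, 0, 1, 0, 1, 0, 0, 0, -1, 0, -1, 0, -2, 0, -1, 0, -1, 0, 0, 0, 1, 0, 1, 0, 1],
   [-1, 0, 1, 0, -1, 0, 2, 0, -1, 0, 1, 0, 0, 0, -1, 0, 1, 0, -2, 0, 1, 0, -1, 0, 1],
   [-1, 0, 1, 0, -1, 0, 2, 0, -1, 0, 1, 0, 0, 0, -1, 0, 1, 0, -2, 0, 1, 0, -1, 0, 1],
   [1, 0, -1, 0, -1, 0, 0, 0, 1, 0, 1, 0, -2, 0, 1, 0, 1, 0, 0, 0, -1, 0, -1, 0, 1],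
   [1, 2, 0, -4, -5, 0, 6, 6, -1, -8, -6, 4, 10, 4, -6, -8, -1, 6, 6, 0, -5, -4, 0, 2, 1],
   [-1, 2, -3, 4, -5, 6, -6, 6, -5, 4, -3, 2, 0, -2, 3, -4, 5, -6, 6, -6, 5, -4, 3, -2, 1],
   [-1, 2, -3, 4, -5, 6, -6, 6, -5, 4, -3, 2, 0, -2, 3, -4, 5, -6, 6, -6, 5, -4, 3, -2, 1],
   [1, -1, 0, -1, 1, 0, 0, 0, -1, 1, 0, 1, -2, 1, 0, 1, -1, 0, 0, 0, 1, -1, 0, -1, 1],
   [1, -1, 0, -1, 1, 0, 0, 0, -1, 1, 0, 1, -2, 1, 0, 1, -1, 0, 0, 0, 1, -1, 0, -1, 1],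
   [1, 0, -3, 0, 5, 0, -8, 0, 11, 0, -13, 0, 14, 0, -13, 0, 11, 0, -8, 0, 5, 0, -3, 0, 1],
   [1, -2, 1, 0, 1, -2, 0, 2, -1, 0, -1, 2, -2, 2, -1, 0, -1, 2, 0, -2, 1, 0, 1, -2, 1],
   [1, -2, 0, 4, -5, 0, 6, -6, -1, 8, -6, -4, 10, -4, -6, 8, -1, -6, 6, 0, -5, 4, 0, -2, 1],
   [1, -4, 9, -16, 25, -36, 48, -60, 71, -80, 87, -92, 94, -92, 87, -80, 71, -60, 48, -36, 25,
    -16, 9, -4, 1]]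

/-- the coefficients of `(q²-1)(q⁶-1)(q⁸-1)(q¹²-1)` -/
def numT : List ℤ :=
  [1, 0, -1, 0, 0, 0, -1, 0, 0, 0, 1, 0, -1, 0, 2, 0, -1, 0, 1, 0, 0, 0, -1, 0, 0, 0, -1, 0, 1]

/-- the matrix `P`: coefficient lists of polynomials in `q` -/
def pT : List (List (List ℤ)) :=
  [[[0, 0, 0, 0, 0, 0, 0, 0, 0, 0, 0, 0, 0, 0, 0, 0, 0, 0, 0, 0, 0, 0, 0, 0, 1], [], [], [], [],
    [], [], [], [], [], [], [], [], [], [], [], [], [], [], [], [], [], [], [], []],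
   [[0, 0, 0, 0, 0, 0, 0, 0, 0, 0, 0, 0, 0, 0, 0, 0, 1, 0, 0, 0, 1], [0, 0, 0, 0, 0, 0, 0, 0, 0,
    0, 0, 0, 0, 0, 0, 0, 1], [], [], [], [], [], [], [], [], [], [], [], [], [], [], [], [], [],
    [], [], [], [], [], []],
   [[0, 0, 0, 0, 0, 0, 0, 0, 0, 0, 0, 0, 0, 1, 0, 0, 0, 1, 0, 1, 0, 0, 0, 1], [0, 0, 0, 0, 0, 0,
    0, 0, 0, 0, 0, 0, 0, 1], [0, 0, 0, 0, 0, 0, 0, 0, 0, 0, 0, 0, 0, 1], [], [], [], [], [], [],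
    [], [], [], [], [], [], [], [], [], [], [], [], [], [], [], []],
   [[0, 0, 0, 0, 0, 0, 0, 0, 0, 0, 0, 0, 0, 0, 0, 0, 1, 0, 0, 0, 1], [], [], [0, 0, 0, 0, 0, 0,
    0, 0, 0, 0, 0, 0, 0, 1], [], [], [], [], [], [], [], [], [], [], [], [], [], [], [], [], [],
    [], [], [], []],
   [[0, 0, 0, 0, 0, 0, 0, 0, 0, 0, 1, 0, 1, 0, 2, 0, 1, 0, 2, 0, 1, 0, 1], [0, 0, 0, 0, 0, 0, 0,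
    0, 0, 0, 1, 0, 1, 0, 1], [0, 0, 0, 0, 0, 0, 0, 0, 0, 0, 1, 0, 1], [0, 0, 0, 0, 0, 0, 0, 0, 0,
    0, 0, 1], [0, 0, 0, 0, 0, 0, 0, 0, 0, 0, 1], [], [], [], [], [], [], [], [], [], [], [], [],
    [], [], [], [], [], [], [], []],
   [[0, 0, 0, 0, 0, 0, 0, 0, 0, 1, 0, 1, 0, 1, 0, 2, 0, 1, 0, 1, 0, 1], [0, 0, 0, 0, 0, 0, 0, 0,
    0, 1, 0, 1, 0, 1, 0, 1], [0, 0, 0, 0, 0, 0, 0, 0, 0, 1, 0, 1], [], [0, 0, 0, 0, 0, 0, 0, 0, 0,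
    1], [0, 0, 0, 0, 0, 0, 0, 0, 0, 1], [], [], [], [], [], [], [], [], [], [], [], [], [], [],
    [], [], [], [], []],
   [[0, 0, 0, 0, 0, 0, 0, 0, 0, 0, 0, 0, 1], [0, 0, 0, 0, 0, 0, 0, 0, 0, 0, 0, 0, 1], [], [], [],
    [], [0, 0, 0, 0, 0, 0, 0, 0, 0, 1], [], [], [], [], [], [], [], [], [], [], [], [], [], [],
    [], [], [], []],
   [[0, 0, 0, 0, 0, 0, 0, 0, 0, 1, 0, 1, 0, 1, 0, 2, 0, 1, 0, 1, 0, 1], [0, 0, 0, 0, 0, 0, 0, 0,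
    0, 1, 0, 1], [0, 0, 0, 0, 0, 0, 0, 0, 0, 1, 0, 1], [0, 0, 0, 0, 0, 0, 0, 0, 0, 0, 1, 0, 1],
    [0, 0, 0, 0, 0, 0, 0, 0, 0, 1], [], [], [0, 0, 0, 0, 0, 0, 0, 0, 0, 1], [], [], [], [], [],
    [], [], [], [], [], [], [], [], [], [], [], []],
   [[0, 0, 0, 0, 0, 0, 0, 1, 0, 0, 0, 1, 0, 1, 0, 0, 0, 1], [0, 0, 0, 0, 0, 0, 0, 1, 0, 0, 0, 1,
    0, 1], [0, 0, 0, 0, 0, 0, 0, 1], [], [0, 0, 0, 0, 0, 0, 0, 1], [0, 0, 0, 0, 0, 0, 0, 1], [0,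
    0, 0, 0, 0, 0, 0, 0, 1], [], [0, 0, 0, 0, 0, 0, 0, 1], [], [], [], [], [], [], [], [], [], [],
    [], [], [], [], [], []],
   [[0, 0, 0, 0, 0, 0, 1, 0, 1, 0, 2, 0, 1, 0, 2, 0, 1, 0, 1], [0, 0, 0, 0, 0, 0, 1, 0, 1, 0, 2,
    0, 1, 0, 1], [0, 0, 0, 0, 0, 0, 1, 0, 1, 0, 1], [], [0, 0, 0, 0, 0, 0, 1, 0, 1], [0, 0, 0, 0,
    0, 0, 1, 0, 1], [0, 0, 0, 0, 0, 0, 0, 1], [], [0, 0, 0, 0, 0, 0, 1], [0, 0, 0, 0, 0, 0, 1],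
    [], [], [], [], [], [], [], [], [], [], [], [], [], [], []],
   [[0, 0, 0, 0, 0, 0, 0, 0, 1, 0, 0, 0, 2, 0, 0, 0, 1], [0, 0, 0, 0, 0, 0, 0, 0, 1, 0, 0, 0, 1],
    [0, 0, 0, 0, 0, 0, 0, 0, 1], [0, 0, 0, 0, 0, 0, 0, 0, 0, 1], [0, 0, 0, 0, 0, 0, 0, 0, 1], [],
    [], [], [], [], [0, 0, 0, 0, 0, 0, 1], [], [], [], [], [], [], [], [], [], [], [], [], [], []],
   [[0, 0, 0, 0, 0, 0, 1, 0, 1, 0, 0, 0, 2, 0, 0, 0, 1, 0, 1], [0, 0, 0, 0, 0, 0, 1, 0, 1, 0, 0,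
    0, 1], [0, 0, 0, 0, 0, 0, 1, 0, 1], [0, 0, 0, 0, 0, 0, 0, 0, 0, 1], [0, 0, 0, 0, 0, 0, 1, 0,
    1], [0, 0, 0, 0, 0, 0, 1], [], [0, 0, 0, 0, 0, 0, 1], [0, 0, 0, 0, 0, 0, 1], [], [], [0, 0, 0,
    0, 0, 0, 1], [], [], [], [], [], [], [], [], [], [], [], [], []],
   [[0, 0, 0, 0, 0, 1, 0, 2, 0, 2, 0, 3, 0, 3, 0, 2, 0, 2, 0, 1], [0, 0, 0, 0, 0, 1, 0, 2, 0, 2,
    0, 2, 0, 1], [0, 0, 0, 0, 0, 1, 0, 2, 0, 2, 0, 1], [0, 0, 0, 0, 0, 0, 0, 0, 1, 0, 1], [0, 0,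
    0, 0, 0, 1, 0, 2, 0, 1], [0, 0, 0, 0, 0, 1, 0, 1], [], [0, 0, 0, 0, 0, 1, 0, 1], [0, 0, 0, 0,
    0, 1], [0, 0, 0, 0, 0, 1], [0, 0, 0, 0, 0, 1], [0, 0, 0, 0, 0, 1], [0, 0, 0, 0, 0, 1], [], [],
    [], [], [], [], [], [], [], [], [], []],
   [[0, 0, 0, 0, 0, 0, 0, 1, 0, 0, 0, 1, 0, 1, 0, 0, 0, 1], [0, 0, 0, 0, 0, 0, 0, 1], [0, 0, 0,
    0, 0, 0, 0, 1], [0, 0, 0, 0, 0, 0, 0, 0, 1, 0, 1], [0, 0, 0, 0, 0, 0, 0, 1], [], [], [0, 0, 0,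
    0, 0, 1, 0, 1], [], [], [], [0, 0, 0, 0, 0, 1], [], [0, 0, 0, 0, 0, 1], [], [], [], [], [],
    [], [], [], [], [], []],
   [[0, 0, 0, 0, 1, 0, 0, 0, 2, 0, 2, 0, 2, 0, 2, 0, 2, 0, 0, 0, 1], [0, 0, 0, 0, 1, 0, 0, 0, 2,
    0, 2, 0, 1], [0, 0, 0, 0, 1, 0, 0, 0, 2, 0, 2], [0, 0, 0, 0, 0, 0, 0, 0, 0, 1], [0, 0, 0, 0,
    1, 0, 0, 0, 2], [0, 0, 0, 0, 1, 0, 0, 0, 1], [], [0, 0, 0, 0, 1, 0, 0, 0, 1], [0, 0, 0, 0, 1],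
    [0, 0, 0, 0, 1], [], [0, 0, 0, 0, 1], [0, 0, 0, 0, 1], [], [0, 0, 0, 0, 1], [], [], [], [],
    [], [], [], [], [], []],
   [[0, 0, 0, 0, 0, 0, 1, 0, 1, 0, 2, 0, 1, 0, 2, 0, 1, 0, 1], [0, 0, 0, 0, 0, 0, 1, 0, 1, 0, 1],
    [0, 0, 0, 0, 0, 0, 1, 0, 1, 0, 1], [0, 0, 0, 0, 0, 0, 0, 1, 0, 1, 0, 1], [0, 0, 0, 0, 0, 0, 1,
    0, 1], [], [], [0, 0, 0, 0, 1, 0, 1, 0, 1], [], [], [0, 0, 0, 0, 1], [0, 0, 0, 0, 1], [0, 0,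
    0, 0, 1], [0, 0, 0, 0, 1], [], [0, 0, 0, 0, 1], [], [], [], [], [], [], [], [], []],
   [[0, 0, 0, 0, 0, 0, 1, 0, 1, 0, 0, 0, 2, 0, 0, 0, 1, 0, 1], [0, 0, 0, 0, 0, 0, 1, 0, 1, 0, 0,
    0, 1], [0, 0, 0, 0, 0, 0, 1, 0, 1, 0, 0, 0, 1], [], [0, 0, 0, 0, 0, 0, 1], [0, 0, 0, 0, 0, 0,
    1], [], [0, 0, 0, 0, 0, 0, 1], [], [0, 0, 0, 0, 1], [], [], [0, 0, 0, 0, 1], [], [], [], [0,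
    0, 0, 0, 1], [], [], [], [], [], [], [], []],
   [[0, 0, 0, 0, 0, 0, 0, 0, 0, 0, 0, 0, 1], [], [], [0, 0, 0, 0, 0, 0, 0, 0, 0, 1], [], [], [],
    [0, 0, 0, 0, 0, 0, 1], [], [], [], [], [], [0, 0, 0, 0, 1], [], [], [], [0, 0, 0, 0, 1], [],
    [], [], [], [], [], []],
   [[0, 0, 0, 1, 0, 1, 0, 1, 0, 2, 0, 1, 0, 1, 0, 1], [0, 0, 0, 1, 0, 1, 0, 1, 0, 2, 0, 1], [0,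
    0, 0, 1, 0, 1, 0, 1, 0, 1], [], [0, 0, 0, 1, 0, 1, 0, 1], [0, 0, 0, 1, 0, 1, 0, 1], [0, 0, 0,
    0, 0, 0, 1], [0, 0, 0, 1], [0, 0, 0, 1, 0, 1], [0, 0, 0, 1, 0, 1], [], [0, 0, 0, 1], [0, 0, 0,
    1], [], [0, 0, 0, 1], [], [], [], [0, 0, 0, 1], [], [], [], [], [], []],
   [[0, 0, 0, 1, 0, 1, 0, 1, 0, 2, 0, 1, 0, 1, 0, 1], [0, 0, 0, 1, 0, 1, 0, 1, 0, 1], [0, 0, 0,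
    1, 0, 1, 0, 1, 0, 1], [0, 0, 0, 0, 0, 0, 1, 0, 1], [0, 0, 0, 1, 0, 1, 0, 1], [0, 0, 0, 1], [],
    [0, 0, 0, 2, 0, 1, 0, 1], [0, 0, 0, 1], [0, 0, 0, 1], [0, 0, 0, 1], [0, 0, 0, 2], [0, 0, 0,
    2], [0, 0, 0, 1], [0, 0, 0, 1], [0, 0, 0, 1], [], [], [], [0, 0, 0, 1], [], [], [], [], []],
   [[0, 0, 1, 0, 1, 0, 2, 0, 1, 0, 2, 0, 1, 0, 1], [0, 0, 1, 0, 1, 0, 2, 0, 1, 0, 1], [0, 0, 1,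
    0, 1, 0, 2, 0, 1], [0, 0, 0, 0, 0, 0, 0, 1], [0, 0, 1, 0, 1, 0, 2], [0, 0, 1, 0, 1, 0, 1], [],
    [0, 0, 1, 0, 1, 0, 1], [0, 0, 1, 0, 1], [0, 0, 1, 0, 1], [0, 0, 0, 0, 1], [0, 0, 1, 0, 1], [0,
    0, 1, 0, 1], [], [0, 0, 1], [], [], [], [0, 0, 1], [0, 0, 1], [0, 0, 1], [], [], [], []],
   [[0, 0, 0, 0, 1, 0, 0, 0, 1], [0, 0, 0, 0, 1, 0, 0, 0, 1], [0, 0, 0, 0, 1], [], [0, 0, 0, 0,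
    1], [0, 0, 0, 0, 1], [0, 0, 0, 0, 0, 1], [], [0, 0, 0, 0, 1], [0, 0, 0, 0, 1], [], [], [], [],
    [], [], [], [], [0, 0, 1], [], [], [0, 0, 1], [], [], []],
   [[0, 1, 0, 0, 0, 1, 0, 1, 0, 0, 0, 1], [0, 1, 0, 0, 0, 1, 0, 1], [0, 1, 0, 0, 0, 1, 0, 1], [],
    [0, 1, 0, 0, 0, 1], [0, 1, 0, 0, 0, 1], [], [0, 1, 0, 0, 0, 1], [0, 1], [0, 1, 0, 1], [], [0,
    1], [0, 1, 0, 1], [], [0, 1], [], [0, 0, 0, 1], [], [0, 1], [0, 1], [0, 1], [], [0, 1], [],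
    []],
   [[0, 0, 0, 0, 1, 0, 0, 0, 1], [0, 0, 0, 0, 1], [0, 0, 0, 0, 1], [0, 0, 0, 0, 0, 1], [0, 0, 0,
    0, 1], [], [], [0, 0, 1, 0, 1], [], [], [0, 0, 1], [0, 0, 1], [0, 0, 1], [0, 0, 1], [], [0, 0,
    1], [], [], [], [0, 0, 1], [], [], [], [0, 1], []],
   [[1], [1], [1], [], [1], [1], [], [1], [1], [1], [], [1], [1], [], [1], [], [], [], [1], [1],
    [1], [], [1], [], [1]]]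

/-- the matrix `Λ`: coefficient lists of polynomials in `q` -/
def lamT : List (List (List ℤ)) :=
  [[[1], [], [], [], [], [], [], [], [], [], [], [], [], [], [], [], [], [], [], [], [], [], [],
    [], []],
   [[], [-1, 0, 0, 0, -1, 0, 0, 0, 0, 0, 0, 0, 1, 0, 0, 0, 1], [], [], [], [], [], [], [], [],
    [], [], [], [], [], [], [], [], [], [], [], [], [], [], []],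
   [[], [], [0, 0, 0, 0, 0, 0, -1, 0, 0, 0, -1, 0, 0, 0, 0, 0, 0, 0, 1, 0, 0, 0, 1], [0, 0, 0,
    -1, 0, 0, 0, -1, 0, 0, 0, 0, 0, 0, 0, 1, 0, 0, 0, 1], [], [], [], [], [], [], [], [], [], [],
    [], [], [], [], [], [], [], [], [], [], []],
   [[], [], [0, 0, 0, -1, 0, 0, 0, -1, 0, 0, 0, 0, 0, 0, 0, 1, 0, 0, 0, 1], [0, 0, 0, 0, 0, 0,
    -1, 0, 0, 0, -1, 0, 0, 0, 0, 0, 0, 0, 1, 0, 0, 0, 1], [], [], [], [], [], [], [], [], [], [],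
    [], [], [], [], [], [], [], [], [], [], []],
   [[], [], [], [], [0, 0, 0, 0, 1, 0, 1, 0, 1, 0, 0, 0, -1, 0, -1, 0, -2, 0, -1, 0, -1, 0, 0, 0,
    1, 0, 1, 0, 1], [], [], [], [], [], [], [], [], [], [], [], [], [], [], [], [], [], [], [],
    []],
   [[], [], [], [], [], [0, 0, 0, 0, 0, 0, 0, 0, 0, 0, 1, 0, 0, 0, 0, 0, 0, 0, -1, 0, 0, 0, -1,
    0, 0, 0, 0, 0, 0, 0, 1], [0, 0, 0, 0, 0, 0, 0, 1, 0, 0, 0, 0, 0, 0, 0, -1, 0, 0, 0, -1, 0, 0,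
    0, 0, 0, 0, 0, 1], [], [], [], [], [], [], [], [], [], [], [], [], [], [], [], [], [], []],
   [[], [], [], [], [], [0, 0, 0, 0, 0, 0, 0, 1, 0, 0, 0, 0, 0, 0, 0, -1, 0, 0, 0, -1, 0, 0, 0,
    0, 0, 0, 0, 1], [0, 0, 0, 0, 0, 0, 0, 0, 0, 0, 1, 0, 0, 0, 0, 0, 0, 0, -1, 0, 0, 0, -1, 0, 0,
    0, 0, 0, 0, 0, 1], [], [], [], [], [], [], [], [], [], [], [], [], [], [], [], [], [], []],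
   [[], [], [], [], [], [], [], [0, 0, 0, 0, 0, 0, 0, 0, 0, 0, 1, 0, 0, 0, 0, 0, 0, 0, -1, 0, 0,
    0, -1, 0, 0, 0, 0, 0, 0, 0, 1], [], [], [], [], [], [], [], [], [], [], [], [], [], [], [],
    [], []],
   [[], [], [], [], [], [], [], [], [0, 0, 0, 0, 0, 0, 0, 0, -1, 0, 0, 0, 0, 0, 1, 0, 1, 0, 0, 0,
    1, 0, -1, 0, 0, 0, -1, 0, -1, 0, 0, 0, 0, 0, 1], [], [], [], [], [], [], [], [], [], [], [],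
    [], [], [], [], []],
   [[], [], [], [], [], [], [], [], [], [0, 0, 0, 0, 0, 0, 0, 0, 0, 0, 0, 0, 0, 0, 1, 0, 0, 0, 1,
    0, -1, 0, 0, 0, -1, 0, -1, 0, 0, 0, -1, 0, 1, 0, 0, 0, 1], [0, 0, 0, 0, 0, 0, 0, 0, 0, 0, 0,
    0, 1, 0, 0, 0, 1, 0, -1, 0, 0, 0, -1, 0, -1, 0, 0, 0, -1, 0, 1, 0, 0, 0, 1], [], [], [], [],
    [], [], [], [], [], [], [], [], [], []],
   [[], [], [], [], [], [], [], [], [], [0, 0, 0, 0, 0, 0, 0, 0, 0, 0, 0, 0, 1, 0, 0, 0, 1, 0,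
    -1, 0, 0, 0, -1, 0, -1, 0, 0, 0, -1, 0, 1, 0, 0, 0, 1], [0, 0, 0, 0, 0, 0, 0, 0, 0, 0, 0, 0,
    0, 0, 1, 0, 0, 0, 1, 0, -1, 0, 0, 0, -1, 0, -1, 0, 0, 0, -1, 0, 1, 0, 0, 0, 1], [], [], [],
    [], [], [], [], [], [], [], [], [], [], []],
   [[], [], [], [], [], [], [], [], [], [], [], [0, 0, 0, 0, 0, 0, 0, 0, 0, 0, -1, 0, 0, 0, 0, 0,
    1, 0, 1, 0, 0, 0, 1, 0, -1, 0, 0, 0, -1, 0, -1, 0, 0, 0, 0, 0, 1], [], [], [], [], [], [], [],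
    [], [], [], [], [], []],
   [[], [], [], [], [], [], [], [], [], [], [], [], [0, 0, 0, 0, 0, 0, 0, 0, 0, 0, 0, 0, -1, 0,
    0, 0, 0, 0, 1, 0, 1, 0, 0, 0, 1, 0, -1, 0, 0, 0, -1, 0, -1, 0, 0, 0, 0, 0, 1], [], [], [], [],
    [], [], [], [], [], [], [], []],
   [[], [], [], [], [], [], [], [], [], [], [], [], [], [0, 0, 0, 0, 0, 0, 0, 0, 0, 0, 0, 0, -1,
    0, 0, 0, 0, 0, 1, 0, 1, 0, 0, 0, 1, 0, -1, 0, 0, 0, -1, 0, -1, 0, 0, 0, 0, 0, 1], [], [], [],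
    [], [], [], [], [], [], [], []],
   [[], [], [], [], [], [], [], [], [], [], [], [], [], [], [0, 0, 0, 0, 0, 0, 0, 0, 0, 0, 0, 0,
    1, 0, -1, 0, 0, 0, -1, 0, 0, 0, 1, 0, -1, 0, 2, 0, -1, 0, 1, 0, 0, 0, -1, 0, 0, 0, -1, 0, 1],
    [], [], [], [], [], [], [], [], [], []],
   [[], [], [], [], [], [], [], [], [], [], [], [], [], [], [], [0, 0, 0, 0, 0, 0, 0, 0, 0, 0, 0,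
    0, 1, 0, -1, 0, 0, 0, -1, 0, 0, 0, 1, 0, -1, 0, 2, 0, -1, 0, 1, 0, 0, 0, -1, 0, 0, 0, -1, 0,
    1], [], [], [], [], [], [], [], [], []],
   [[], [], [], [], [], [], [], [], [], [], [], [], [], [], [], [], [0, 0, 0, 0, 0, 0, 0, 0, 0,
    0, 0, 0, 1, 0, -1, 0, 0, 0, -1, 0, 0, 0, 1, 0, -1, 0, 2, 0, -1, 0, 1, 0, 0, 0, -1, 0, 0, 0,
    -1, 0, 1], [], [], [], [], [], [], [], []],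
   [[], [], [], [], [], [], [], [], [], [], [], [], [], [], [], [], [], [0, 0, 0, 0, 0, 0, 0, 0,
    0, 0, 0, 0, 1, 0, -1, 0, 0, 0, -1, 0, 0, 0, 1, 0, -1, 0, 2, 0, -1, 0, 1, 0, 0, 0, -1, 0, 0, 0,
    -1, 0, 1], [], [], [], [], [], [], []],
   [[], [], [], [], [], [], [], [], [], [], [], [], [], [], [], [], [], [], [0, 0, 0, 0, 0, 0, 0,
    0, 0, 0, 0, 0, 0, 0, 0, 0, -1, 0, 0, 0, 0, 0, 1, 0, 1, 0, 0, 0, 1, 0, -1, 0, 0, 0, -1, 0, -1,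
    0, 0, 0, 0, 0, 1], [], [], [], [], [], []],
   [[], [], [], [], [], [], [], [], [], [], [], [], [], [], [], [], [], [], [], [0, 0, 0, 0, 0,
    0, 0, 0, 0, 0, 0, 0, 0, 0, 0, 0, -1, 0, 0, 0, 0, 0, 1, 0, 1, 0, 0, 0, 1, 0, -1, 0, 0, 0, -1,
    0, -1, 0, 0, 0, 0, 0, 1], [], [], [], [], []],
   [[], [], [], [], [], [], [], [], [], [], [], [], [], [], [], [], [], [], [], [], [0, 0, 0, 0,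
    0, 0, 0, 0, 0, 0, 0, 0, 0, 0, 0, 0, 1, 0, -1, 0, 0, 0, -1, 0, 0, 0, 1, 0, -1, 0, 2, 0, -1, 0,
    1, 0, 0, 0, -1, 0, 0, 0, -1, 0, 1], [], [], [], []],
   [[], [], [], [], [], [], [], [], [], [], [], [], [], [], [], [], [], [], [], [], [], [0, 0, 0,
    0, 0, 0, 0, 0, 0, 0, 0, 0, 0, 0, 0, 0, 1, 0, -1, 0, 0, 0, -1, 0, 0, 0, 1, 0, -1, 0, 2, 0, -1,
    0, 1, 0, 0, 0, -1, 0, 0, 0, -1, 0, 1], [], [], []],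
   [[], [], [], [], [], [], [], [], [], [], [], [], [], [], [], [], [], [], [], [], [], [], [0,
    0, 0, 0, 0, 0, 0, 0, 0, 0, 0, 0, 0, 0, 0, 0, 0, 0, 1, 0, -1, 0, 0, 0, -1, 0, 0, 0, 1, 0, -1,
    0, 2, 0, -1, 0, 1, 0, 0, 0, -1, 0, 0, 0, -1, 0, 1], [], []],
   [[], [], [], [], [], [], [], [], [], [], [], [], [], [], [], [], [], [], [], [], [], [], [],
    [0, 0, 0, 0, 0, 0, 0, 0, 0, 0, 0, 0, 0, 0, 0, 0, 0, 0, 1, 0, -1, 0, 0, 0, -1, 0, 0, 0, 1, 0,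
    -1, 0, 2, 0, -1, 0, 1, 0, 0, 0, -1, 0, 0, 0, -1, 0, 1], []],
   [[], [], [], [], [], [], [], [], [], [], [], [], [], [], [], [], [], [], [], [], [], [], [],
    [], [0, 0, 0, 0, 0, 0, 0, 0, 0, 0, 0, 0, 0, 0, 0, 0, 0, 0, 0, 0, 1, 0, -1, 0, 0, 0, -1, 0, 0,
    0, 1, 0, -1, 0, 2, 0, -1, 0, 1, 0, 0, 0, -1, 0, 0, 0, -1, 0, 1]]]

/-- the matrix `P Λ`: coefficient lists of polynomials in `q` -/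
def plT : List (List (List ℤ)) :=
  [[[0, 0, 0, 0, 0, 0, 0, 0, 0, 0, 0, 0, 0, 0, 0, 0, 0, 0, 0, 0, 0, 0, 0, 0, 1], [], [], [], [],
    [], [], [], [], [], [], [], [], [], [], [], [], [], [], [], [], [], [], [], []],
   [[0, 0, 0, 0, 0, 0, 0, 0, 0, 0, 0, 0, 0, 0, 0, 0, 1, 0, 0, 0, 1], [0, 0, 0, 0, 0, 0, 0, 0, 0,
    0, 0, 0, 0, 0, 0, 0, -1, 0, 0, 0, -1, 0, 0, 0, 0, 0, 0, 0, 1, 0, 0, 0, 1], [], [], [], [], [],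
    [], [], [], [], [], [], [], [], [], [], [], [], [], [], [], [], [], []],
   [[0, 0, 0, 0, 0, 0, 0, 0, 0, 0, 0, 0, 0, 1, 0, 0, 0, 1, 0, 1, 0, 0, 0, 1], [0, 0, 0, 0, 0, 0,
    0, 0, 0, 0, 0, 0, 0, -1, 0, 0, 0, -1, 0, 0, 0, 0, 0, 0, 0, 1, 0, 0, 0, 1], [0, 0, 0, 0, 0, 0,
    0, 0, 0, 0, 0, 0, 0, 0, 0, 0, 0, 0, 0, -1, 0, 0, 0, -1, 0, 0, 0, 0, 0, 0, 0, 1, 0, 0, 0, 1],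
    [0, 0, 0, 0, 0, 0, 0, 0, 0, 0, 0, 0, 0, 0, 0, 0, -1, 0, 0, 0, -1, 0, 0, 0, 0, 0, 0, 0, 1, 0,
    0, 0, 1], [], [], [], [], [], [], [], [], [], [], [], [], [], [], [], [], [], [], [], [], []],
   [[0, 0, 0, 0, 0, 0, 0, 0, 0, 0, 0, 0, 0, 0, 0, 0, 1, 0, 0, 0, 1], [], [0, 0, 0, 0, 0, 0, 0, 0,
    0, 0, 0, 0, 0, 0, 0, 0, -1, 0, 0, 0, -1, 0, 0, 0, 0, 0, 0, 0, 1, 0, 0, 0, 1], [0, 0, 0, 0, 0,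
    0, 0, 0, 0, 0, 0, 0, 0, 0, 0, 0, 0, 0, 0, -1, 0, 0, 0, -1, 0, 0, 0, 0, 0, 0, 0, 1, 0, 0, 0,
    1], [], [], [], [], [], [], [], [], [], [], [], [], [], [], [], [], [], [], [], [], []],
   [[0, 0, 0, 0, 0, 0, 0, 0, 0, 0, 1, 0, 1, 0, 2, 0, 1, 0, 2, 0, 1, 0, 1], [0, 0, 0, 0, 0, 0, 0,
    0, 0, 0, -1, 0, -1, 0, -2, 0, -1, 0, -1, 0, 0, 0, 1, 0, 1, 0, 2, 0, 1, 0, 1], [0, 0, 0, 0, 0,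
    0, 0, 0, 0, 0, 0, 0, 0, 0, -1, 0, -1, 0, -2, 0, -1, 0, -1, 0, 0, 0, 1, 0, 1, 0, 2, 0, 1, 0,
    1], [0, 0, 0, 0, 0, 0, 0, 0, 0, 0, 0, 0, 0, -1, 0, -1, 0, -2, 0, -1, 0, -1, 0, 0, 0, 1, 0, 1,
    0, 2, 0, 1, 0, 1], [0, 0, 0, 0, 0, 0, 0, 0, 0, 0, 0, 0, 0, 0, 1, 0, 1, 0, 1, 0, 0, 0, -1, 0,
    -1, 0, -2, 0, -1, 0, -1, 0, 0, 0, 1, 0, 1, 0, 1], [], [], [], [], [], [], [], [], [], [], [],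
    [], [], [], [], [], [], [], [], []],
   [[0, 0, 0, 0, 0, 0, 0, 0, 0, 1, 0, 1, 0, 1, 0, 2, 0, 1, 0, 1, 0, 1], [0, 0, 0, 0, 0, 0, 0, 0,
    0, -1, 0, -1, 0, -2, 0, -2, 0, -1, 0, -1, 0, 1, 0, 1, 0, 2, 0, 2, 0, 1, 0, 1], [0, 0, 0, 0, 0,
    0, 0, 0, 0, 0, 0, 0, 0, 0, 0, -1, 0, -1, 0, -1, 0, -1, 0, 0, 0, 0, 0, 1, 0, 1, 0, 1, 0, 1],
    [0, 0, 0, 0, 0, 0, 0, 0, 0, 0, 0, 0, -1, 0, -1, 0, -1, 0, -1, 0, 0, 0, 0, 0, 1, 0, 1, 0, 1, 0,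
    1], [0, 0, 0, 0, 0, 0, 0, 0, 0, 0, 0, 0, 0, 1, 0, 1, 0, 1, 0, 0, 0, -1, 0, -1, 0, -2, 0, -1,
    0, -1, 0, 0, 0, 1, 0, 1, 0, 1], [0, 0, 0, 0, 0, 0, 0, 0, 0, 0, 0, 0, 0, 0, 0, 0, 0, 0, 0, 1,
    0, 0, 0, 0, 0, 0, 0, -1, 0, 0, 0, -1, 0, 0, 0, 0, 0, 0, 0, 1], [0, 0, 0, 0, 0, 0, 0, 0, 0, 0,
    0, 0, 0, 0, 0, 0, 1, 0, 0, 0, 0, 0, 0, 0, -1, 0, 0, 0, -1, 0, 0, 0, 0, 0, 0, 0, 1], [], [],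
    [], [], [], [], [], [], [], [], [], [], [], [], [], [], [], []],
   [[0, 0, 0, 0, 0, 0, 0, 0, 0, 0, 0, 0, 1], [0, 0, 0, 0, 0, 0, 0, 0, 0, 0, 0, 0, -1, 0, 0, 0,
    -1, 0, 0, 0, 0, 0, 0, 0, 1, 0, 0, 0, 1], [], [], [], [0, 0, 0, 0, 0, 0, 0, 0, 0, 0, 0, 0, 0,
    0, 0, 0, 1, 0, 0, 0, 0, 0, 0, 0, -1, 0, 0, 0, -1, 0, 0, 0, 0, 0, 0, 0, 1], [0, 0, 0, 0, 0, 0,
    0, 0, 0, 0, 0, 0, 0, 0, 0, 0, 0, 0, 0, 1, 0, 0, 0, 0, 0, 0, 0, -1, 0, 0, 0, -1, 0, 0, 0, 0, 0,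
    0, 0, 1], [], [], [], [], [], [], [], [], [], [], [], [], [], [], [], [], [], []],
   [[0, 0, 0, 0, 0, 0, 0, 0, 0, 1, 0, 1, 0, 1, 0, 2, 0, 1, 0, 1, 0, 1], [0, 0, 0, 0, 0, 0, 0, 0,
    0, -1, 0, -1, 0, -1, 0, -1, 0, 0, 0, 0, 0, 1, 0, 1, 0, 1, 0, 1], [0, 0, 0, 0, 0, 0, 0, 0, 0,
    0, 0, 0, 0, -1, 0, -2, 0, -2, 0, -2, 0, -1, 0, 0, 0, 1, 0, 2, 0, 2, 0, 2, 0, 1], [0, 0, 0, 0,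
    0, 0, 0, 0, 0, 0, 0, 0, -1, 0, -1, 0, -2, 0, -2, 0, -1, 0, -1, 0, 1, 0, 1, 0, 2, 0, 2, 0, 1,
    0, 1], [0, 0, 0, 0, 0, 0, 0, 0, 0, 0, 0, 0, 0, 1, 0, 1, 0, 1, 0, 0, 0, -1, 0, -1, 0, -2, 0,
    -1, 0, -1, 0, 0, 0, 1, 0, 1, 0, 1], [], [], [0, 0, 0, 0, 0, 0, 0, 0, 0, 0, 0, 0, 0, 0, 0, 0,
    0, 0, 0, 1, 0, 0, 0, 0, 0, 0, 0, -1, 0, 0, 0, -1, 0, 0, 0, 0, 0, 0, 0, 1], [], [], [], [], [],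
    [], [], [], [], [], [], [], [], [], [], [], []],
   [[0, 0, 0, 0, 0, 0, 0, 1, 0, 0, 0, 1, 0, 1, 0, 0, 0, 1], [0, 0, 0, 0, 0, 0, 0, -1, 0, 0, 0,
    -2, 0, -1, 0, -1, 0, -1, 0, 1, 0, 0, 0, 2, 0, 1, 0, 1, 0, 1], [0, 0, 0, 0, 0, 0, 0, 0, 0, 0,
    0, 0, 0, -1, 0, 0, 0, -1, 0, 0, 0, 0, 0, 0, 0, 1, 0, 0, 0, 1], [0, 0, 0, 0, 0, 0, 0, 0, 0, 0,
    -1, 0, 0, 0, -1, 0, 0, 0, 0, 0, 0, 0, 1, 0, 0, 0, 1], [0, 0, 0, 0, 0, 0, 0, 0, 0, 0, 0, 1, 0,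
    1, 0, 1, 0, 0, 0, -1, 0, -1, 0, -2, 0, -1, 0, -1, 0, 0, 0, 1, 0, 1, 0, 1], [0, 0, 0, 0, 0, 0,
    0, 0, 0, 0, 0, 0, 0, 0, 0, 1, 0, 1, 0, 0, 0, 0, 0, -1, 0, -1, 0, -1, 0, -1, 0, 0, 0, 0, 0, 1,
    0, 1], [0, 0, 0, 0, 0, 0, 0, 0, 0, 0, 0, 0, 0, 0, 1, 0, 0, 0, 1, 0, 0, 0, -1, 0, 0, 0, -2, 0,
    0, 0, -1, 0, 0, 0, 1, 0, 0, 0, 1], [], [0, 0, 0, 0, 0, 0, 0, 0, 0, 0, 0, 0, 0, 0, 0, -1, 0, 0,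
    0, 0, 0, 1, 0, 1, 0, 0, 0, 1, 0, -1, 0, 0, 0, -1, 0, -1, 0, 0, 0, 0, 0, 1], [], [], [], [],
    [], [], [], [], [], [], [], [], [], [], [], []],
   [[0, 0, 0, 0, 0, 0, 1, 0, 1, 0, 2, 0, 1, 0, 2, 0, 1, 0, 1], [0, 0, 0, 0, 0, 0, -1, 0, -1, 0,
    -3, 0, -2, 0, -3, 0, -1, 0, 0, 0, 1, 0, 3, 0, 2, 0, 3, 0, 1, 0, 1], [0, 0, 0, 0, 0, 0, 0, 0,
    0, 0, 0, 0, -1, 0, -1, 0, -2, 0, -1, 0, -1, 0, 0, 0, 1, 0, 1, 0, 2, 0, 1, 0, 1], [0, 0, 0, 0,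
    0, 0, 0, 0, 0, -1, 0, -1, 0, -2, 0, -1, 0, -1, 0, 0, 0, 1, 0, 1, 0, 2, 0, 1, 0, 1], [0, 0, 0,
    0, 0, 0, 0, 0, 0, 0, 1, 0, 2, 0, 2, 0, 1, 0, -1, 0, -2, 0, -3, 0, -3, 0, -2, 0, -1, 0, 1, 0,
    2, 0, 2, 0, 1], [0, 0, 0, 0, 0, 0, 0, 0, 0, 0, 0, 0, 0, 0, 1, 0, 1, 0, 1, 0, 0, 0, -1, 0, -1,
    0, -2, 0, -1, 0, -1, 0, 0, 0, 1, 0, 1, 0, 1], [0, 0, 0, 0, 0, 0, 0, 0, 0, 0, 0, 0, 0, 1, 0, 1,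
    0, 1, 0, 0, 0, -1, 0, -1, 0, -2, 0, -1, 0, -1, 0, 0, 0, 1, 0, 1, 0, 1], [], [0, 0, 0, 0, 0, 0,
    0, 0, 0, 0, 0, 0, 0, 0, -1, 0, 0, 0, 0, 0, 1, 0, 1, 0, 0, 0, 1, 0, -1, 0, 0, 0, -1, 0, -1, 0,
    0, 0, 0, 0, 1], [0, 0, 0, 0, 0, 0, 0, 0, 0, 0, 0, 0, 0, 0, 0, 0, 0, 0, 0, 0, 1, 0, 0, 0, 1, 0,
    -1, 0, 0, 0, -1, 0, -1, 0, 0, 0, -1, 0, 1, 0, 0, 0, 1], [0, 0, 0, 0, 0, 0, 0, 0, 0, 0, 0, 0,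
    0, 0, 0, 0, 0, 0, 1, 0, 0, 0, 1, 0, -1, 0, 0, 0, -1, 0, -1, 0, 0, 0, -1, 0, 1, 0, 0, 0, 1],
    [], [], [], [], [], [], [], [], [], [], [], [], [], []],
   [[0, 0, 0, 0, 0, 0, 0, 0, 1, 0, 0, 0, 2, 0, 0, 0, 1], [0, 0, 0, 0, 0, 0, 0, 0, -1, 0, 0, 0,
    -2, 0, 0, 0, -1, 0, 0, 0, 1, 0, 0, 0, 2, 0, 0, 0, 1], [0, 0, 0, 0, 0, 0, 0, 0, 0, 0, 0, 0, -1,
    0, -1, 0, -1, 0, -1, 0, 0, 0, 0, 0, 1, 0, 1, 0, 1, 0, 1], [0, 0, 0, 0, 0, 0, 0, 0, 0, 0, 0,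
    -1, 0, 0, 0, -2, 0, 0, 0, -1, 0, 0, 0, 1, 0, 0, 0, 2, 0, 0, 0, 1], [0, 0, 0, 0, 0, 0, 0, 0, 0,
    0, 0, 0, 1, 0, 1, 0, 1, 0, 0, 0, -1, 0, -1, 0, -2, 0, -1, 0, -1, 0, 0, 0, 1, 0, 1, 0, 1], [],
    [], [], [], [0, 0, 0, 0, 0, 0, 0, 0, 0, 0, 0, 0, 0, 0, 0, 0, 0, 0, 1, 0, 0, 0, 1, 0, -1, 0, 0,
    0, -1, 0, -1, 0, 0, 0, -1, 0, 1, 0, 0, 0, 1], [0, 0, 0, 0, 0, 0, 0, 0, 0, 0, 0, 0, 0, 0, 0, 0,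
    0, 0, 0, 0, 1, 0, 0, 0, 1, 0, -1, 0, 0, 0, -1, 0, -1, 0, 0, 0, -1, 0, 1, 0, 0, 0, 1], [], [],
    [], [], [], [], [], [], [], [], [], [], [], []],
   [[0, 0, 0, 0, 0, 0, 1, 0, 1, 0, 0, 0, 2, 0, 0, 0, 1, 0, 1], [0, 0, 0, 0, 0, 0, -1, 0, -1, 0,
    -1, 0, -2, 0, 0, 0, -1, 0, 1, 0, 1, 0, 1, 0, 2, 0, 0, 0, 1], [0, 0, 0, 0, 0, 0, 0, 0, 0, 0, 0,
    0, -2, 0, -1, 0, -2, 0, -1, 0, 0, 0, 0, 0, 2, 0, 1, 0, 2, 0, 1], [0, 0, 0, 0, 0, 0, 0, 0, 0,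
    -1, 0, -1, 0, -1, 0, -2, 0, 0, 0, -1, 0, 1, 0, 1, 0, 1, 0, 2, 0, 0, 0, 1], [0, 0, 0, 0, 0, 0,
    0, 0, 0, 0, 1, 0, 2, 0, 2, 0, 1, 0, -1, 0, -2, 0, -3, 0, -3, 0, -2, 0, -1, 0, 1, 0, 2, 0, 2,
    0, 1], [0, 0, 0, 0, 0, 0, 0, 0, 0, 0, 0, 0, 0, 0, 0, 0, 1, 0, 0, 0, 0, 0, 0, 0, -1, 0, 0, 0,
    -1, 0, 0, 0, 0, 0, 0, 0, 1], [0, 0, 0, 0, 0, 0, 0, 0, 0, 0, 0, 0, 0, 1, 0, 0, 0, 0, 0, 0, 0,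
    -1, 0, 0, 0, -1, 0, 0, 0, 0, 0, 0, 0, 1], [0, 0, 0, 0, 0, 0, 0, 0, 0, 0, 0, 0, 0, 0, 0, 0, 1,
    0, 0, 0, 0, 0, 0, 0, -1, 0, 0, 0, -1, 0, 0, 0, 0, 0, 0, 0, 1], [0, 0, 0, 0, 0, 0, 0, 0, 0, 0,
    0, 0, 0, 0, -1, 0, 0, 0, 0, 0, 1, 0, 1, 0, 0, 0, 1, 0, -1, 0, 0, 0, -1, 0, -1, 0, 0, 0, 0, 0,
    1], [], [], [0, 0, 0, 0, 0, 0, 0, 0, 0, 0, 0, 0, 0, 0, 0, 0, -1, 0, 0, 0, 0, 0, 1, 0, 1, 0, 0,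
    0, 1, 0, -1, 0, 0, 0, -1, 0, -1, 0, 0, 0, 0, 0, 1], [], [], [], [], [], [], [], [], [], [],
    [], [], []],
   [[0, 0, 0, 0, 0, 1, 0, 2, 0, 2, 0, 3, 0, 3, 0, 2, 0, 2, 0, 1], [0, 0, 0, 0, 0, -1, 0, -2, 0,
    -3, 0, -4, 0, -3, 0, -2, 0, 0, 0, 2, 0, 3, 0, 4, 0, 3, 0, 2, 0, 1], [0, 0, 0, 0, 0, 0, 0, 0,
    0, 0, 0, -2, 0, -3, 0, -4, 0, -4, 0, -2, 0, -1, 0, 2, 0, 3, 0, 4, 0, 4, 0, 2, 0, 1], [0, 0, 0,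
    0, 0, 0, 0, 0, -1, 0, -2, 0, -3, 0, -4, 0, -3, 0, -2, 0, 0, 0, 2, 0, 3, 0, 4, 0, 3, 0, 2, 0,
    1], [0, 0, 0, 0, 0, 0, 0, 0, 0, 1, 0, 3, 0, 4, 0, 3, 0, 0, 0, -3, 0, -5, 0, -6, 0, -5, 0, -3,
    0, 0, 0, 3, 0, 4, 0, 3, 0, 1], [0, 0, 0, 0, 0, 0, 0, 0, 0, 0, 0, 0, 0, 0, 0, 1, 0, 1, 0, 0, 0,
    0, 0, -1, 0, -1, 0, -1, 0, -1, 0, 0, 0, 0, 0, 1, 0, 1], [0, 0, 0, 0, 0, 0, 0, 0, 0, 0, 0, 0,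
    1, 0, 1, 0, 0, 0, 0, 0, -1, 0, -1, 0, -1, 0, -1, 0, 0, 0, 0, 0, 1, 0, 1], [0, 0, 0, 0, 0, 0,
    0, 0, 0, 0, 0, 0, 0, 0, 0, 1, 0, 1, 0, 0, 0, 0, 0, -1, 0, -1, 0, -1, 0, -1, 0, 0, 0, 0, 0, 1,
    0, 1], [0, 0, 0, 0, 0, 0, 0, 0, 0, 0, 0, 0, 0, -1, 0, 0, 0, 0, 0, 1, 0, 1, 0, 0, 0, 1, 0, -1,
    0, 0, 0, -1, 0, -1, 0, 0, 0, 0, 0, 1], [0, 0, 0, 0, 0, 0, 0, 0, 0, 0, 0, 0, 0, 0, 0, 0, 0, 1,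
    0, 1, 0, 1, 0, 0, 0, -1, 0, -1, 0, -2, 0, -1, 0, -1, 0, 0, 0, 1, 0, 1, 0, 1], [0, 0, 0, 0, 0,
    0, 0, 0, 0, 0, 0, 0, 0, 0, 0, 0, 0, 1, 0, 1, 0, 1, 0, 0, 0, -1, 0, -1, 0, -2, 0, -1, 0, -1, 0,
    0, 0, 1, 0, 1, 0, 1], [0, 0, 0, 0, 0, 0, 0, 0, 0, 0, 0, 0, 0, 0, 0, -1, 0, 0, 0, 0, 0, 1, 0,
    1, 0, 0, 0, 1, 0, -1, 0, 0, 0, -1, 0, -1, 0, 0, 0, 0, 0, 1], [0, 0, 0, 0, 0, 0, 0, 0, 0, 0, 0,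
    0, 0, 0, 0, 0, 0, -1, 0, 0, 0, 0, 0, 1, 0, 1, 0, 0, 0, 1, 0, -1, 0, 0, 0, -1, 0, -1, 0, 0, 0,
    0, 0, 1], [], [], [], [], [], [], [], [], [], [], [], []],
   [[0, 0, 0, 0, 0, 0, 0, 1, 0, 0, 0, 1, 0, 1, 0, 0, 0, 1], [0, 0, 0, 0, 0, 0, 0, -1, 0, 0, 0,
    -1, 0, 0, 0, 0, 0, 0, 0, 1, 0, 0, 0, 1], [0, 0, 0, 0, 0, 0, 0, 0, 0, 0, 0, -1, 0, -2, 0, -1,
    0, -2, 0, 0, 0, 0, 0, 1, 0, 2, 0, 1, 0, 2], [0, 0, 0, 0, 0, 0, 0, 0, 0, 0, -1, 0, 0, 0, -2, 0,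
    -1, 0, -1, 0, -1, 0, 1, 0, 0, 0, 2, 0, 1, 0, 1, 0, 1], [0, 0, 0, 0, 0, 0, 0, 0, 0, 0, 0, 1, 0,
    1, 0, 1, 0, 0, 0, -1, 0, -1, 0, -2, 0, -1, 0, -1, 0, 0, 0, 1, 0, 1, 0, 1], [], [], [0, 0, 0,
    0, 0, 0, 0, 0, 0, 0, 0, 0, 0, 0, 0, 1, 0, 1, 0, 0, 0, 0, 0, -1, 0, -1, 0, -1, 0, -1, 0, 0, 0,
    0, 0, 1, 0, 1], [], [], [], [0, 0, 0, 0, 0, 0, 0, 0, 0, 0, 0, 0, 0, 0, 0, -1, 0, 0, 0, 0, 0,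
    1, 0, 1, 0, 0, 0, 1, 0, -1, 0, 0, 0, -1, 0, -1, 0, 0, 0, 0, 0, 1], [], [0, 0, 0, 0, 0, 0, 0,
    0, 0, 0, 0, 0, 0, 0, 0, 0, 0, -1, 0, 0, 0, 0, 0, 1, 0, 1, 0, 0, 0, 1, 0, -1, 0, 0, 0, -1, 0,
    -1, 0, 0, 0, 0, 0, 1], [], [], [], [], [], [], [], [], [], [], []],
   [[0, 0, 0, 0, 1, 0, 0, 0, 2, 0, 2, 0, 2, 0, 2, 0, 2, 0, 0, 0, 1], [0, 0, 0, 0, -1, 0, 0, 0,
    -3, 0, -2, 0, -3, 0, -2, 0, 0, 0, 0, 0, 3, 0, 2, 0, 3, 0, 2, 0, 1], [0, 0, 0, 0, 0, 0, 0, 0,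
    0, 0, -1, 0, -1, 0, -3, 0, -3, 0, -2, 0, -2, 0, 1, 0, 1, 0, 3, 0, 3, 0, 2, 0, 2], [0, 0, 0, 0,
    0, 0, 0, -1, 0, 0, 0, -3, 0, -2, 0, -3, 0, -2, 0, 0, 0, 0, 0, 3, 0, 2, 0, 3, 0, 2, 0, 1], [0,
    0, 0, 0, 0, 0, 0, 0, 1, 0, 1, 0, 3, 0, 2, 0, 1, 0, -1, 0, -4, 0, -3, 0, -5, 0, -2, 0, -1, 0,
    1, 0, 3, 0, 2, 0, 2], [0, 0, 0, 0, 0, 0, 0, 0, 0, 0, 0, 0, 0, 0, 1, 0, 0, 0, 1, 0, 0, 0, -1,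
    0, 0, 0, -2, 0, 0, 0, -1, 0, 0, 0, 1, 0, 0, 0, 1], [0, 0, 0, 0, 0, 0, 0, 0, 0, 0, 0, 1, 0, 0,
    0, 1, 0, 0, 0, -1, 0, 0, 0, -2, 0, 0, 0, -1, 0, 0, 0, 1, 0, 0, 0, 1], [0, 0, 0, 0, 0, 0, 0, 0,
    0, 0, 0, 0, 0, 0, 1, 0, 0, 0, 1, 0, 0, 0, -1, 0, 0, 0, -2, 0, 0, 0, -1, 0, 0, 0, 1, 0, 0, 0,
    1], [0, 0, 0, 0, 0, 0, 0, 0, 0, 0, 0, 0, -1, 0, 0, 0, 0, 0, 1, 0, 1, 0, 0, 0, 1, 0, -1, 0, 0,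
    0, -1, 0, -1, 0, 0, 0, 0, 0, 1], [0, 0, 0, 0, 0, 0, 0, 0, 0, 0, 0, 0, 0, 0, 0, 0, 0, 0, 1, 0,
    0, 0, 1, 0, -1, 0, 0, 0, -1, 0, -1, 0, 0, 0, -1, 0, 1, 0, 0, 0, 1], [0, 0, 0, 0, 0, 0, 0, 0,
    0, 0, 0, 0, 0, 0, 0, 0, 1, 0, 0, 0, 1, 0, -1, 0, 0, 0, -1, 0, -1, 0, 0, 0, -1, 0, 1, 0, 0, 0,
    1], [0, 0, 0, 0, 0, 0, 0, 0, 0, 0, 0, 0, 0, 0, -1, 0, 0, 0, 0, 0, 1, 0, 1, 0, 0, 0, 1, 0, -1,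
    0, 0, 0, -1, 0, -1, 0, 0, 0, 0, 0, 1], [0, 0, 0, 0, 0, 0, 0, 0, 0, 0, 0, 0, 0, 0, 0, 0, -1, 0,
    0, 0, 0, 0, 1, 0, 1, 0, 0, 0, 1, 0, -1, 0, 0, 0, -1, 0, -1, 0, 0, 0, 0, 0, 1], [], [0, 0, 0,
    0, 0, 0, 0, 0, 0, 0, 0, 0, 0, 0, 0, 0, 1, 0, -1, 0, 0, 0, -1, 0, 0, 0, 1, 0, -1, 0, 2, 0, -1,
    0, 1, 0, 0, 0, -1, 0, 0, 0, -1, 0, 1], [], [], [], [], [], [], [], [], [], []],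
   [[0, 0, 0, 0, 0, 0, 1, 0, 1, 0, 2, 0, 1, 0, 2, 0, 1, 0, 1], [0, 0, 0, 0, 0, 0, -1, 0, -1, 0,
    -2, 0, -1, 0, -1, 0, 0, 0, 1, 0, 1, 0, 2, 0, 1, 0, 1], [0, 0, 0, 0, 0, 0, 0, 0, 0, 0, -1, 0,
    -2, 0, -3, 0, -3, 0, -2, 0, -1, 0, 1, 0, 2, 0, 3, 0, 3, 0, 2, 0, 1], [0, 0, 0, 0, 0, 0, 0, 0,
    0, -1, 0, -1, 0, -3, 0, -2, 0, -3, 0, -1, 0, 0, 0, 1, 0, 3, 0, 2, 0, 3, 0, 1, 0, 1], [0, 0, 0,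
    0, 0, 0, 0, 0, 0, 0, 1, 0, 2, 0, 2, 0, 1, 0, -1, 0, -2, 0, -3, 0, -3, 0, -2, 0, -1, 0, 1, 0,
    2, 0, 2, 0, 1], [], [], [0, 0, 0, 0, 0, 0, 0, 0, 0, 0, 0, 0, 0, 0, 1, 0, 1, 0, 1, 0, 0, 0, -1,
    0, -1, 0, -2, 0, -1, 0, -1, 0, 0, 0, 1, 0, 1, 0, 1], [], [0, 0, 0, 0, 0, 0, 0, 0, 0, 0, 0, 0,
    0, 0, 0, 0, 1, 0, 0, 0, 1, 0, -1, 0, 0, 0, -1, 0, -1, 0, 0, 0, -1, 0, 1, 0, 0, 0, 1], [0, 0,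
    0, 0, 0, 0, 0, 0, 0, 0, 0, 0, 0, 0, 0, 0, 0, 0, 1, 0, 0, 0, 1, 0, -1, 0, 0, 0, -1, 0, -1, 0,
    0, 0, -1, 0, 1, 0, 0, 0, 1], [0, 0, 0, 0, 0, 0, 0, 0, 0, 0, 0, 0, 0, 0, -1, 0, 0, 0, 0, 0, 1,
    0, 1, 0, 0, 0, 1, 0, -1, 0, 0, 0, -1, 0, -1, 0, 0, 0, 0, 0, 1], [0, 0, 0, 0, 0, 0, 0, 0, 0, 0,
    0, 0, 0, 0, 0, 0, -1, 0, 0, 0, 0, 0, 1, 0, 1, 0, 0, 0, 1, 0, -1, 0, 0, 0, -1, 0, -1, 0, 0, 0,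
    0, 0, 1], [0, 0, 0, 0, 0, 0, 0, 0, 0, 0, 0, 0, 0, 0, 0, 0, -1, 0, 0, 0, 0, 0, 1, 0, 1, 0, 0,
    0, 1, 0, -1, 0, 0, 0, -1, 0, -1, 0, 0, 0, 0, 0, 1], [], [0, 0, 0, 0, 0, 0, 0, 0, 0, 0, 0, 0,
    0, 0, 0, 0, 1, 0, -1, 0, 0, 0, -1, 0, 0, 0, 1, 0, -1, 0, 2, 0, -1, 0, 1, 0, 0, 0, -1, 0, 0, 0,
    -1, 0, 1], [], [], [], [], [], [], [], [], []],
   [[0, 0, 0, 0, 0, 0, 1, 0, 1, 0, 0, 0, 2, 0, 0, 0, 1, 0, 1], [0, 0, 0, 0, 0, 0, -1, 0, -1, 0,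
    -1, 0, -2, 0, 0, 0, -1, 0, 1, 0, 1, 0, 1, 0, 2, 0, 0, 0, 1], [0, 0, 0, 0, 0, 0, 0, 0, 0, 0, 0,
    0, -1, 0, -1, 0, -1, 0, -2, 0, 0, 0, -1, 0, 1, 0, 1, 0, 1, 0, 2, 0, 0, 0, 1], [0, 0, 0, 0, 0,
    0, 0, 0, 0, -1, 0, -1, 0, -1, 0, -2, 0, 0, 0, -1, 0, 1, 0, 1, 0, 1, 0, 2, 0, 0, 0, 1], [0, 0,
    0, 0, 0, 0, 0, 0, 0, 0, 1, 0, 1, 0, 1, 0, 0, 0, -1, 0, -1, 0, -2, 0, -1, 0, -1, 0, 0, 0, 1, 0,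
    1, 0, 1], [0, 0, 0, 0, 0, 0, 0, 0, 0, 0, 0, 0, 0, 0, 0, 0, 1, 0, 0, 0, 0, 0, 0, 0, -1, 0, 0,
    0, -1, 0, 0, 0, 0, 0, 0, 0, 1], [0, 0, 0, 0, 0, 0, 0, 0, 0, 0, 0, 0, 0, 1, 0, 0, 0, 0, 0, 0,
    0, -1, 0, 0, 0, -1, 0, 0, 0, 0, 0, 0, 0, 1], [0, 0, 0, 0, 0, 0, 0, 0, 0, 0, 0, 0, 0, 0, 0, 0,
    1, 0, 0, 0, 0, 0, 0, 0, -1, 0, 0, 0, -1, 0, 0, 0, 0, 0, 0, 0, 1], [], [0, 0, 0, 0, 0, 0, 0, 0,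
    0, 0, 0, 0, 0, 0, 0, 0, 0, 0, 1, 0, 0, 0, 1, 0, -1, 0, 0, 0, -1, 0, -1, 0, 0, 0, -1, 0, 1, 0,
    0, 0, 1], [0, 0, 0, 0, 0, 0, 0, 0, 0, 0, 0, 0, 0, 0, 0, 0, 1, 0, 0, 0, 1, 0, -1, 0, 0, 0, -1,
    0, -1, 0, 0, 0, -1, 0, 1, 0, 0, 0, 1], [], [0, 0, 0, 0, 0, 0, 0, 0, 0, 0, 0, 0, 0, 0, 0, 0,
    -1, 0, 0, 0, 0, 0, 1, 0, 1, 0, 0, 0, 1, 0, -1, 0, 0, 0, -1, 0, -1, 0, 0, 0, 0, 0, 1], [], [],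
    [], [0, 0, 0, 0, 0, 0, 0, 0, 0, 0, 0, 0, 0, 0, 0, 0, 1, 0, -1, 0, 0, 0, -1, 0, 0, 0, 1, 0, -1,
    0, 2, 0, -1, 0, 1, 0, 0, 0, -1, 0, 0, 0, -1, 0, 1], [], [], [], [], [], [], [], []],
   [[0, 0, 0, 0, 0, 0, 0, 0, 0, 0, 0, 0, 1], [], [0, 0, 0, 0, 0, 0, 0, 0, 0, 0, 0, 0, -1, 0, 0,
    0, -1, 0, 0, 0, 0, 0, 0, 0, 1, 0, 0, 0, 1], [0, 0, 0, 0, 0, 0, 0, 0, 0, 0, 0, 0, 0, 0, 0, -1,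
    0, 0, 0, -1, 0, 0, 0, 0, 0, 0, 0, 1, 0, 0, 0, 1], [], [], [], [0, 0, 0, 0, 0, 0, 0, 0, 0, 0,
    0, 0, 0, 0, 0, 0, 1, 0, 0, 0, 0, 0, 0, 0, -1, 0, 0, 0, -1, 0, 0, 0, 0, 0, 0, 0, 1], [], [],
    [], [], [], [0, 0, 0, 0, 0, 0, 0, 0, 0, 0, 0, 0, 0, 0, 0, 0, -1, 0, 0, 0, 0, 0, 1, 0, 1, 0, 0,
    0, 1, 0, -1, 0, 0, 0, -1, 0, -1, 0, 0, 0, 0, 0, 1], [], [], [], [0, 0, 0, 0, 0, 0, 0, 0, 0, 0,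
    0, 0, 0, 0, 0, 0, 1, 0, -1, 0, 0, 0, -1, 0, 0, 0, 1, 0, -1, 0, 2, 0, -1, 0, 1, 0, 0, 0, -1, 0,
    0, 0, -1, 0, 1], [], [], [], [], [], [], []],
   [[0, 0, 0, 1, 0, 1, 0, 1, 0, 2, 0, 1, 0, 1, 0, 1], [0, 0, 0, -1, 0, -1, 0, -2, 0, -3, 0, -2,
    0, -2, 0, 0, 0, 1, 0, 2, 0, 3, 0, 2, 0, 2, 0, 1], [0, 0, 0, 0, 0, 0, 0, 0, 0, -1, 0, -1, 0,
    -2, 0, -2, 0, -1, 0, -1, 0, 1, 0, 1, 0, 2, 0, 2, 0, 1, 0, 1], [0, 0, 0, 0, 0, 0, -1, 0, -1, 0,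
    -2, 0, -2, 0, -1, 0, -1, 0, 1, 0, 1, 0, 2, 0, 2, 0, 1, 0, 1], [0, 0, 0, 0, 0, 0, 0, 1, 0, 2,
    0, 3, 0, 2, 0, 0, 0, -2, 0, -4, 0, -4, 0, -4, 0, -2, 0, 0, 0, 2, 0, 3, 0, 2, 0, 1], [0, 0, 0,
    0, 0, 0, 0, 0, 0, 0, 0, 0, 0, 2, 0, 1, 0, 1, 0, 0, 0, -2, 0, -1, 0, -3, 0, -1, 0, -1, 0, 0, 0,
    2, 0, 1, 0, 1], [0, 0, 0, 0, 0, 0, 0, 0, 0, 0, 1, 0, 1, 0, 1, 0, 1, 0, -1, 0, -1, 0, -2, 0,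
    -2, 0, -1, 0, -1, 0, 1, 0, 1, 0, 1, 0, 1], [0, 0, 0, 0, 0, 0, 0, 0, 0, 0, 0, 0, 0, 1, 0, 0, 0,
    0, 0, 0, 0, -1, 0, 0, 0, -1, 0, 0, 0, 0, 0, 0, 0, 1], [0, 0, 0, 0, 0, 0, 0, 0, 0, 0, 0, -1, 0,
    -1, 0, 0, 0, 1, 0, 2, 0, 1, 0, 1, 0, 0, 0, -1, 0, -1, 0, -2, 0, -1, 0, 0, 0, 1, 0, 1], [0, 0,
    0, 0, 0, 0, 0, 0, 0, 0, 0, 0, 0, 0, 0, 0, 0, 1, 0, 1, 0, 1, 0, 0, 0, -1, 0, -1, 0, -2, 0, -1,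
    0, -1, 0, 0, 0, 1, 0, 1, 0, 1], [0, 0, 0, 0, 0, 0, 0, 0, 0, 0, 0, 0, 0, 0, 0, 1, 0, 1, 0, 1,
    0, 0, 0, -1, 0, -1, 0, -2, 0, -1, 0, -1, 0, 0, 0, 1, 0, 1, 0, 1], [0, 0, 0, 0, 0, 0, 0, 0, 0,
    0, 0, 0, 0, -1, 0, 0, 0, 0, 0, 1, 0, 1, 0, 0, 0, 1, 0, -1, 0, 0, 0, -1, 0, -1, 0, 0, 0, 0, 0,
    1], [0, 0, 0, 0, 0, 0, 0, 0, 0, 0, 0, 0, 0, 0, 0, -1, 0, 0, 0, 0, 0, 1, 0, 1, 0, 0, 0, 1, 0,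
    -1, 0, 0, 0, -1, 0, -1, 0, 0, 0, 0, 0, 1], [], [0, 0, 0, 0, 0, 0, 0, 0, 0, 0, 0, 0, 0, 0, 0,
    1, 0, -1, 0, 0, 0, -1, 0, 0, 0, 1, 0, -1, 0, 2, 0, -1, 0, 1, 0, 0, 0, -1, 0, 0, 0, -1, 0, 1],
    [], [], [], [0, 0, 0, 0, 0, 0, 0, 0, 0, 0, 0, 0, 0, 0, 0, 0, 0, 0, 0, -1, 0, 0, 0, 0, 0, 1, 0,
    1, 0, 0, 0, 1, 0, -1, 0, 0, 0, -1, 0, -1, 0, 0, 0, 0, 0, 1], [], [], [], [], [], []],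
   [[0, 0, 0, 1, 0, 1, 0, 1, 0, 2, 0, 1, 0, 1, 0, 1], [0, 0, 0, -1, 0, -1, 0, -2, 0, -2, 0, -1,
    0, -1, 0, 1, 0, 1, 0, 2, 0, 2, 0, 1, 0, 1], [0, 0, 0, 0, 0, 0, 0, 0, 0, -2, 0, -2, 0, -3, 0,
    -3, 0, -1, 0, -1, 0, 2, 0, 2, 0, 3, 0, 3, 0, 1, 0, 1], [0, 0, 0, 0, 0, 0, -1, 0, -1, 0, -2, 0,
    -3, 0, -2, 0, -2, 0, 0, 0, 1, 0, 2, 0, 3, 0, 2, 0, 2, 0, 1], [0, 0, 0, 0, 0, 0, 0, 1, 0, 2, 0,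
    3, 0, 2, 0, 0, 0, -2, 0, -4, 0, -4, 0, -4, 0, -2, 0, 0, 0, 2, 0, 3, 0, 2, 0, 1], [0, 0, 0, 0,
    0, 0, 0, 0, 0, 0, 0, 0, 0, 1, 0, 0, 0, 0, 0, 0, 0, -1, 0, 0, 0, -1, 0, 0, 0, 0, 0, 0, 0, 1],
    [0, 0, 0, 0, 0, 0, 0, 0, 0, 0, 1, 0, 0, 0, 0, 0, 0, 0, -1, 0, 0, 0, -1, 0, 0, 0, 0, 0, 0, 0,
    1], [0, 0, 0, 0, 0, 0, 0, 0, 0, 0, 0, 0, 0, 2, 0, 1, 0, 1, 0, 0, 0, -2, 0, -1, 0, -3, 0, -1,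
    0, -1, 0, 0, 0, 2, 0, 1, 0, 1], [0, 0, 0, 0, 0, 0, 0, 0, 0, 0, 0, -1, 0, 0, 0, 0, 0, 1, 0, 1,
    0, 0, 0, 1, 0, -1, 0, 0, 0, -1, 0, -1, 0, 0, 0, 0, 0, 1], [0, 0, 0, 0, 0, 0, 0, 0, 0, 0, 0, 0,
    0, 0, 0, 1, 0, 1, 0, 1, 0, 0, 0, -1, 0, -1, 0, -2, 0, -1, 0, -1, 0, 0, 0, 1, 0, 1, 0, 1], [0,
    0, 0, 0, 0, 0, 0, 0, 0, 0, 0, 0, 0, 0, 0, 1, 0, 1, 0, 1, 0, 0, 0, -1, 0, -1, 0, -2, 0, -1, 0,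
    -1, 0, 0, 0, 1, 0, 1, 0, 1], [0, 0, 0, 0, 0, 0, 0, 0, 0, 0, 0, 0, 0, -2, 0, 0, 0, 0, 0, 2, 0,
    2, 0, 0, 0, 2, 0, -2, 0, 0, 0, -2, 0, -2, 0, 0, 0, 0, 0, 2], [0, 0, 0, 0, 0, 0, 0, 0, 0, 0, 0,
    0, 0, 0, 0, -2, 0, 0, 0, 0, 0, 2, 0, 2, 0, 0, 0, 2, 0, -2, 0, 0, 0, -2, 0, -2, 0, 0, 0, 0, 0,
    2], [0, 0, 0, 0, 0, 0, 0, 0, 0, 0, 0, 0, 0, 0, 0, -1, 0, 0, 0, 0, 0, 1, 0, 1, 0, 0, 0, 1, 0,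
    -1, 0, 0, 0, -1, 0, -1, 0, 0, 0, 0, 0, 1], [0, 0, 0, 0, 0, 0, 0, 0, 0, 0, 0, 0, 0, 0, 0, 1, 0,
    -1, 0, 0, 0, -1, 0, 0, 0, 1, 0, -1, 0, 2, 0, -1, 0, 1, 0, 0, 0, -1, 0, 0, 0, -1, 0, 1], [0, 0,
    0, 0, 0, 0, 0, 0, 0, 0, 0, 0, 0, 0, 0, 1, 0, -1, 0, 0, 0, -1, 0, 0, 0, 1, 0, -1, 0, 2, 0, -1,
    0, 1, 0, 0, 0, -1, 0, 0, 0, -1, 0, 1], [], [], [], [0, 0, 0, 0, 0, 0, 0, 0, 0, 0, 0, 0, 0, 0,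
    0, 0, 0, 0, 0, -1, 0, 0, 0, 0, 0, 1, 0, 1, 0, 0, 0, 1, 0, -1, 0, 0, 0, -1, 0, -1, 0, 0, 0, 0,
    0, 1], [], [], [], [], []],
   [[0, 0, 1, 0, 1, 0, 2, 0, 1, 0, 2, 0, 1, 0, 1], [0, 0, -1, 0, -1, 0, -3, 0, -2, 0, -3, 0, -1,
    0, 0, 0, 1, 0, 3, 0, 2, 0, 3, 0, 1, 0, 1], [0, 0, 0, 0, 0, 0, 0, 0, -1, 0, -2, 0, -3, 0, -3,
    0, -2, 0, -1, 0, 1, 0, 2, 0, 3, 0, 3, 0, 2, 0, 1], [0, 0, 0, 0, 0, -1, 0, -1, 0, -3, 0, -2, 0,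
    -3, 0, -1, 0, 0, 0, 1, 0, 3, 0, 2, 0, 3, 0, 1, 0, 1], [0, 0, 0, 0, 0, 0, 1, 0, 2, 0, 4, 0, 3,
    0, 1, 0, -2, 0, -5, 0, -5, 0, -6, 0, -3, 0, -1, 0, 2, 0, 4, 0, 3, 0, 2], [0, 0, 0, 0, 0, 0, 0,
    0, 0, 0, 0, 0, 1, 0, 1, 0, 1, 0, 0, 0, -1, 0, -1, 0, -2, 0, -1, 0, -1, 0, 0, 0, 1, 0, 1, 0,
    1], [0, 0, 0, 0, 0, 0, 0, 0, 0, 1, 0, 1, 0, 1, 0, 0, 0, -1, 0, -1, 0, -2, 0, -1, 0, -1, 0, 0,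
    0, 1, 0, 1, 0, 1], [0, 0, 0, 0, 0, 0, 0, 0, 0, 0, 0, 0, 1, 0, 1, 0, 1, 0, 0, 0, -1, 0, -1, 0,
    -2, 0, -1, 0, -1, 0, 0, 0, 1, 0, 1, 0, 1], [0, 0, 0, 0, 0, 0, 0, 0, 0, 0, -1, 0, -1, 0, 0, 0,
    1, 0, 2, 0, 1, 0, 1, 0, 0, 0, -1, 0, -1, 0, -2, 0, -1, 0, 0, 0, 1, 0, 1], [0, 0, 0, 0, 0, 0,
    0, 0, 0, 0, 0, 0, 0, 0, 0, 0, 2, 0, 1, 0, 2, 0, -1, 0, -1, 0, -2, 0, -3, 0, -1, 0, -2, 0, 1,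
    0, 1, 0, 2, 0, 1], [0, 0, 0, 0, 0, 0, 0, 0, 0, 0, 0, 0, 0, 0, 1, 0, 1, 0, 2, 0, 0, 0, 0, 0,
    -2, 0, -2, 0, -2, 0, -2, 0, 0, 0, 0, 0, 2, 0, 1, 0, 1], [0, 0, 0, 0, 0, 0, 0, 0, 0, 0, 0, 0,
    -1, 0, -1, 0, 0, 0, 1, 0, 2, 0, 1, 0, 1, 0, 0, 0, -1, 0, -1, 0, -2, 0, -1, 0, 0, 0, 1, 0, 1],
    [0, 0, 0, 0, 0, 0, 0, 0, 0, 0, 0, 0, 0, 0, -1, 0, -1, 0, 0, 0, 1, 0, 2, 0, 1, 0, 1, 0, 0, 0,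
    -1, 0, -1, 0, -2, 0, -1, 0, 0, 0, 1, 0, 1], [], [0, 0, 0, 0, 0, 0, 0, 0, 0, 0, 0, 0, 0, 0, 1,
    0, -1, 0, 0, 0, -1, 0, 0, 0, 1, 0, -1, 0, 2, 0, -1, 0, 1, 0, 0, 0, -1, 0, 0, 0, -1, 0, 1], [],
    [], [], [0, 0, 0, 0, 0, 0, 0, 0, 0, 0, 0, 0, 0, 0, 0, 0, 0, 0, -1, 0, 0, 0, 0, 0, 1, 0, 1, 0,
    0, 0, 1, 0, -1, 0, 0, 0, -1, 0, -1, 0, 0, 0, 0, 0, 1], [0, 0, 0, 0, 0, 0, 0, 0, 0, 0, 0, 0, 0,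
    0, 0, 0, 0, 0, -1, 0, 0, 0, 0, 0, 1, 0, 1, 0, 0, 0, 1, 0, -1, 0, 0, 0, -1, 0, -1, 0, 0, 0, 0,
    0, 1], [0, 0, 0, 0, 0, 0, 0, 0, 0, 0, 0, 0, 0, 0, 0, 0, 0, 0, 1, 0, -1, 0, 0, 0, -1, 0, 0, 0,
    1, 0, -1, 0, 2, 0, -1, 0, 1, 0, 0, 0, -1, 0, 0, 0, -1, 0, 1], [], [], [], []],
   [[0, 0, 0, 0, 1, 0, 0, 0, 1], [0, 0, 0, 0, -1, 0, 0, 0, -2, 0, 0, 0, -1, 0, 0, 0, 1, 0, 0, 0,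
    2, 0, 0, 0, 1], [0, 0, 0, 0, 0, 0, 0, 0, 0, 0, -1, 0, 0, 0, -1, 0, 0, 0, 0, 0, 0, 0, 1, 0, 0,
    0, 1], [0, 0, 0, 0, 0, 0, 0, -1, 0, 0, 0, -1, 0, 0, 0, 0, 0, 0, 0, 1, 0, 0, 0, 1], [0, 0, 0,
    0, 0, 0, 0, 0, 1, 0, 1, 0, 1, 0, 0, 0, -1, 0, -1, 0, -2, 0, -1, 0, -1, 0, 0, 0, 1, 0, 1, 0,
    1], [0, 0, 0, 0, 0, 0, 0, 0, 0, 0, 0, 0, 1, 0, 1, 0, 0, 0, 0, 0, -1, 0, -1, 0, -1, 0, -1, 0,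
    0, 0, 0, 0, 1, 0, 1], [0, 0, 0, 0, 0, 0, 0, 0, 0, 0, 0, 1, 0, 0, 0, 1, 0, 0, 0, -1, 0, 0, 0,
    -2, 0, 0, 0, -1, 0, 0, 0, 1, 0, 0, 0, 1], [], [0, 0, 0, 0, 0, 0, 0, 0, 0, 0, 0, 0, -1, 0, 0,
    0, 0, 0, 1, 0, 1, 0, 0, 0, 1, 0, -1, 0, 0, 0, -1, 0, -1, 0, 0, 0, 0, 0, 1], [0, 0, 0, 0, 0, 0,
    0, 0, 0, 0, 0, 0, 0, 0, 0, 0, 0, 0, 1, 0, 0, 0, 1, 0, -1, 0, 0, 0, -1, 0, -1, 0, 0, 0, -1, 0,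
    1, 0, 0, 0, 1], [0, 0, 0, 0, 0, 0, 0, 0, 0, 0, 0, 0, 0, 0, 0, 0, 1, 0, 0, 0, 1, 0, -1, 0, 0,
    0, -1, 0, -1, 0, 0, 0, -1, 0, 1, 0, 0, 0, 1], [], [], [], [], [], [], [], [0, 0, 0, 0, 0, 0,
    0, 0, 0, 0, 0, 0, 0, 0, 0, 0, 0, 0, -1, 0, 0, 0, 0, 0, 1, 0, 1, 0, 0, 0, 1, 0, -1, 0, 0, 0,
    -1, 0, -1, 0, 0, 0, 0, 0, 1], [], [], [0, 0, 0, 0, 0, 0, 0, 0, 0, 0, 0, 0, 0, 0, 0, 0, 0, 0,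
    1, 0, -1, 0, 0, 0, -1, 0, 0, 0, 1, 0, -1, 0, 2, 0, -1, 0, 1, 0, 0, 0, -1, 0, 0, 0, -1, 0, 1],
    [], [], []],
   [[0, 1, 0, 0, 0, 1, 0, 1, 0, 0, 0, 1], [0, -1, 0, 0, 0, -2, 0, -1, 0, -1, 0, -1, 0, 1, 0, 0,
    0, 2, 0, 1, 0, 1, 0, 1], [0, 0, 0, 0, 0, 0, 0, -1, 0, 0, 0, -2, 0, -1, 0, -1, 0, -1, 0, 1, 0,
    0, 0, 2, 0, 1, 0, 1, 0, 1], [0, 0, 0, 0, -1, 0, 0, 0, -2, 0, -1, 0, -1, 0, -1, 0, 1, 0, 0, 0,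
    2, 0, 1, 0, 1, 0, 1], [0, 0, 0, 0, 0, 1, 0, 1, 0, 2, 0, 1, 0, 0, 0, -1, 0, -3, 0, -2, 0, -3,
    0, -1, 0, 0, 0, 1, 0, 2, 0, 1, 0, 1], [0, 0, 0, 0, 0, 0, 0, 0, 0, 0, 0, 1, 0, 0, 0, 1, 0, 0,
    0, -1, 0, 0, 0, -2, 0, 0, 0, -1, 0, 0, 0, 1, 0, 0, 0, 1], [0, 0, 0, 0, 0, 0, 0, 0, 1, 0, 0, 0,
    1, 0, 0, 0, -1, 0, 0, 0, -2, 0, 0, 0, -1, 0, 0, 0, 1, 0, 0, 0, 1], [0, 0, 0, 0, 0, 0, 0, 0, 0,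
    0, 0, 1, 0, 0, 0, 1, 0, 0, 0, -1, 0, 0, 0, -2, 0, 0, 0, -1, 0, 0, 0, 1, 0, 0, 0, 1], [0, 0, 0,
    0, 0, 0, 0, 0, 0, -1, 0, 0, 0, 0, 0, 1, 0, 1, 0, 0, 0, 1, 0, -1, 0, 0, 0, -1, 0, -1, 0, 0, 0,
    0, 0, 1], [0, 0, 0, 0, 0, 0, 0, 0, 0, 0, 0, 0, 0, 0, 0, 1, 0, 1, 0, 1, 0, 0, 0, -1, 0, -1, 0,
    -2, 0, -1, 0, -1, 0, 0, 0, 1, 0, 1, 0, 1], [0, 0, 0, 0, 0, 0, 0, 0, 0, 0, 0, 0, 0, 1, 0, 1, 0,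
    1, 0, 0, 0, -1, 0, -1, 0, -2, 0, -1, 0, -1, 0, 0, 0, 1, 0, 1, 0, 1], [0, 0, 0, 0, 0, 0, 0, 0,
    0, 0, 0, -1, 0, 0, 0, 0, 0, 1, 0, 1, 0, 0, 0, 1, 0, -1, 0, 0, 0, -1, 0, -1, 0, 0, 0, 0, 0, 1],
    [0, 0, 0, 0, 0, 0, 0, 0, 0, 0, 0, 0, 0, -1, 0, -1, 0, 0, 0, 1, 0, 2, 0, 1, 0, 1, 0, 0, 0, -1,
    0, -1, 0, -2, 0, -1, 0, 0, 0, 1, 0, 1], [], [0, 0, 0, 0, 0, 0, 0, 0, 0, 0, 0, 0, 0, 1, 0, -1,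
    0, 0, 0, -1, 0, 0, 0, 1, 0, -1, 0, 2, 0, -1, 0, 1, 0, 0, 0, -1, 0, 0, 0, -1, 0, 1], [], [0, 0,
    0, 0, 0, 0, 0, 0, 0, 0, 0, 0, 0, 0, 0, 1, 0, -1, 0, 0, 0, -1, 0, 0, 0, 1, 0, -1, 0, 2, 0, -1,
    0, 1, 0, 0, 0, -1, 0, 0, 0, -1, 0, 1], [], [0, 0, 0, 0, 0, 0, 0, 0, 0, 0, 0, 0, 0, 0, 0, 0, 0,
    -1, 0, 0, 0, 0, 0, 1, 0, 1, 0, 0, 0, 1, 0, -1, 0, 0, 0, -1, 0, -1, 0, 0, 0, 0, 0, 1], [0, 0,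
    0, 0, 0, 0, 0, 0, 0, 0, 0, 0, 0, 0, 0, 0, 0, -1, 0, 0, 0, 0, 0, 1, 0, 1, 0, 0, 0, 1, 0, -1, 0,
    0, 0, -1, 0, -1, 0, 0, 0, 0, 0, 1], [0, 0, 0, 0, 0, 0, 0, 0, 0, 0, 0, 0, 0, 0, 0, 0, 0, 1, 0,
    -1, 0, 0, 0, -1, 0, 0, 0, 1, 0, -1, 0, 2, 0, -1, 0, 1, 0, 0, 0, -1, 0, 0, 0, -1, 0, 1], [],
    [0, 0, 0, 0, 0, 0, 0, 0, 0, 0, 0, 0, 0, 0, 0, 0, 0, 0, 0, 1, 0, -1, 0, 0, 0, -1, 0, 0, 0, 1,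
    0, -1, 0, 2, 0, -1, 0, 1, 0, 0, 0, -1, 0, 0, 0, -1, 0, 1], [], []],
   [[0, 0, 0, 0, 1, 0, 0, 0, 1], [0, 0, 0, 0, -1, 0, 0, 0, -1, 0, 0, 0, 0, 0, 0, 0, 1, 0, 0, 0,
    1], [0, 0, 0, 0, 0, 0, 0, 0, -1, 0, -1, 0, -1, 0, -1, 0, 0, 0, 0, 0, 1, 0, 1, 0, 1, 0, 1], [0,
    0, 0, 0, 0, 0, 0, -1, 0, 0, 0, -2, 0, 0, 0, -1, 0, 0, 0, 1, 0, 0, 0, 2, 0, 0, 0, 1], [0, 0, 0,
    0, 0, 0, 0, 0, 1, 0, 1, 0, 1, 0, 0, 0, -1, 0, -1, 0, -2, 0, -1, 0, -1, 0, 0, 0, 1, 0, 1, 0,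
    1], [], [], [0, 0, 0, 0, 0, 0, 0, 0, 0, 0, 0, 0, 1, 0, 1, 0, 0, 0, 0, 0, -1, 0, -1, 0, -1, 0,
    -1, 0, 0, 0, 0, 0, 1, 0, 1], [], [0, 0, 0, 0, 0, 0, 0, 0, 0, 0, 0, 0, 0, 0, 1, 0, 0, 0, 1, 0,
    -1, 0, 0, 0, -1, 0, -1, 0, 0, 0, -1, 0, 1, 0, 0, 0, 1], [0, 0, 0, 0, 0, 0, 0, 0, 0, 0, 0, 0,
    0, 0, 0, 0, 1, 0, 0, 0, 1, 0, -1, 0, 0, 0, -1, 0, -1, 0, 0, 0, -1, 0, 1, 0, 0, 0, 1], [0, 0,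
    0, 0, 0, 0, 0, 0, 0, 0, 0, 0, -1, 0, 0, 0, 0, 0, 1, 0, 1, 0, 0, 0, 1, 0, -1, 0, 0, 0, -1, 0,
    -1, 0, 0, 0, 0, 0, 1], [0, 0, 0, 0, 0, 0, 0, 0, 0, 0, 0, 0, 0, 0, -1, 0, 0, 0, 0, 0, 1, 0, 1,
    0, 0, 0, 1, 0, -1, 0, 0, 0, -1, 0, -1, 0, 0, 0, 0, 0, 1], [0, 0, 0, 0, 0, 0, 0, 0, 0, 0, 0, 0,
    0, 0, -1, 0, 0, 0, 0, 0, 1, 0, 1, 0, 0, 0, 1, 0, -1, 0, 0, 0, -1, 0, -1, 0, 0, 0, 0, 0, 1],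
    [], [0, 0, 0, 0, 0, 0, 0, 0, 0, 0, 0, 0, 0, 0, 1, 0, -1, 0, 0, 0, -1, 0, 0, 0, 1, 0, -1, 0, 2,
    0, -1, 0, 1, 0, 0, 0, -1, 0, 0, 0, -1, 0, 1], [], [], [], [0, 0, 0, 0, 0, 0, 0, 0, 0, 0, 0, 0,
    0, 0, 0, 0, 0, 0, -1, 0, 0, 0, 0, 0, 1, 0, 1, 0, 0, 0, 1, 0, -1, 0, 0, 0, -1, 0, -1, 0, 0, 0,
    0, 0, 1], [], [], [], [0, 0, 0, 0, 0, 0, 0, 0, 0, 0, 0, 0, 0, 0, 0, 0, 0, 0, 0, 1, 0, -1, 0,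
    0, 0, -1, 0, 0, 0, 1, 0, -1, 0, 2, 0, -1, 0, 1, 0, 0, 0, -1, 0, 0, 0, -1, 0, 1], []],
   [[1], [-1, 0, 0, 0, -1, 0, 0, 0, 0, 0, 0, 0, 1, 0, 0, 0, 1], [0, 0, 0, 0, 0, 0, -1, 0, 0, 0,
    -1, 0, 0, 0, 0, 0, 0, 0, 1, 0, 0, 0, 1], [0, 0, 0, -1, 0, 0, 0, -1, 0, 0, 0, 0, 0, 0, 0, 1, 0,
    0, 0, 1], [0, 0, 0, 0, 1, 0, 1, 0, 1, 0, 0, 0, -1, 0, -1, 0, -2, 0, -1, 0, -1, 0, 0, 0, 1, 0,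
    1, 0, 1], [0, 0, 0, 0, 0, 0, 0, 0, 0, 0, 1, 0, 0, 0, 0, 0, 0, 0, -1, 0, 0, 0, -1, 0, 0, 0, 0,
    0, 0, 0, 1], [0, 0, 0, 0, 0, 0, 0, 1, 0, 0, 0, 0, 0, 0, 0, -1, 0, 0, 0, -1, 0, 0, 0, 0, 0, 0,
    0, 1], [0, 0, 0, 0, 0, 0, 0, 0, 0, 0, 1, 0, 0, 0, 0, 0, 0, 0, -1, 0, 0, 0, -1, 0, 0, 0, 0, 0,
    0, 0, 1], [0, 0, 0, 0, 0, 0, 0, 0, -1, 0, 0, 0, 0, 0, 1, 0, 1, 0, 0, 0, 1, 0, -1, 0, 0, 0, -1,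
    0, -1, 0, 0, 0, 0, 0, 1], [0, 0, 0, 0, 0, 0, 0, 0, 0, 0, 0, 0, 0, 0, 1, 0, 0, 0, 1, 0, -1, 0,
    0, 0, -1, 0, -1, 0, 0, 0, -1, 0, 1, 0, 0, 0, 1], [0, 0, 0, 0, 0, 0, 0, 0, 0, 0, 0, 0, 1, 0, 0,
    0, 1, 0, -1, 0, 0, 0, -1, 0, -1, 0, 0, 0, -1, 0, 1, 0, 0, 0, 1], [0, 0, 0, 0, 0, 0, 0, 0, 0,
    0, -1, 0, 0, 0, 0, 0, 1, 0, 1, 0, 0, 0, 1, 0, -1, 0, 0, 0, -1, 0, -1, 0, 0, 0, 0, 0, 1], [0,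
    0, 0, 0, 0, 0, 0, 0, 0, 0, 0, 0, -1, 0, 0, 0, 0, 0, 1, 0, 1, 0, 0, 0, 1, 0, -1, 0, 0, 0, -1,
    0, -1, 0, 0, 0, 0, 0, 1], [], [0, 0, 0, 0, 0, 0, 0, 0, 0, 0, 0, 0, 1, 0, -1, 0, 0, 0, -1, 0,
    0, 0, 1, 0, -1, 0, 2, 0, -1, 0, 1, 0, 0, 0, -1, 0, 0, 0, -1, 0, 1], [], [], [], [0, 0, 0, 0,
    0, 0, 0, 0, 0, 0, 0, 0, 0, 0, 0, 0, -1, 0, 0, 0, 0, 0, 1, 0, 1, 0, 0, 0, 1, 0, -1, 0, 0, 0,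
    -1, 0, -1, 0, 0, 0, 0, 0, 1], [0, 0, 0, 0, 0, 0, 0, 0, 0, 0, 0, 0, 0, 0, 0, 0, -1, 0, 0, 0, 0,
    0, 1, 0, 1, 0, 0, 0, 1, 0, -1, 0, 0, 0, -1, 0, -1, 0, 0, 0, 0, 0, 1], [0, 0, 0, 0, 0, 0, 0, 0,
    0, 0, 0, 0, 0, 0, 0, 0, 1, 0, -1, 0, 0, 0, -1, 0, 0, 0, 1, 0, -1, 0, 2, 0, -1, 0, 1, 0, 0, 0,
    -1, 0, 0, 0, -1, 0, 1], [], [0, 0, 0, 0, 0, 0, 0, 0, 0, 0, 0, 0, 0, 0, 0, 0, 0, 0, 1, 0, -1,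
    0, 0, 0, -1, 0, 0, 0, 1, 0, -1, 0, 2, 0, -1, 0, 1, 0, 0, 0, -1, 0, 0, 0, -1, 0, 1], [], [0, 0,
    0, 0, 0, 0, 0, 0, 0, 0, 0, 0, 0, 0, 0, 0, 0, 0, 0, 0, 1, 0, -1, 0, 0, 0, -1, 0, 0, 0, 1, 0,
    -1, 0, 2, 0, -1, 0, 1, 0, 0, 0, -1, 0, 0, 0, -1, 0, 1]]]


/-- the sum over the classes -/
def classSum (x y : List ℤ) : List ℤ → List (List ℤ) → List ℤ
  | [], _ => []
  | _ :: _, [] => []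
  | n :: s, g :: t => padd (psmul (n * x.headD 0 * y.headD 0) g) (classSum x.tail y.tail s t)

/-- the check of the entry `i j` of `P Λ` -/
def chkP (i j : ℕ) : Bool :=
  isZ (padd (pdot (lamT.getD j []) (pT.getD i [])) (psmul (-1) ((plT.getD i []).getD j [])))

/-- the check of the entry `i j` of `P Λ Pᵗ` -/
def chkL (i j : ℕ) : Bool :=
  isZ (padd (psmul 1152 (pdot (pT.getD j []) (plT.getD i [])))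
    (psmul (-1) (List.replicate 24 0 ++
      classSum (charT.getD i []) (charT.getD j []) sizes cofT)))

/-- the check of a row -/
def chkR (i : ℕ) : Bool := (List.range 25).all fun j => chkL i j

theorem det_cof : ((List.range 25).all fun c =>
    isZ (padd (pmul (detT.getD c []) (cofT.getD c [])) (psmul (-1) numT))) = true := by
  decide +kernel

/-- the check of a row -/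
def chkQ (i : ℕ) : Bool := (List.range 25).all fun j => chkP i j

theorem chkQ0 : chkQ 0 = true := by decide +kernel
theorem chkQ1 : chkQ 1 = true := by decide +kernel
theorem chkQ2 : chkQ 2 = true := by decide +kernel
theorem chkQ3 : chkQ 3 = true := by decide +kernel
theorem chkQ4 : chkQ 4 = true := by decide +kernel
theorem chkQ5 : chkQ 5 = true := by decide +kernel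
theorem chkQ6 : chkQ 6 = true := by decide +kernel
theorem chkQ7 : chkQ 7 = true := by decide +kernel
theorem chkQ8 : chkQ 8 = true := by decide +kernel
theorem chkQ9 : chkQ 9 = true := by decide +kernel
theorem chkQ10 : chkQ 10 = true := by decide +kernel
theorem chkQ11 : chkQ 11 = true := by decide +kernel
theorem chkQ12 : chkQ 12 = true := by decide +kernel
theorem chkQ13 : chkQ 13 = true := by decide +kernel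
theorem chkQ14 : chkQ 14 = true := by decide +kernel
theorem chkQ15 : chkQ 15 = true := by decide +kernel
theorem chkQ16 : chkQ 16 = true := by decide +kernel
theorem chkQ17 : chkQ 17 = true := by decide +kernel
theorem chkQ18 : chkQ 18 = true := by decide +kernel
theorem chkQ19 : chkQ 19 = true := by decide +kernel
theorem chkQ20 : chkQ 20 = true := by decide +kernel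
theorem chkQ21 : chkQ 21 = true := by decide +kernel
theorem chkQ22 : chkQ 22 = true := by decide +kernel
theorem chkQ23 : chkQ 23 = true := by decide +kernel
theorem chkQ24 : chkQ 24 = true := by decide +kernel

theorem chkP_all (i j : Fin 25) : chkP i j = true := by
  have h : ∀ i : Fin 25, chkQ i = true := by
    intro i
    fin_cases i
    · exact chkQ0
    · exact chkQ1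
    · exact chkQ2
    · exact chkQ3
    · exact chkQ4
    · exact chkQ5
    · exact chkQ6
    · exact chkQ7
    · exact chkQ8
    · exact chkQ9
    · exact chkQ10
    · exact chkQ11
    · exact chkQ12
    · exact chkQ13
    · exact chkQ14
    · exact chkQ15
    · exact chkQ16
    · exact chkQ17
    · exact chkQ18
    · exact chkQ19
    · exact chkQ20
    · exact chkQ21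
    · exact chkQ22
    · exact chkQ23
    · exact chkQ24
  exact List.all_eq_true.1 (h i) j (List.mem_range.2 j.2)

theorem chkR0 : chkR 0 = true := by decide +kernel
theorem chkR1 : chkR 1 = true := by decide +kernel
theorem chkR2 : chkR 2 = true := by decide +kernel
theorem chkR3 : chkR 3 = true := by decide +kernel
theorem chkR4 : chkR 4 = true := by decide +kernel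
theorem chkR5 : chkR 5 = true := by decide +kernel
theorem chkR6 : chkR 6 = true := by decide +kernel
theorem chkR7 : chkR 7 = true := by decide +kernel
theorem chkR8 : chkR 8 = true := by decide +kernel
theorem chkR9 : chkR 9 = true := by decide +kernel
theorem chkR10 : chkR 10 = true := by decide +kernel
theorem chkR11 : chkR 11 = true := by decide +kernel
theorem chkR12 : chkR 12 = true := by decide +kernel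
theorem chkR13 : chkR 13 = true := by decide +kernel
theorem chkR14 : chkR 14 = true := by decide +kernel
theorem chkR15 : chkR 15 = true := by decide +kernel
theorem chkR16 : chkR 16 = true := by decide +kernel
theorem chkR17 : chkR 17 = true := by decide +kernel
theorem chkR18 : chkR 18 = true := by decide +kernel
theorem chkR19 : chkR 19 = true := by decide +kernel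
theorem chkR20 : chkR 20 = true := by decide +kernel
theorem chkR21 : chkR 21 = true := by decide +kernel
theorem chkR22 : chkR 22 = true := by decide +kernel
theorem chkR23 : chkR 23 = true := by decide +kernel
theorem chkR24 : chkR 24 = true := by decide +kernel

theorem chkL_all (i j : Fin 25) : chkL i j = true := by
  have h : ∀ i : Fin 25, chkR i = true := by
    intro i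
    fin_cases i
    · exact chkR0
    · exact chkR1
    · exact chkR2
    · exact chkR3
    · exact chkR4
    · exact chkR5
    · exact chkR6
    · exact chkR7
    · exact chkR8
    · exact chkR9
    · exact chkR10
    · exact chkR11
    · exact chkR12
    · exact chkR13
    · exact chkR14
    · exact chkR15
    · exact chkR16
    · exact chkR17
    · exact chkR18
    · exact chkR19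
    · exact chkR20
    · exact chkR21
    · exact chkR22
    · exact chkR23
    · exact chkR24
  exact List.all_eq_true.1 (h i) j (List.mem_range.2 j.2)

end Pool.Agent.Lib.MP_eacc3c_al
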