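import Pool.Agent.Lib.MP_eacc3c_al.Defs
import Pool.Agent.Lib.MP_eacc3c_al.Data

/-!
# The right hand side of the orthogonality relations
-/

open scoped Matrix

namespace Pool.Agent.Lib.MP_eacc3c_al

/-! ### Invariants of the elements -/

theorem labOf_lt {f : Fr} (hf : f ∈ frames) : labOf f < 25 :=
  labs_lt _ (by rw [← labs_eq]; exact List.mem_map_of_mem hf)

/-- the invariants of a class -/
def inv7 (c : ℕ) : ℤ × ℤ × ℤ × ℤ × ℤ × ℤ × ℤ := invT.getD c (0, 0, 0, 0, 0, 0, 0)

theorem invI_eq {f : Fr} (hf : f ∈ frames) : invI f = inv7 (labOf f) := by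
  have hlt : labOf f < invT.length := labOf_lt hf
  unfold inv7 labOf
  unfold labOf at hlt
  have h := List.findIdx_getElem (w := hlt)
  rw [List.getD_eq_getElem _ _ hlt]
  exact (beq_iff_eq.1 h).symm

theorem det_toMat (f : Fr) (q : ℚ) : (Matrix.scalar (Fin 4) q - toMat f).det =
    q ^ 4 - (((invI f).1 : ℤ) : ℚ) / 2 * q ^ 3 + (((invI f).2.2.2.2.1 : ℤ) : ℚ) / 4 * q ^ 2 -
      (((invI f).2.2.2.2.2.1 : ℤ) : ℚ) / 8 * q + (((invI f).2.2.2.2.2.2 : ℤ) : ℚ) / 16 := by
  obtain ⟨⟨a, e, i, m⟩, ⟨b, g, j, n⟩, ⟨c, h, k, p⟩, ⟨d, l, o, r⟩⟩ := f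
  have hM : Matrix.scalar (Fin 4) q - toMat ((a, e, i, m), (b, g, j, n), (c, h, k, p), (d, l, o, r)) =
      !![q - (a : ℚ) / 2, - (b : ℚ) / 2, - (c : ℚ) / 2, - (d : ℚ) / 2;
        - (e : ℚ) / 2, q - (g : ℚ) / 2, - (h : ℚ) / 2, - (l : ℚ) / 2;
        - (i : ℚ) / 2, - (j : ℚ) / 2, q - (k : ℚ) / 2, - (o : ℚ) / 2;
        - (m : ℚ) / 2, - (n : ℚ) / 2, - (p : ℚ) / 2, q - (r : ℚ) / 2] := by
    ext x y
    fin_cases x <;> fin_cases y <;> simp [toMat, ent, col, neg_div]
  rw [hM, Matrix.det_succ_row_zero]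
  simp only [Fin.sum_univ_four, Matrix.det_fin_three, Matrix.submatrix_apply, Fin.succAbove,
    invI]
  simp
  ring

theorem tr1_toMat (f : Fr) : (toMat f).trace = (((invI f).1 : ℤ) : ℚ) / 2 := by
  obtain ⟨⟨a, e, i, m⟩, ⟨b, g, j, n⟩, ⟨c, h, k, p⟩, ⟨d, l, o, r⟩⟩ := f
  simp [Matrix.trace, Fin.sum_univ_four, toMat, ent, col, invI]
  ring

theorem tr2_toMat (f : Fr) : (toMat f * toMat f).trace = (((invI f).2.1 : ℤ) : ℚ) / 4 := by
  obtain ⟨⟨a, e, i, m⟩, ⟨b, g, j, n⟩, ⟨c, h, k, p⟩, ⟨d, l, o, r⟩⟩ := f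
  simp [Matrix.trace, Matrix.mul_apply, Fin.sum_univ_four, toMat, ent, col, invI]
  ring

theorem ite_congr' {p q : Prop} [Decidable p] [Decidable q] (h : p ↔ q) :
    (if p then (1 : ℚ) else 0) = (((if q then 1 else 0 : ℤ) : ℤ) : ℚ) := by
  by_cases hp : p
  · rw [if_pos hp, if_pos (h.1 hp)]
    simp
  · rw [if_neg hp, if_neg (fun hq => hp (h.2 hq))]
    simp

theorem nShort_eq (w : W) : nShort (mat w) = (((invI (fr w)).2.2.1 : ℤ) : ℚ) := by
  have h : (invI (fr w)).2.2.1 = nsI (fr w) := rfl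
  rw [h]
  unfold nShort nsI
  rw [mat_eq]
  generalize fr w = f
  obtain ⟨⟨a, e, i, m⟩, ⟨b, g, j, n⟩, ⟨c, h, k, p⟩, ⟨d, l, o, r⟩⟩ := f
  have h1 : prod4 (toMat ((a, e, i, m), (b, g, j, n), (c, h, k, p), (d, l, o, r)) *ᵥ
      ![1, 0, 0, 0]) = ((pr4 (a, e, i, m) : ℤ) : ℚ) / 16 := by
    simp [prod4, Matrix.mulVec, dotProduct, Fin.sum_univ_four, toMat, ent, col, pr4]
    ring
  have h2 : prod4 (toMat ((a, e, i, m), (b, g, j, n), (c, h, k, p), (d, l, o, r)) *ᵥ
      ![1 / 2, 1 / 2, 1 / 2, 1 / 2]) =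
      ((pr4 (add2 (add2 (a, e, i, m) (b, g, j, n)) (add2 (c, h, k, p) (d, l, o, r))) : ℤ) : ℚ) /
        256 := by
    simp [prod4, Matrix.mulVec, dotProduct, Fin.sum_univ_four, toMat, ent, col, pr4, add2]
    ring
  have h3 : prod4 (toMat ((a, e, i, m), (b, g, j, n), (c, h, k, p), (d, l, o, r)) *ᵥ
      ![1 / 2, 1 / 2, 1 / 2, -1 / 2]) =
      ((pr4 (add2 (add2 (a, e, i, m) (b, g, j, n)) (sub2 (c, h, k, p) (d, l, o, r))) : ℤ) : ℚ) /
        256 := by
    simp [prod4, Matrix.mulVec, dotProduct, Fin.sum_univ_four, toMat, ent, col, pr4, add2, sub2]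
    ring
  rw [h1, h2, h3]
  push_cast only
  rw [Int.cast_add, Int.cast_add]
  congr 1
  · congr 1
    · apply ite_congr'
      constructor
      · intro hx
        have : ((pr4 (a, e, i, m) : ℤ) : ℚ) = 0 := by linarith
        exact_mod_cast this
      · intro hx
        rw [hx]
        simp
    · apply ite_congr'
      constructor
      · intro hx
        have : (0 : ℚ) < ((pr4 (add2 (add2 (a, e, i, m) (b, g, j, n))
          (add2 (c, h, k, p) (d, l, o, r))) : ℤ) : ℚ) := by linarith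
        exact_mod_cast this
      · intro hx
        have : (0 : ℚ) < ((pr4 (add2 (add2 (a, e, i, m) (b, g, j, n))
          (add2 (c, h, k, p) (d, l, o, r))) : ℤ) : ℚ) := by exact_mod_cast hx
        linarith
  · apply ite_congr'
    constructor
    · intro hx
      have : ((pr4 (add2 (add2 (a, e, i, m) (b, g, j, n))
        (sub2 (c, h, k, p) (d, l, o, r))) : ℤ) : ℚ) < 0 := by linarith
      exact_mod_cast this
    · intro hx
      have : ((pr4 (add2 (add2 (a, e, i, m) (b, g, j, n))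
        (sub2 (c, h, k, p) (d, l, o, r))) : ℤ) : ℚ) < 0 := by exact_mod_cast hx
      linarith

theorem sq_half_iff (x y : ℤ) : ((x : ℚ) / 2) ^ 2 = ((y : ℚ) / 2) ^ 2 ↔ x ^ 2 = y ^ 2 := by
  constructor
  · intro h
    have : (x : ℚ) ^ 2 = (y : ℚ) ^ 2 := by linarith
    exact_mod_cast this
  · intro h
    have : (x : ℚ) ^ 2 = (y : ℚ) ^ 2 := by exact_mod_cast h
    linarith

theorem nLong_eq (w : W) : nLong (mat w) = (((invI (fr w)).2.2.2.1 : ℤ) : ℚ) := by
  have h : (invI (fr w)).2.2.2.1 = nlI (fr w) := rfl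
  rw [h]
  unfold nLong nlI
  rw [mat_eq]
  generalize fr w = f
  obtain ⟨⟨a, e, i, m⟩, ⟨b, g, j, n⟩, ⟨c, h, k, p⟩, ⟨d, l, o, r⟩⟩ := f
  rw [Int.cast_add, Int.cast_add]
  congr 1
  · congr 1
    · apply ite_congr'
      rw [← sq_half_iff]
      simp [Matrix.mulVec, dotProduct, Fin.sum_univ_four, toMat, ent, col, add2, add_div]
    · apply ite_congr'
      rw [← sq_half_iff]
      simp [Matrix.mulVec, dotProduct, Fin.sum_univ_four, toMat, ent, col, add2, add_div]
  · apply ite_congr'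
    rw [← sq_half_iff]
    simp [Matrix.mulVec, dotProduct, Fin.sum_univ_four, toMat, ent, col, add2, add_div]

/-! ### Characters and determinants -/

/-- entry of the character table -/
def chT (i c : ℕ) : ℤ := (charT.getD i []).getD c 0

theorem chiF_check : ∀ i : Fin 25, ∀ c : Fin 25,
    chiF i ((inv7 c).1 / 2) ((inv7 c).2.1 / 4) (inv7 c).2.2.1 (inv7 c).2.2.2.1 =
      (chT i c : ℚ) := by
  decide +kernel

theorem chi_eq (i : Fin 25) (w : W) : chi i (mat w) = (chT i (labOf (fr w)) : ℚ) := by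
  have hlt := labOf_lt (fr_mem w)
  unfold chi
  rw [nShort_eq, nLong_eq, mat_eq, tr1_toMat, tr2_toMat, invI_eq (fr_mem w)]
  exact chiF_check i ⟨labOf (fr w), hlt⟩

theorem detT_check : ∀ c : Fin 25, ∃ a b e g : ℤ, detT.getD c [] = [a, b, e, g, 1] ∧
    (inv7 c).2.2.2.2.2.2 = 16 * a ∧ (inv7 c).2.2.2.2.2.1 = - 8 * b ∧
    (inv7 c).2.2.2.2.1 = 4 * e ∧ (inv7 c).1 = -2 * g := by
  intro c
  refine ⟨(detT.getD c []).getD 0 0, (detT.getD c []).getD 1 0, (detT.getD c []).getD 2 0,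
    (detT.getD c []).getD 3 0, ?_⟩
  revert c
  decide +kernel

theorem det_eq (w : W) (q : ℚ) : (Matrix.scalar (Fin 4) q - mat w).det =
    pev q (detT.getD (labOf (fr w)) []) := by
  have hlt := labOf_lt (fr_mem w)
  obtain ⟨a, b, e, g, h0, h1, h2, h3, h4⟩ := detT_check ⟨labOf (fr w), hlt⟩
  simp only at h0 h1 h2 h3 h4
  rw [mat_eq, det_toMat, invI_eq (fr_mem w), h0, h1, h2, h3, h4]
  simp only [pev]
  push_cast
  ring

/-! ### The right hand side -/

theorem pev_replicate {R : Type*} [CommRing R] (q : R) (n : ℕ) (a : List ℤ) :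
    pev q (List.replicate n 0 ++ a) = q ^ n * pev q a := by
  induction n with
  | zero => simp
  | succ n ih =>
    rw [List.replicate_succ, List.cons_append]
    simp only [pev, ih]
    push_cast
    ring

theorem pev_classSum {R : Type*} [CommRing R] (q : R) (x y ns : List ℤ) (gs : List (List ℤ))
    (n : ℕ) (hn : ns.length ≤ n) : pev q (classSum x y ns gs) =
      ∑ c ∈ Finset.range n, ((ns.getD c 0 : ℤ) : R) *
        (((x.getD c 0 : ℤ) : R) * ((y.getD c 0 : ℤ) : R) * pev q (gs.getD c [])) := by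
  induction ns generalizing x y gs n with
  | nil => simp [classSum, pev]
  | cons m s ih =>
    obtain ⟨n, rfl⟩ : ∃ n', n = n' + 1 := ⟨n - 1, by simp at hn; omega⟩
    rw [Finset.sum_range_succ']
    have hx : ∀ (z : List ℤ) (c : ℕ), z.getD (c + 1) 0 = z.tail.getD c 0 := by
      intro z c
      cases z <;> simp
    have hx0 : ∀ (z : List ℤ), z.getD 0 0 = z.headD 0 := by
      intro z
      cases z <;> simp
    cases gs with
    | nil => simp [classSum, pev]
    | cons g t =>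
      simp only [classSum, pev_padd, pev_psmul, List.getD_cons_zero, List.getD_cons_succ, hx x, hx y,
        hx0 x, hx0 y]
      rw [ih x.tail y.tail t n (by simpa using hn)]
      push_cast
      ring

theorem card_W : (Nat.card W : ℚ) = 1152 := by
  have h := sum_lab (R := ℚ) (fun _ => 1)
  rw [Finset.sum_const, nsmul_eq_mul, mul_one, Finset.card_univ] at h
  rw [Nat.card_eq_fintype_card, h]
  have e : ∀ c ∈ Finset.range 25, ((sizes.getD c 0 : ℤ) : ℚ) * 1 = ((sizes.getD c 0 : ℤ) : ℚ) :=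
    fun c _ => mul_one _
  rw [Finset.sum_congr rfl e, ← Int.cast_sum]
  have : ∑ c ∈ Finset.range 25, sizes.getD c 0 = 1152 := by decide +kernel
  rw [this]
  norm_num

/-- the matrix `P` -/
def pM {R : Type*} [CommRing R] (q : R) : Matrix (Fin 25) (Fin 25) R :=
  Matrix.of fun i j => pev q ((pT.getD i []).getD j [])

/-- the matrix `Λ` -/
def lM {R : Type*} [CommRing R] (q : R) : Matrix (Fin 25) (Fin 25) R :=
  Matrix.of fun i j => pev q ((lamT.getD j []).getD i [])

theorem pT_row_length : ∀ i : Fin 25, (pT.getD i []).length ≤ 25 := by decide +kernel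
theorem lamT_row_length : ∀ i : Fin 25, (lamT.getD i []).length ≤ 25 := by decide +kernel
theorem sizes_length : sizes.length ≤ 25 := by decide +kernel

theorem sum_fin_eq {R : Type*} [AddCommMonoid R] (F : ℕ → R) :
    ∑ i : Fin 25, F i = ∑ i ∈ Finset.range 25, F i := Fin.sum_univ_eq_sum_range F 25

/-- the product of the explicit matrices -/
theorem plp {R : Type*} [CommRing R] (q : R) (i j : Fin 25) :
    1152 * (pM q * lM q * (pM q)ᵀ) i j =
      q ^ 24 * ∑ c ∈ Finset.range 25, ((sizes.getD c 0 : ℤ) : R) *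
        (((chT i c : ℤ) : R) * ((chT j c : ℤ) : R) * pev q (cofT.getD c [])) := by
  have h1 := pev_isZ q (chkL_all i j)
  rw [pev_padd, pev_psmul, pev_psmul, pev_replicate,
    pev_classSum q _ _ sizes cofT 25 sizes_length,
    pev_pdot q _ _ 25 (pT_row_length j)] at h1
  have e2 : (((-1 : ℤ)) : R) = -1 := by norm_num
  have h2 : (pM q * lM q * (pM q)ᵀ) i j = ∑ k ∈ Finset.range 25,
      pev q ((pT.getD j []).getD k []) * pev q ((plT.getD i []).getD k []) := by
    rw [← sum_fin_eq (fun k => pev q ((pT.getD j []).getD k []) *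
        pev q ((plT.getD i []).getD k [])), Matrix.mul_apply]
    refine Finset.sum_congr rfl fun k _ => ?_
    have h3 := pev_isZ q (chkP_all i k)
    rw [pev_padd, pev_psmul, e2, pev_pdot q _ _ 25 (lamT_row_length k)] at h3
    have h4 : pev q ((plT.getD i []).getD k []) = ∑ l ∈ Finset.range 25,
        pev q ((lamT.getD k []).getD l []) * pev q ((pT.getD i []).getD l []) := by
      linear_combination -h3
    rw [h4, Matrix.transpose_apply, Matrix.mul_apply,
      ← sum_fin_eq (fun l => pev q ((lamT.getD k []).getD l []) *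
      pev q ((pT.getD i []).getD l []))]
    rw [mul_comm]
    congr 1
    exact Finset.sum_congr rfl fun l _ => mul_comm _ _
  rw [h2]
  have e1 : ((1152 : ℤ) : R) = 1152 := by norm_cast
  rw [e1, e2] at h1
  unfold chT
  linear_combination h1

theorem pev_numT (q : ℚ) : pev q numT = (q ^ 2 - 1) * (q ^ 6 - 1) * (q ^ 8 - 1) * (q ^ 12 - 1) := by
  simp only [numT, pev]
  push_cast
  ring

/-- the explicit solution of the orthogonality relations -/
theorem omega_eq (q : ℚ) (hq : 1 < q) : omega q = pM q * lM q * (pM q)ᵀ := by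
  ext i j
  have h := plp q i j
  have h2 : omega q i j = q ^ 24 / 1152 * ∑ c ∈ Finset.range 25, ((sizes.getD c 0 : ℤ) : ℚ) *
        (((chT i c : ℤ) : ℚ) * ((chT j c : ℤ) : ℚ) * pev q (cofT.getD c [])) := by
    unfold omega
    rw [Matrix.of_apply, card_W]
    congr 1
    rw [← sum_lab (R := ℚ) (fun c => ((chT i c : ℤ) : ℚ) * ((chT j c : ℤ) : ℚ) *
      pev q (cofT.getD c []))]
    refine Finset.sum_congr rfl fun w _ => ?_
    rw [chi_eq, chi_eq, det_eq]
    congr 1
    have hlt := labOf_lt (fr_mem w)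
    have h3 := pev_isZ q (List.all_eq_true.1 det_cof (labOf (fr w)) (List.mem_range.2 hlt))
    rw [pev_padd, pev_pmul, pev_psmul, pev_numT] at h3
    have e2 : (((-1 : ℤ)) : ℚ) = -1 := by norm_num
    rw [e2] at h3
    have h4 : pev q (detT.getD (labOf (fr w)) []) * pev q (cofT.getD (labOf (fr w)) []) =
      (q ^ 2 - 1) * (q ^ 6 - 1) * (q ^ 8 - 1) * (q ^ 12 - 1) := by linarith
    have hpos : 0 < (q ^ 2 - 1) * (q ^ 6 - 1) * (q ^ 8 - 1) * (q ^ 12 - 1) := by
      have hk : ∀ n : ℕ, n ≠ 0 → 0 < q ^ n - 1 := fun n hn => by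
        have := one_lt_pow₀ hq hn
        linarith
      have h1 := hk 2 (by norm_num)
      have h2 := hk 6 (by norm_num)
      have h3 := hk 8 (by norm_num)
      have h4 := hk 12 (by norm_num)
      positivity
    have hne : pev q (detT.getD (labOf (fr w)) []) ≠ 0 := by
      intro h0
      rw [h0, zero_mul] at h4
      rw [← h4] at hpos
      exact lt_irrefl _ hpos
    rw [← h4, mul_div_cancel_left₀ _ hne]
  rw [h2]
  linarith

end Pool.Agent.Lib.MP_eacc3c_al
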