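import Pool.Agent.Lib.MP_eacc3c_al.Fin

/-!
# The numerical hypotheses have a solution in natural numbers
-/

open scoped Matrix

namespace Pool.Agent.Lib.MP_eacc3c_al

/-- The explicit multiplicities: the coefficients of the polynomials in the table `pT`. -/
def nT (i j : Fin 25) (m : ℕ) : ℕ := (((pT.getD i []).getD j []).getD m 0).toNat

theorem pT_nonneg : ∀ i j : Fin 25, ∀ m : Fin 25,
    0 ≤ ((pT.getD i []).getD j []).getD m 0 := by decide +kernel

theorem pT_len : ∀ i j : Fin 25, ((pT.getD i []).getD j []).length ≤ dimB (orb j) + 1 := by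
  decide +kernel

theorem pT_tri : ∀ i j : Fin 25, orb i ≠ orb j → dimB (orb j) ≤ dimB (orb i) →
    ∀ m : Fin 25, ((pT.getD i []).getD j []).getD m 0 = 0 := by decide +kernel

theorem pT_top : ∀ i j : Fin 25, orb i = orb j → ∀ m : Fin 25,
    ((pT.getD i []).getD j []).getD m 0 = if i = j ∧ (m : ℕ) = dimB (orb j) then 1 else 0 := by
  decide +kernel

theorem nT_big (i j : Fin 25) (m : ℕ) (hm : dimB (orb j) < m) : nT i j m = 0 := by
  unfold nT
  rw [List.getD_eq_default]
  · rfl
  · have := pT_len i j
    omega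

theorem pev_sum {R : Type*} [CommRing R] (q : R) (a : List ℤ) (n : ℕ) (h : a.length ≤ n) :
    pev q a = ∑ m ∈ Finset.range n, ((a.getD m 0 : ℤ) : R) * q ^ m := by
  induction a generalizing n with
  | nil => simp [pev]
  | cons x a ih =>
    obtain ⟨k, rfl⟩ : ∃ k, n = k + 1 := ⟨n - 1, by simp at h; omega⟩
    have e : q * ∑ m ∈ Finset.range k, ((a.getD m 0 : ℤ) : R) * q ^ m =
        ∑ m ∈ Finset.range k, ((a.getD m 0 : ℤ) : R) * q ^ (m + 1) := by
      rw [Finset.mul_sum]
      exact Finset.sum_congr rfl fun m _ => by rw [pow_succ]; ring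
    rw [Finset.sum_range_succ']
    simp only [pev, List.getD_cons_succ, List.getD_cons_zero, pow_zero, mul_one]
    rw [ih k (by simpa using h), e, add_comm]

theorem pM_eq_nT (q : ℚ) :
    pM q = Matrix.of fun i j => ∑ m ∈ Finset.range 25, (nT i j m : ℚ) * q ^ m := by
  ext i j
  show pev q ((pT.getD i []).getD j []) = ∑ m ∈ Finset.range 25, (nT i j m : ℚ) * q ^ m
  rw [pev_sum q _ 25 ((pT_len i j).trans (dimB_lt (orb j)))]
  refine Finset.sum_congr rfl fun m hm => ?_
  congr 1
  have h := pT_nonneg i j ⟨m, Finset.mem_range.1 hm⟩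
  unfold nT
  have h2 : ((((pT.getD i []).getD j []).getD m 0).toNat : ℤ) =
      ((pT.getD i []).getD j []).getD m 0 := Int.toNat_of_nonneg h
  exact_mod_cast congrArg (fun z : ℤ => (z : ℚ)) h2.symm

/-- The theorems on the multiplicities have a solution in natural numbers. -/
theorem consistent : ∃ n : Fin 25 → Fin 25 → ℕ → ℕ, Green fun i j m => (n i j m : ℂ) := by
  refine ⟨nT, ?_, ?_, ?_, ?_⟩
  · intro i j m h
    rw [nT_big i j m h, Nat.cast_zero]
  · intro i j m h
    by_cases hm : m < 25
    · have h1 := pT_top i j h ⟨m, hm⟩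
      unfold nT
      simp only at h1
      rw [h1]
      split_ifs <;> norm_num
    · rw [nT_big i j m (by
        have := dimB_lt (orb j)
        omega), if_neg, Nat.cast_zero]
      rintro ⟨-, rfl⟩
      exact hm (dimB_lt (orb j))
  · intro i j m h h'
    by_cases hm : m < 25
    · have h1 := pT_tri i j h h' ⟨m, hm⟩
      unfold nT
      simp only at h1
      rw [h1]
      norm_num
    · rw [nT_big i j m (by
        have := dimB_lt (orb j)
        omega), Nat.cast_zero]
  · intro p hp h5
    refine ⟨lM (p : ℂ), fun k l h => ?_, ?_⟩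
    · show pev (p : ℂ) ((lamT.getD l []).getD k []) = 0
      rw [lamT_block k l h]
      rfl
    · have e : pMat (fun i j m => (nT i j m : ℂ)) p = pM (p : ℂ) := by
        have h1 := congrArg (fun M : Matrix (Fin 25) (Fin 25) ℚ => M.map (algebraMap ℚ ℂ))
          (pM_eq_nT (p : ℚ))
        rw [map_pM] at h1
        have e2 : (((p : ℚ) : ℂ)) = (p : ℂ) := by push_cast; rfl
        rw [e2] at h1
        rw [h1]
        ext i j
        simp [pMat]
      rw [e, omega_map p (by omega)]

end Pool.Agent.Lib.MP_eacc3c_al
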