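import Mathlib

/-!
# The algebra `A`, the space `U` and the homomorphism `ψ`

Let `H` be a commutative algebra and `V` a vector space over `ℂ`, and let a set (a group `W`) act
on `H` by the algebra endomorphisms `a i` and on `V` by the linear maps `b i`. Definitions of
`A = (H ⊗ Λ^* V)^W`, `U = (H ⊗ V)^W` and of the natural homomorphism `ψ : Λ^*(U) → A`.
-/

open scoped TensorProduct

namespace Pool.Agent.Lib.MP_eacc3c_al

/-- the homomorphism `Λ^*(M) → A` which extends a linear map `f : M → A` with `f(m)² = 0` -/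
noncomputable def extLift {M A : Type} [AddCommGroup M] [Module ℂ M] [Ring A] [Algebra ℂ A]
    (f : M →ₗ[ℂ] A) (h : ∀ m, f m * f m = 0) : ExteriorAlgebra ℂ M →ₐ[ℂ] A :=
  ExteriorAlgebra.lift ℂ ⟨f, h⟩

section

variable {ι H V : Type} [CommRing H] [Algebra ℂ H] [AddCommGroup V] [Module ℂ V]

/-- `A = (H ⊗ Λ^* V)^W`: the algebra of the elements of `H ⊗ Λ^* V` which are fixed by all
`a i ⊗ Λ(b i)`. -/
noncomputable def Ae (a : ι → (H →ₐ[ℂ] H)) (b : ι → (V →ₗ[ℂ] V)) :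
    Subalgebra ℂ (H ⊗[ℂ] ExteriorAlgebra ℂ V) :=
  ⨅ i, AlgHom.equalizer (Algebra.TensorProduct.map (a i) (ExteriorAlgebra.map (b i)))
    (AlgHom.id ℂ (H ⊗[ℂ] ExteriorAlgebra ℂ V))

/-- `U = (H ⊗ V)^W`: the space of the elements of `H ⊗ V` which are fixed by all `a i ⊗ b i`. -/
noncomputable def Ue (a : ι → (H →ₐ[ℂ] H)) (b : ι → (V →ₗ[ℂ] V)) : Submodule ℂ (H ⊗[ℂ] V) :=
  ⨅ i, LinearMap.eqLocus (TensorProduct.map (a i).toLinearMap (b i)) LinearMap.id

/-- the inclusion `H ⊗ V ⊆ H ⊗ Λ^* V` -/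
noncomputable def inc (H V : Type) [CommRing H] [Algebra ℂ H] [AddCommGroup V] [Module ℂ V] :
    H ⊗[ℂ] V →ₗ[ℂ] H ⊗[ℂ] ExteriorAlgebra ℂ V :=
  LinearMap.lTensor H (ExteriorAlgebra.ι ℂ)

theorem mem_Ae (a : ι → (H →ₐ[ℂ] H)) (b : ι → (V →ₗ[ℂ] V)) (x : H ⊗[ℂ] ExteriorAlgebra ℂ V) :
    x ∈ Ae a b ↔ ∀ i, Algebra.TensorProduct.map (a i) (ExteriorAlgebra.map (b i)) x = x := by
  simp [Ae, Algebra.mem_iInf, AlgHom.mem_equalizer]

theorem mem_Ue (a : ι → (H →ₐ[ℂ] H)) (b : ι → (V →ₗ[ℂ] V)) (x : H ⊗[ℂ] V) :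
    x ∈ Ue a b ↔ ∀ i, TensorProduct.map (a i).toLinearMap (b i) x = x := by
  simp [Ue, Submodule.mem_iInf]

theorem map_inc (a : H →ₐ[ℂ] H) (b : V →ₗ[ℂ] V) (u : H ⊗[ℂ] V) :
    Algebra.TensorProduct.map a (ExteriorAlgebra.map b) (inc H V u) =
      inc H V (TensorProduct.map a.toLinearMap b u) := by
  induction u with
  | zero => simp
  | add x y hx hy => simp only [map_add, hx, hy]
  | tmul h v =>
    simp [inc]

theorem inc_mem (a : ι → (H →ₐ[ℂ] H)) (b : ι → (V →ₗ[ℂ] V)) (u : Ue a b) :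
    inc H V u.1 ∈ Ae a b := by
  rw [mem_Ae]
  intro i
  rw [map_inc, (mem_Ue a b u.1).1 u.2 i]

theorem inc_anti (u v : H ⊗[ℂ] V) : inc H V u * inc H V v + inc H V v * inc H V u = 0 := by
  induction u with
  | zero => simp
  | add x y hx hy =>
    have : inc H V (x + y) * inc H V v + inc H V v * inc H V (x + y) =
        (inc H V x * inc H V v + inc H V v * inc H V x) +
        (inc H V y * inc H V v + inc H V v * inc H V y) := by
      rw [map_add, add_mul, mul_add]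
      abel
    rw [this, hx, hy, add_zero]
  | tmul h a =>
    induction v with
    | zero => simp
    | add x y hx hy =>
      have : inc H V (h ⊗ₜ a) * inc H V (x + y) + inc H V (x + y) * inc H V (h ⊗ₜ a) =
          (inc H V (h ⊗ₜ a) * inc H V x + inc H V x * inc H V (h ⊗ₜ a)) +
          (inc H V (h ⊗ₜ a) * inc H V y + inc H V y * inc H V (h ⊗ₜ a)) := by
        rw [map_add, mul_add, add_mul]
        abel
      rw [this, hx, hy, add_zero]
    | tmul h' b =>
      simp only [inc, LinearMap.lTensor_tmul, Algebra.TensorProduct.tmul_mul_tmul]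
      rw [mul_comm h' h, ← TensorProduct.tmul_add, ExteriorAlgebra.ι_add_mul_swap,
        TensorProduct.tmul_zero]

/-- the inclusion `U ⊆ H ⊗ Λ^* V` -/
noncomputable def incU (a : ι → (H →ₐ[ℂ] H)) (b : ι → (V →ₗ[ℂ] V)) :
    Ue a b →ₗ[ℂ] H ⊗[ℂ] ExteriorAlgebra ℂ V := inc H V ∘ₗ (Ue a b).subtype

theorem incU_sq (a : ι → (H →ₐ[ℂ] H)) (b : ι → (V →ₗ[ℂ] V)) (u : Ue a b) :
    incU a b u * incU a b u = 0 := by
  have h := inc_anti u.1 u.1
  have h2 : (2 : ℂ) • (inc H V u.1 * inc H V u.1) = 0 := by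
    rw [two_smul]
    exact h
  exact (smul_eq_zero.1 h2).resolve_left two_ne_zero

/-- the homomorphism `Λ^*(U) → H ⊗ Λ^* V` which extends the inclusion `U ⊆ H ⊗ Λ^* V` -/
noncomputable def psi0 (a : ι → (H →ₐ[ℂ] H)) (b : ι → (V →ₗ[ℂ] V)) :
    ExteriorAlgebra ℂ (Ue a b) →ₐ[ℂ] H ⊗[ℂ] ExteriorAlgebra ℂ V :=
  extLift (incU a b) (incU_sq a b)

theorem psi0_mem (a : ι → (H →ₐ[ℂ] H)) (b : ι → (V →ₗ[ℂ] V)) (x : ExteriorAlgebra ℂ (Ue a b)) :
    psi0 a b x ∈ Ae a b := by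
  induction x using ExteriorAlgebra.induction with
  | algebraMap r =>
    rw [AlgHom.commutes]
    exact (Ae a b).algebraMap_mem r
  | ι u =>
    unfold psi0 extLift
    rw [ExteriorAlgebra.lift_ι_apply]
    exact inc_mem a b u
  | mul x y hx hy =>
    rw [map_mul]
    exact (Ae a b).mul_mem hx hy
  | add x y hx hy =>
    rw [map_add]
    exact (Ae a b).add_mem hx hy

/-- the natural homomorphism `ψ : Λ^*(U) → A` -/
noncomputable def psi (a : ι → (H →ₐ[ℂ] H)) (b : ι → (V →ₗ[ℂ] V)) :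
    ExteriorAlgebra ℂ (Ue a b) →ₐ[ℂ] Ae a b :=
  AlgHom.codRestrict (psi0 a b) (Ae a b) (psi0_mem a b)

/-- `ψ : Λ^*(U) → A` is injective -/
def PsiInjective (a : ι → (H →ₐ[ℂ] H)) (b : ι → (V →ₗ[ℂ] V)) : Prop :=
  Function.Injective (psi a b)

/-- `H` is a finite-dimensional graded algebra, and the product `G × K` of two groups acts on it
by automorphisms of graded algebras (`act g k` is the action of `(g, k)`). -/
structure IsGradedAction {H G K : Type} [CommRing H] [Algebra ℂ H] [Group G] [Group K]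
    (gr : ℕ → Submodule ℂ H) (act : G → K → (H →ₐ[ℂ] H)) : Prop where
  /-- finite-dimensional -/
  finite : Module.Finite ℂ H
  /-- `H` is the direct sum of the subspaces `gr m` -/
  internal : DirectSum.IsInternal gr
  /-- the unit is in degree zero -/
  one_mem : 1 ∈ gr 0
  /-- the product is graded -/
  mul_mem : ∀ m m' x y, x ∈ gr m → y ∈ gr m' → x * y ∈ gr (m + m')
  /-- action of the group -/
  act_one : ∀ x, act 1 1 x = x
  /-- action of the group -/
  act_mul : ∀ v w a b x, act (v * w) (a * b) x = act v a (act w b x)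
  /-- the action respects the degree -/
  act_mem : ∀ w a m x, x ∈ gr m → act w a x ∈ gr m

end

end Pool.Agent.Lib.MP_eacc3c_al
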