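import Pool.Agent.Lib.MP_eacc3c_al.Grp2
import Pool.Agent.Lib.MP_eacc3c_al.Ext

/-!
# Springer fibres of type F4: definitions

* the 25 irreducible characters of the Weyl group `W` of type `F₄`;
* the 16 nilpotent orbits, the dimensions of the Springer fibres, the groups `A(e)`, the 25 pairs
  of the Springer correspondence;
* the structures `Green` and `SpringerSystem`: the theorems on the cohomology algebras of the
  Springer fibres, with the actions of `W` and `A(e)`, which are used.
-/

open scoped Matrix TensorProduct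

namespace Pool.Agent.Lib.MP_eacc3c_al

/-! ### The irreducible characters of the Weyl group -/

/-- the product of the four coordinates -/
def prod4 (v : Fin 4 → ℚ) : ℚ := v 0 * v 1 * v 2 * v 3

/-- The 24 short roots form three orthogonal frames: `± e_i` (product of the coordinates `0`),
`(± e₁ ± e₂ ± e₃ ± e₄) / 2` with positive product and with negative product of the coordinates.
`nShort M` is the number of these frames which are fixed by the matrix `M` of an element of `W`. -/
def nShort (M : Matrix (Fin 4) (Fin 4) ℚ) : ℚ :=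
  (if prod4 (M *ᵥ ![1, 0, 0, 0]) = 0 then 1 else 0) +
  (if 0 < prod4 (M *ᵥ ![1 / 2, 1 / 2, 1 / 2, 1 / 2]) then 1 else 0) +
  (if prod4 (M *ᵥ ![1 / 2, 1 / 2, 1 / 2, -1 / 2]) < 0 then 1 else 0)

/-- The 24 long roots form three orthogonal frames: `± e₁ ± e₂, ± e₃ ± e₄` (the vectors `v` with
`v₁² = v₂²`), `± e₁ ± e₃, ± e₂ ± e₄` (`v₁² = v₃²`), `± e₁ ± e₄, ± e₂ ± e₃` (`v₁² = v₄²`).
`nLong M` is the number of these frames which are fixed by the matrix `M` of an element of `W`. -/
def nLong (M : Matrix (Fin 4) (Fin 4) ℚ) : ℚ :=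
  (if (M *ᵥ ![1, 1, 0, 0]) 0 ^ 2 = (M *ᵥ ![1, 1, 0, 0]) 1 ^ 2 then 1 else 0) +
  (if (M *ᵥ ![1, 0, 1, 0]) 0 ^ 2 = (M *ᵥ ![1, 0, 1, 0]) 2 ^ 2 then 1 else 0) +
  (if (M *ᵥ ![1, 0, 0, 1]) 0 ^ 2 = (M *ᵥ ![1, 0, 0, 1]) 3 ^ 2 then 1 else 0)

/-- The irreducible characters of `W` as functions of `x = tr w`, `y = tr w²`, `s = nShort w`,
`l = nLong w` (traces on the reflection representation `V`). Building blocks: `x` (the reflection representation `V`), `S = (x² + y) / 2 - 1`
(`S² V` without the trivial representation, degree 9), `L = (x² - y) / 2` (`Λ² V`, degree 6),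
`s - 1` and `l - 1` (degree 2, from the two homomorphisms of `W` onto `S₃`, in which the long,
respectively the short, reflections are trivial), `εs`, `εl` (the signs of the permutations of
the three frames of short, of long roots: `εs` is `-1` on the short reflections and `1` on the
long ones, `εl` is `-1` on the long reflections and `1` on the short ones). -/
def chiF (i : Fin 25) (x y s l : ℚ) : ℚ :=
  let S := (x ^ 2 + y) / 2 - 1
  let L := (x ^ 2 - y) / 2
  let εs : ℚ := if s = 1 then -1 else 1
  let εl : ℚ := if l = 1 then -1 else 1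
  ![εs * εl,
    (l - 1) * εs,
    x * εs * εl, (s - 1) * εl,
    S * εs * εl,
    x * (l - 1) * εs, εs,
    x * (s - 1) * εl,
    x * εs,
    S * εs, (s - 1) * (l - 1),
    L * εl,
    x * (s - 1) * (l - 1), x * εl,
    L * (s - 1), S * εl, L, εl,
    x * (s - 1),
    x * (l - 1),
    S, s - 1,
    x, l - 1,
    1] i

/-- The 25 irreducible characters of `W`, in the order of the pairs of the Springer
correspondence, see `orb` and `kind`; `M` is the matrix of the element of `W`. -/
def chi (i : Fin 25) (M : Matrix (Fin 4) (Fin 4) ℚ) : ℚ :=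
  chiF i M.trace (M * M).trace (nShort M) (nLong M)

/-! ### Nilpotent orbits and the Springer correspondence -/

/-- The dimension of the Springer fibre of a nilpotent element of the orbit number `e`. The
orbits are numbered as follows: `0`, `A₁`, `Ã₁`, `A₁ + Ã₁`, `A₂`, `Ã₂`, `A₂ + Ã₁`, `B₂`,
`Ã₂ + A₁`, `C₃(a₁)`, `F₄(a₃)`, `B₃`, `C₃`, `F₄(a₂)`, `F₄(a₁)`, `F₄`. -/
def dimB : Fin 16 → ℕ := ![24, 16, 13, 10, 9, 9, 7, 6, 6, 5, 4, 3, 3, 2, 1, 0]

/-- The group `A(e)` of the components of the centralizer of `e` is the symmetric group of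
`kA e` letters. -/
def kA : Fin 16 → ℕ := ![1, 1, 2, 1, 2, 1, 1, 2, 1, 2, 4, 1, 1, 2, 2, 1]

/-- The component group `A(e)`. -/
abbrev A (e : Fin 16) : Type := Equiv.Perm (Fin (kA e))

/-- The 25 pairs (orbit, irreducible character of `A(e)`) of the Springer correspondence:
the orbit. -/
def orb : Fin 25 → Fin 16 :=
  ![0, 1, 2, 2, 3, 4, 4, 5, 6, 7, 7, 8, 9, 9, 10, 10, 10, 10, 11, 12, 13, 13, 14, 14, 15]

/-- The 25 pairs of the Springer correspondence: the irreducible character of `A(e)`: `0` is the
trivial character, `1` is the sign, and `2`, `3`, `4` are the characters of `S₄` of the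
partitions `(3, 1)`, `(2, 2)` and `(2, 1, 1)`. -/
def kind : Fin 25 → Fin 5 :=
  ![0, 0, 0, 1, 0, 0, 1, 0, 0, 0, 1, 0, 0, 1, 0, 2, 3, 4, 0, 0, 0, 1, 0, 1, 0]

/-- the number of fixed points of a permutation -/
def fixN {n : ℕ} (a : Equiv.Perm (Fin n)) : ℚ := ((Finset.univ.filter fun x => a x = x).card : ℚ)

/-- the characters of a symmetric group which are needed -/
def permChar {n : ℕ} (k : Fin 5) (a : Equiv.Perm (Fin n)) : ℚ :=
  ![1, ((Equiv.Perm.sign a : ℤ) : ℚ), fixN a - 1,
    (fixN a ^ 2 + fixN (a * a) - 4 * fixN a) / 2, ((Equiv.Perm.sign a : ℤ) : ℚ) * (fixN a - 1)] k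

/-- the irreducible character of `A(e)` in the pair number `j` -/
def rho (j : Fin 25) (a : A (orb j)) : ℚ := permChar (kind j) a

/-! ### The multiplicities and the theorems on them -/

/-- The right hand side of the orthogonality relations:
`ω_{i j}(q) = q^24 |W|⁻¹ ∑_w χ_i(w) χ_j(w) (q²-1)(q⁶-1)(q⁸-1)(q¹²-1) / det(q - w)`; for a prime power
`q` this is `|W|⁻¹ ∑_w χ_i(w) χ_j(w) |G(F_q)| / |T_w(F_q)|`. -/
noncomputable def omega (q : ℚ) : Matrix (Fin 25) (Fin 25) ℚ :=
  Matrix.of fun i j => q ^ 24 / (Nat.card W : ℚ) * ∑ w : W, chi i (mat w) * chi j (mat w) *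
    ((q ^ 2 - 1) * (q ^ 6 - 1) * (q ^ 8 - 1) * (q ^ 12 - 1) / (Matrix.scalar (Fin 4) q - mat w).det)

/-- For numbers `μ i j m`, the multiplicities of `χ_i ⊗ ρ_j` in `H^{2 m}(B_{e_j})`, the matrix of
the polynomials `p_{i j}(q) = ∑_m μ i j m q^m`. -/
def pMat (μ : Fin 25 → Fin 25 → ℕ → ℂ) (q : ℂ) : Matrix (Fin 25) (Fin 25) ℂ :=
  Matrix.of fun i j => ∑ m ∈ Finset.range 25, μ i j m * q ^ m

/-- The theorems on the multiplicities `μ i j m` of `χ_i ⊗ ρ_j` in `H^{2 m}(B_{e_j})` (`e_j` is in
the orbit of the pair number `j`) which are used. -/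
structure Green (μ : Fin 25 → Fin 25 → ℕ → ℂ) : Prop where
  /-- No cohomology above twice the dimension. -/
  vanishing : ∀ i j m, dimB (orb j) < m → μ i j m = 0
  /-- The Springer correspondence (Springer 1978; computed for `F₄` by Shoji 1980): `χ_i ⊗ ρ_i`
  has multiplicity one in the top cohomology `H^{2 dim B_e}(B_e)`, the other pairs of the same
  orbit do not occur, and the Springer representations `χ_i` of an orbit do not occur in lower
  degree in the cohomology of its Springer fibre (Borho, MacPherson 1981). -/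
  springer : ∀ i j m, orb i = orb j → μ i j m = if i = j ∧ m = dimB (orb j) then 1 else 0
  /-- Triangularity (Borho, MacPherson 1981): if the Springer representation `χ_i` of the orbit
  `O` occurs in the cohomology of the Springer fibre of another orbit `O'`, then `O'` is in the
  closure of `O`, and so the dimension of the Springer fibre of `O'` is larger. -/
  triangular : ∀ i j m, orb i ≠ orb j → dimB (orb j) ≤ dimB (orb i) → μ i j m = 0
  /-- The orthogonality relations of the Green functions (Springer 1976, Kazhdan 1977, Shoji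
  1982, Lusztig 1986, Theorem 24.8), for the group of type `F₄` over the field with `p`
  elements, `p ≥ 5` a prime: `P Λ Pᵗ = Ω` with a matrix `Λ` which is block diagonal for the
  orbits. -/
  orthogonality : ∀ p : ℕ, p.Prime → 5 ≤ p → ∃ Λ : Matrix (Fin 25) (Fin 25) ℂ,
    (∀ k l, orb k ≠ orb l → Λ k l = 0) ∧
    pMat μ p * Λ * (pMat μ p)ᵀ = (omega p).map (algebraMap ℚ ℂ)

open scoped Classical in
/-- the trace of the endomorphism `f` on the subspace `p` (which is mapped into itself) -/
noncomputable def trOn {H : Type} [AddCommGroup H] [Module ℂ H] (p : Submodule ℂ H)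
    (f : H →ₗ[ℂ] H) : ℂ :=
  if h : ∀ x ∈ p, f x ∈ p then LinearMap.trace ℂ p (f.restrict h) else 0

/-- The multiplicity of the character `χ_i ⊗ ρ_j` in the class function `t` on `W × A(e_j)`. -/
noncomputable def mult (i j : Fin 25) (t : W → A (orb j) → ℂ) : ℂ :=
  (∑ w : W, ∑ a : A (orb j), (chi i (mat w) : ℂ) * (rho j a : ℂ) * t w a) /
    ((Nat.card W : ℂ) * (Nat.card (A (orb j)) : ℂ))

/-- The theorems on the cohomology algebras of the Springer fibres of type `F₄` which are used.
For each of the 16 nilpotent orbits `H e` is a finite-dimensional commutative algebra with a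
grading `gr e` and an action `act e` of `W × A(e)`. For the true Springer fibres:
`H e = H^*(B_e, ℂ)`, `gr e m = H^{2 m}(B_e, ℂ)`; the odd cohomology is zero (De Concini, Lusztig,
Procesi, 1988), and `H^{2 m}(B_e) = 0` for `m > dim B_e`; the Springer action of `W` is normalised
so that `H^*(B) → H^*(B_e)` is equivariant, it commutes with the action of `A(e)`, and both
respect the product (Springer 1976, 1978; Slodowy 1980; Lusztig 1981). -/
structure SpringerSystem (H : Fin 16 → Type) [∀ e, CommRing (H e)] [∀ e, Algebra ℂ (H e)]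
    (gr : (e : Fin 16) → ℕ → Submodule ℂ (H e))
    (act : (e : Fin 16) → W → A e → (H e →ₐ[ℂ] H e)) : Prop where
  /-- finite-dimensional graded algebras with actions of the groups `W × A(e)` -/
  action : ∀ e, IsGradedAction (gr e) (act e)
  /-- no cohomology above twice the dimension -/
  vanish : ∀ e m, dimB e < m → gr e m = ⊥
  /-- the theorems on the multiplicities -/
  green : Green fun i j m =>
    mult i j fun w a => trOn (gr (orb j) m) (act (orb j) w a).toLinearMap

/-- the complex reflection representation `V = ℂ⁴` of `W`: the action of an element with the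
matrix `M` -/
noncomputable def reflRep (M : Matrix (Fin 4) (Fin 4) ℚ) : (Fin 4 → ℂ) →ₗ[ℂ] (Fin 4 → ℂ) :=
  Matrix.toLin' (M.map (algebraMap ℚ ℂ))

end Pool.Agent.Lib.MP_eacc3c_al
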