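import Pool.Agent.Lib.MP_eacc3c_al.Uni
import Pool.Agent.Lib.MP_eacc3c_al.Avg

/-!
# The homomorphism `ψ` is not injective for `e` in the orbit `F₄(a₃)`
-/

open scoped Matrix TensorProduct

namespace Pool.Agent.Lib.MP_eacc3c_al

theorem mat_one : mat 1 = 1 := rfl

theorem mat_mul (v w : W) : mat (v * w) = mat v * mat w := rfl

theorem reflRep_one : reflRep 1 = 1 := by
  unfold reflRep
  rw [Matrix.map_one _ (map_zero _) (map_one _), Matrix.toLin'_one]
  rfl

theorem reflRep_mul (M N : Matrix (Fin 4) (Fin 4) ℚ) :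
    reflRep (M * N) = reflRep M * reflRep N := by
  unfold reflRep
  rw [Matrix.map_mul, Matrix.toLin'_mul]
  rfl

theorem trace_reflRep (M : Matrix (Fin 4) (Fin 4) ℚ) :
    LinearMap.trace ℂ (Fin 4 → ℂ) (reflRep M) = ((M.trace : ℚ) : ℂ) := by
  unfold reflRep
  rw [Matrix.trace_toLin'_eq]
  simp [Matrix.trace]

section

variable {H : Type} [CommRing H] [Algebra ℂ H] {G : Type} [Group G]
  (act : W → G → (H →ₐ[ℂ] H)) (p : Submodule ℂ H)
  (hp : ∀ w g, ∀ x ∈ p, act w g x ∈ p) (h1 : ∀ x, act 1 1 x = x)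
  (h2 : ∀ v w a b x, act (v * w) (a * b) x = act v a (act w b x))

/-- the action of `W × G` on the subspace `p` -/
noncomputable def op (w : W) (g : G) : p →ₗ[ℂ] p := (act w g).toLinearMap.restrict (hp w g)

include h1 in
theorem op_one : op act p hp 1 1 = 1 := by
  refine LinearMap.ext fun x => Subtype.ext ?_
  show act 1 1 x.1 = x.1
  rw [h1]

include h2 in
theorem op_mul (v w : W) (a b : G) :
    op act p hp (v * w) (a * b) = op act p hp v a * op act p hp w b := by
  refine LinearMap.ext fun x => Subtype.ext ?_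
  show act (v * w) (a * b) x.1 = act v a (act w b x.1)
  rw [h2]

/-- the action of `W × G` on `p ⊗ V` (`G` acts trivially on `V`) -/
noncomputable def theta : W × G →* (p ⊗[ℂ] (Fin 4 → ℂ) →ₗ[ℂ] p ⊗[ℂ] (Fin 4 → ℂ)) where
  toFun g := TensorProduct.map (op act p hp g.1 g.2) (reflRep (mat g.1))
  map_one' := by
    show TensorProduct.map (op act p hp 1 1) (reflRep (mat 1)) = 1
    rw [op_one act p hp h1, mat_one, reflRep_one, TensorProduct.map_one]
  map_mul' g h := by
    show TensorProduct.map (op act p hp (g.1 * h.1) (g.2 * h.2)) (reflRep (mat (g.1 * h.1))) = _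
    rw [op_mul act p hp h2, mat_mul, reflRep_mul, TensorProduct.map_mul]

theorem trace_theta [Module.Finite ℂ H] (w : W) (g : G) :
    LinearMap.trace ℂ _ (theta act p hp h1 h2 (w, g)) =
      trOn p (act w g).toLinearMap * (((mat w).trace : ℚ) : ℂ) := by
  show LinearMap.trace ℂ _ (TensorProduct.map (op act p hp w g) (reflRep (mat w))) = _
  rw [LinearMap.trace_tensorProduct', trace_reflRep]
  congr 1
  unfold trOn
  rw [dif_pos (show ∀ x ∈ p, (act w g).toLinearMap x ∈ p from hp w g)]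
  rfl

/-- the inclusion `p ⊗ V ⊆ H ⊗ V` -/
noncomputable def sub3 : p ⊗[ℂ] (Fin 4 → ℂ) →ₗ[ℂ] H ⊗[ℂ] (Fin 4 → ℂ) :=
  LinearMap.rTensor (Fin 4 → ℂ) p.subtype

theorem sub3_inj : Function.Injective (sub3 p) :=
  Module.Flat.rTensor_preserves_injective_linearMap _ (Submodule.injective_subtype _)

theorem sub3_theta (w : W) (x : p ⊗[ℂ] (Fin 4 → ℂ)) :
    TensorProduct.map (act w 1).toLinearMap (reflRep (mat w)) (sub3 p x) =
      sub3 p (theta act p hp h1 h2 (w, 1) x) := by
  induction x with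
  | zero => simp
  | add x y hx hy => rw [map_add, map_add, map_add, map_add, hx, hy]
  | tmul h v => rfl

theorem sub3_mem (x : p ⊗[ℂ] (Fin 4 → ℂ)) (hx : ∀ w, theta act p hp h1 h2 (w, 1) x = x) :
    sub3 p x ∈ Ue (fun w => act w 1) (fun w : W => reflRep (mat w)) := by
  rw [mem_Ue]
  intro w
  have := sub3_theta act p hp h1 h2 w x
  rw [hx w] at this
  exact this

/-- if the products of elements of `p` are zero, then the products of elements of `p ⊗ V` are
zero -/
theorem inc_mul (h0 : ∀ x ∈ p, ∀ y ∈ p, x * y = 0) (x y : p ⊗[ℂ] (Fin 4 → ℂ)) :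
    inc H (Fin 4 → ℂ) (sub3 p x) * inc H (Fin 4 → ℂ) (sub3 p y) = 0 := by
  induction x with
  | zero => simp
  | add x x' hx hx' => rw [map_add, map_add, add_mul, hx, hx', add_zero]
  | tmul h v =>
    induction y with
    | zero => simp
    | add y y' hy hy' => rw [map_add, map_add, mul_add, hy, hy', add_zero]
    | tmul h' v' =>
      show ((h : H) ⊗ₜ[ℂ] ExteriorAlgebra.ι ℂ v) * ((h' : H) ⊗ₜ[ℂ] ExteriorAlgebra.ι ℂ v') = 0
      rw [Algebra.TensorProduct.tmul_mul_tmul, h0 _ h.2 _ h'.2, TensorProduct.zero_tmul]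

/-- If `p ⊗ V` contains two linearly independent `W`-invariants and the products of elements of
`p` are zero, then `ψ` is not injective. -/
theorem not_inj_of (h0 : ∀ x ∈ p, ∀ y ∈ p, x * y = 0)
    (h3 : ∃ x y : p ⊗[ℂ] (Fin 4 → ℂ), (∀ w, theta act p hp h1 h2 (w, 1) x = x) ∧
      (∀ w, theta act p hp h1 h2 (w, 1) y = y) ∧ x ≠ 0 ∧ ∀ c : ℂ, c • x ≠ y) :
    ¬ PsiInjective (fun w => act w 1) (fun w : W => reflRep (mat w)) := by
  intro hinj
  obtain ⟨x, y, hx, hy, hx0, hxy⟩ := h3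
  let u : Ue (fun w => act w 1) (fun w : W => reflRep (mat w)) :=
    ⟨sub3 p x, sub3_mem act p hp h1 h2 x hx⟩
  let v : Ue (fun w => act w 1) (fun w : W => reflRep (mat w)) :=
    ⟨sub3 p y, sub3_mem act p hp h1 h2 y hy⟩
  have hu : u ≠ 0 := by
    intro h
    apply hx0
    apply sub3_inj p
    rw [map_zero]
    exact congrArg Subtype.val h
  have huv : ∀ c : ℂ, c • u ≠ v := by
    intro c h
    apply hxy c
    apply sub3_inj p
    rw [map_smul]
    exact congrArg Subtype.val h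
  apply ext_mul_ne u v hu huv
  apply hinj
  rw [map_zero]
  apply Subtype.ext
  show psi0 _ _ (ExteriorAlgebra.ι ℂ u * ExteriorAlgebra.ι ℂ v) = 0
  rw [map_mul]
  unfold psi0 extLift
  rw [ExteriorAlgebra.lift_ι_apply, ExteriorAlgebra.lift_ι_apply]
  exact inc_mul p h0 x y

end

theorem chi_22 (M : Matrix (Fin 4) (Fin 4) ℚ) : chi 22 M = M.trace := rfl

theorem rho_sum : ∑ a : A (orb 16), |rho 16 a| = 16 := by decide +kernel

theorem rho_sum_C : ∑ a : A (orb 16), ‖((rho 16 a : ℚ) : ℂ)‖ = 16 := by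
  have h : ∀ a : A (orb 16), ‖((rho 16 a : ℚ) : ℂ)‖ = ((|rho 16 a| : ℚ) : ℝ) := by
    intro a
    rw [show ((rho 16 a : ℚ) : ℂ) = (((rho 16 a : ℚ) : ℝ) : ℂ) by push_cast; rfl,
      Complex.norm_real, Real.norm_eq_abs]
    push_cast
    rfl
  rw [Finset.sum_congr rfl fun a _ => h a, ← Rat.cast_sum, rho_sum]
  norm_num

theorem card_A : Fintype.card (A (orb 16)) = 24 := by decide +kernel

/-- If `V ⊗ ρ_(2,2)` has multiplicity one in `p`, then there are two linearly independent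
`W`-invariants in `p ⊗ V`. -/
theorem two_inv {H : Type} [CommRing H] [Algebra ℂ H] [Module.Finite ℂ H]
    (act : W → A (orb 16) → (H →ₐ[ℂ] H)) (p : Submodule ℂ H)
    (hp : ∀ w g, ∀ x ∈ p, act w g x ∈ p) (h1 : ∀ x, act 1 1 x = x)
    (h2 : ∀ v w a b x, act (v * w) (a * b) x = act v a (act w b x))
    (h : (mult 22 16 fun w a => trOn p (act w a).toLinearMap) = 1) :
    ∃ x y : p ⊗[ℂ] (Fin 4 → ℂ), (∀ w, theta act p hp h1 h2 (w, 1) x = x) ∧
      (∀ w, theta act p hp h1 h2 (w, 1) y = y) ∧ x ≠ 0 ∧ ∀ c : ℂ, c • x ≠ y := by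
  refine two_invariants (T := p ⊗[ℂ] (Fin 4 → ℂ)) (theta act p hp h1 h2)
    (fun a => ((rho 16 a : ℚ) : ℂ)) ?_ ?_
  · rw [rho_sum_C, card_A]
    norm_num
  · unfold mult at h
    have hW : (Nat.card W : ℂ) ≠ 0 := Nat.cast_ne_zero.2 Nat.card_pos.ne'
    have hA : (Nat.card (A (orb 16)) : ℂ) ≠ 0 := Nat.cast_ne_zero.2 Nat.card_pos.ne'
    rw [div_eq_one_iff_eq (mul_ne_zero hW hA)] at h
    rw [← Nat.card_eq_fintype_card, ← Nat.card_eq_fintype_card, ← h]
    refine Finset.sum_congr rfl fun w _ => Finset.sum_congr rfl fun a _ => ?_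
    rw [trace_theta, chi_22]
    ring

theorem not_inj {H : Fin 16 → Type} [∀ e, CommRing (H e)] [∀ e, Algebra ℂ (H e)]
    {gr : (e : Fin 16) → ℕ → Submodule ℂ (H e)}
    {act : (e : Fin 16) → W → A e → (H e →ₐ[ℂ] H e)} (S : SpringerSystem H gr act) :
    ¬ PsiInjective (fun w => act (orb 16) w 1) (fun w : W => reflRep (mat w)) := by
  have := (S.action (orb 16)).finite
  refine not_inj_of (act (orb 16)) (gr (orb 16) 3) (fun w a => (S.action (orb 16)).act_mem w a 3)
    (S.action (orb 16)).act_one (S.action (orb 16)).act_mul ?_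
    (two_inv (act (orb 16)) (gr (orb 16) 3) _ _ _ (mult_one S.green))
  intro x hx y hy
  have h1 := (S.action (orb 16)).mul_mem 3 3 x y hx hy
  rw [S.vanish (orb 16) (3 + 3) (by decide)] at h1
  exact (Submodule.mem_bot ℂ).1 h1

theorem not_inj_10 {H : Fin 16 → Type} [∀ e, CommRing (H e)] [∀ e, Algebra ℂ (H e)]
    {gr : (e : Fin 16) → ℕ → Submodule ℂ (H e)}
    {act : (e : Fin 16) → W → A e → (H e →ₐ[ℂ] H e)} (S : SpringerSystem H gr act) :
    ¬ PsiInjective (fun w => act 10 w 1) (fun w : W => reflRep (mat w)) := by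
  have h : orb 16 = 10 := by decide
  have := not_inj S
  rw [h] at this
  exact this

end Pool.Agent.Lib.MP_eacc3c_al
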