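import Mathlib

/-!
# The Weyl group of type F4 and the list of its 1152 elements
-/

open scoped Matrix

namespace Pool.Agent.Lib.MP_eacc3c_al

/-- Rational `4 × 4` matrices. -/
abbrev M4 : Type := Matrix (Fin 4) (Fin 4) ℚ

/-- The simple roots `e₂ - e₃`, `e₃ - e₄` (long), `e₄`, `(e₁ - e₂ - e₃ - e₄) / 2` (short) of the
root system of type `F₄`. -/
def simpleRoot : Fin 4 → Fin 4 → ℚ :=
  ![![0, 1, -1, 0], ![0, 0, 1, -1], ![0, 0, 0, 1], ![1 / 2, -1 / 2, -1 / 2, -1 / 2]]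

/-- The matrix of the orthogonal reflection in the vector `α`. -/
def reflMatrix (α : Fin 4 → ℚ) : M4 := 1 - (2 / (α ⬝ᵥ α)) • Matrix.vecMulVec α α

/-- The Weyl group of type `F₄`: the group of matrices generated by the four simple reflections. -/
def W : Subgroup M4ˣ :=
  Subgroup.closure {u | ∃ i, (u : M4) = reflMatrix (simpleRoot i)}

/-- The matrix of an element of the Weyl group. -/
def mat (w : W) : M4 := ((w : M4ˣ) : M4)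

/-! ### Lists of integer columns -/

/-- integer vectors -/
abbrev V4 : Type := ℤ × ℤ × ℤ × ℤ
/-- four integer columns -/
abbrev Fr : Type := V4 × V4 × V4 × V4

/-- inner product -/
def ip : V4 → V4 → ℤ
  | (a, b, c, d), (a', b', c', d') => a * a' + b * b' + c * c' + d * d'

/-- twice the short roots -/
def shortL : List V4 :=
  [(2, 0, 0, 0), (-2, 0, 0, 0), (0, 2, 0, 0), (0, -2, 0, 0), (0, 0, 2, 0), (0, 0, -2, 0),
   (0, 0, 0, 2), (0, 0, 0, -2),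
   (1, 1, 1, 1), (1, 1, 1, -1), (1, 1, -1, 1), (1, 1, -1, -1),
   (1, -1, 1, 1), (1, -1, 1, -1), (1, -1, -1, 1), (1, -1, -1, -1),
   (-1, 1, 1, 1), (-1, 1, 1, -1), (-1, 1, -1, 1), (-1, 1, -1, -1),
   (-1, -1, 1, 1), (-1, -1, 1, -1), (-1, -1, -1, 1), (-1, -1, -1, -1)]

/-- orthogonality as a Boolean -/
def orth (x y : V4) : Bool := ip x y == 0

/-- all ordered orthogonal frames of (doubled) short roots -/
def frames : List Fr :=
  shortL.flatMap fun c₁ =>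
    (shortL.filter (orth c₁)).flatMap fun c₂ =>
      ((shortL.filter (orth c₁)).filter (orth c₂)).flatMap fun c₃ =>
        (((shortL.filter (orth c₁)).filter (orth c₂)).filter (orth c₃)).map fun c₄ =>
          (c₁, c₂, c₃, c₄)


/-- the identity frame -/
def idF : Fr := ((2, 0, 0, 0), (0, 2, 0, 0), (0, 0, 2, 0), (0, 0, 0, 2))

/-- the simple reflections on integer columns -/
def sCol : Fin 4 → V4 → V4
  | 0, (a, b, c, d) => (a, c, b, d)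
  | 1, (a, b, c, d) => (a, b, d, c)
  | 2, (a, b, c, d) => (a, b, c, -d)
  | 3, (a, b, c, d) =>
    let t := (a - b - c - d) / 2
    (a - t, b + t, c + t, d + t)

/-- the simple reflections on frames -/
def sAct (i : Fin 4) (f : Fr) : Fr :=
  (sCol i f.1, sCol i f.2.1, sCol i f.2.2.1, sCol i f.2.2.2)

/-- the four numbers are of even alternating sum -/
def evenB : V4 → Bool
  | (a, b, c, d) => (a - b - c - d) % 2 == 0

/-- Boolean membership in the list of frames -/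
def okB (f : Fr) : Bool :=
  shortL.contains f.1 && shortL.contains f.2.1 && shortL.contains f.2.2.1 &&
    shortL.contains f.2.2.2 &&
    orth f.1 f.2.1 && orth f.1 f.2.2.1 && orth f.2.1 f.2.2.1 &&
    orth f.1 f.2.2.2 && orth f.2.1 f.2.2.2 && orth f.2.2.1 f.2.2.2

/-- the height used for the descent -/
def mu (f : Fr) : ℤ :=
  312 - (11 * ip (11, 5, 3, 1) f.1 + 5 * ip (11, 5, 3, 1) f.2.1 + 3 * ip (11, 5, 3, 1) f.2.2.1 +
    ip (11, 5, 3, 1) f.2.2.2)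

/-- all that is checked for a frame, first part -/
def chkA (f : Fr) : Bool :=
  okB (sAct 0 f) && okB (sAct 1 f) && okB (sAct 2 f) && okB (sAct 3 f) &&
    evenB f.1 && evenB f.2.1 && evenB f.2.2.1 && evenB f.2.2.2

/-- all that is checked for a frame, second part -/
def chkB (f : Fr) : Bool :=
  decide (0 ≤ mu f) &&
    (decide (f = idF) || decide (mu (sAct 0 f) < mu f) || decide (mu (sAct 1 f) < mu f) ||
      decide (mu (sAct 2 f) < mu f) || decide (mu (sAct 3 f) < mu f))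

/-- the product of the coordinates -/
def pr4 : V4 → ℤ
  | (a, b, c, d) => a * b * c * d

/-- sum of two columns -/
def add2 : V4 → V4 → V4
  | (a, b, c, d), (a', b', c', d') => (a + a', b + b', c + c', d + d')
/-- difference of two columns -/
def sub2 : V4 → V4 → V4
  | (a, b, c, d), (a', b', c', d') => (a - a', b - b', c - c', d - d')

/-- the number of fixed frames of short roots -/
def nsI (f : Fr) : ℤ :=
  (if pr4 f.1 = 0 then 1 else 0) +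
  (if 0 < pr4 (add2 (add2 f.1 f.2.1) (add2 f.2.2.1 f.2.2.2)) then 1 else 0) +
  (if pr4 (add2 (add2 f.1 f.2.1) (sub2 f.2.2.1 f.2.2.2)) < 0 then 1 else 0)

/-- the number of fixed frames of long roots -/
def nlI (f : Fr) : ℤ :=
  (if (add2 f.1 f.2.1).1 ^ 2 = (add2 f.1 f.2.1).2.1 ^ 2 then 1 else 0) +
  (if (add2 f.1 f.2.2.1).1 ^ 2 = (add2 f.1 f.2.2.1).2.2.1 ^ 2 then 1 else 0) +
  (if (add2 f.1 f.2.2.2).1 ^ 2 = (add2 f.1 f.2.2.2).2.2.2 ^ 2 then 1 else 0)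

/-- the seven invariants of a frame -/
def invI (f : Fr) : ℤ × ℤ × ℤ × ℤ × ℤ × ℤ × ℤ :=
  match f with
  | ((a, e, i, m), (b, g, j, n), (c, h, k, p), (d, l, o, q)) =>
    -- the matrix with rows (a b c d), (e g h l), (i j k o), (m n p q)
    (a + g + k + q,
     a * a + g * g + k * k + q * q + 2 * (b * e + c * i + d * m + h * j + l * n + o * p),
     nsI ((a, e, i, m), (b, g, j, n), (c, h, k, p), (d, l, o, q)),
     nlI ((a, e, i, m), (b, g, j, n), (c, h, k, p), (d, l, o, q)),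
     (a * g - b * e) + (a * k - c * i) + (a * q - d * m) + (g * k - h * j) + (g * q - l * n) +
       (k * q - o * p),
     (a * (g * k - h * j) - b * (e * k - h * i) + c * (e * j - g * i)) +
     (a * (g * q - l * n) - b * (e * q - l * m) + d * (e * n - g * m)) +
     (a * (k * q - o * p) - c * (i * q - o * m) + d * (i * p - k * m)) +
     (g * (k * q - o * p) - h * (j * q - o * n) + l * (j * p - k * n)),
     a * (g * (k * q - o * p) - h * (j * q - o * n) + l * (j * p - k * n)) -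
     b * (e * (k * q - o * p) - h * (i * q - o * m) + l * (i * p - k * m)) +
     c * (e * (j * q - o * n) - g * (i * q - o * m) + l * (i * n - j * m)) -
     d * (e * (j * p - k * n) - g * (i * p - k * m) + h * (i * n - j * m)))

/-- the class invariants: four numbers that determine the class, and the coefficients of the
characteristic polynomial of `2 w` -/
def invT : List (ℤ × ℤ × ℤ × ℤ × ℤ × ℤ × ℤ) :=
  [(8, 16, 3, 3, 24, 32, 16),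
   (4, 16, 3, 1, 0, -16, -16),
   (4, 16, 1, 3, 0, -16, -16),
   (2, 4, 3, 0, 0, 8, 16),
   (0, 16, 1, 1, -8, 0, 16),
   (4, 0, 1, 1, 8, 16, 16),
   (2, 4, 0, 3, 0, 8, 16),
   (2, 4, 1, 0, 0, -8, -16),
   (-2, 4, 1, 0, 0, 8, -16),
   (-2, 4, 0, 1, 0, 8, -16),
   (2, 4, 0, 1, 0, -8, -16),
   (0, 8, 0, 0, -4, 0, 16),
   (0, 16, 3, 3, -8, 0, 16),
   (0, 0, 3, 1, 0, 0, -16),
   (0, 0, 1, 3, 0, 0, -16),
   (0, 0, 1, 1, 0, 0, 16),
   (4, -8, 0, 0, 12, 16, 16),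
   (-4, 16, 1, 3, 0, 16, -16),
   (-4, 16, 3, 1, 0, 16, -16),
   (-2, 4, 0, 3, 0, -8, 16),
   (-2, 4, 3, 0, 0, -8, 16),
   (0, -16, 3, 3, 8, 0, 16),
   (-4, 0, 1, 1, 8, -16, 16),
   (-4, -8, 0, 0, 12, -16, 16),
   (-8, 16, 3, 3, 24, -32, 16)]
/-- the class sizes -/
def sizes : List ℤ := [1, 12, 12, 32, 72, 36, 32, 96, 96, 96, 96, 96, 18, 72, 72, 144, 16, 12, 12, 32, 32, 12, 36, 16, 1]
/-- the classes of the 1152 frames -/
def labs : List ℕ :=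
  [0, 2, 2, 12, 1, 5, 5, 1, 2, 12, 12, 17, 4, 13, 13, 4, 1, 4, 5, 13, 3, 7, 7, 3, 5, 13, 1, 4, 7,
   3, 3, 7, 3, 7, 7, 3, 1, 5, 4, 13, 7, 3, 3, 7, 5, 1, 13, 4, 2, 12, 12, 17, 4, 13, 13, 4, 12, 17,
   17, 24, 18, 22, 22, 18, 4, 18, 13, 22, 8, 20, 20, 8, 13, 22, 4, 18, 20, 8, 8, 20, 8, 20, 20, 8,
   4, 13, 18, 22, 20, 8, 8, 20, 13, 4, 22, 18, 1, 4, 4, 18, 12, 14, 14, 12, 5, 13, 13, 22, 14, 21,
   21, 14, 3, 8, 7, 20, 13, 15, 15, 13, 7, 20, 3, 8, 15, 13, 13, 15, 13, 15, 15, 13, 3, 7, 8, 20,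
   15, 13, 13, 15, 7, 3, 20, 8, 5, 13, 13, 22, 14, 21, 21, 14, 1, 4, 4, 18, 12, 14, 14, 12, 7, 20,
   3, 8, 15, 13, 13, 15, 3, 8, 7, 20, 13, 15, 15, 13, 15, 13, 13, 15, 7, 3, 20, 8, 13, 15, 15, 13,
   3, 7, 8, 20, 3, 8, 7, 20, 13, 15, 15, 13, 7, 20, 3, 8, 15, 13, 13, 15, 1, 4, 5, 13, 3, 7, 7, 3,
   4, 18, 13, 22, 8, 20, 20, 8, 12, 14, 14, 21, 13, 15, 15, 13, 14, 12, 21, 14, 15, 13, 13, 15, 7,
   20, 3, 8, 15, 13, 13, 15, 3, 8, 7, 20, 13, 15, 15, 13, 5, 13, 1, 4, 7, 3, 3, 7, 13, 22, 4, 18,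
   20, 8, 8, 20, 14, 21, 12, 14, 15, 13, 13, 15, 21, 14, 14, 12, 13, 15, 15, 13, 13, 15, 15, 13, 3,
   7, 8, 20, 15, 13, 13, 15, 7, 3, 20, 8, 3, 7, 7, 3, 1, 5, 4, 13, 8, 20, 20, 8, 4, 13, 18, 22, 13,
   15, 15, 13, 12, 14, 14, 21, 15, 13, 13, 15, 14, 21, 12, 14, 15, 13, 13, 15, 7, 3, 20, 8, 13, 15,
   15, 13, 3, 7, 8, 20, 7, 3, 3, 7, 5, 1, 13, 4, 20, 8, 8, 20, 13, 4, 22, 18, 15, 13, 13, 15, 14,
   12, 21, 14, 13, 15, 15, 13, 21, 14, 14, 12, 2, 6, 4, 10, 10, 5, 6, 14, 4, 9, 8, 11, 11, 7, 10,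
   15, 8, 11, 4, 10, 9, 15, 11, 7, 11, 7, 10, 5, 15, 10, 7, 16, 10, 15, 11, 7, 7, 16, 5, 10, 6, 14,
   9, 15, 15, 10, 14, 19, 6, 2, 10, 4, 5, 10, 14, 6, 9, 4, 11, 8, 7, 11, 15, 10, 11, 8, 10, 4, 15,
   9, 7, 11, 7, 11, 5, 10, 10, 15, 16, 7, 15, 10, 7, 11, 16, 7, 10, 5, 14, 6, 15, 9, 10, 15, 19,
   14, 10, 5, 6, 14, 2, 6, 4, 10, 11, 7, 9, 15, 4, 10, 8, 11, 10, 15, 11, 7, 8, 11, 4, 9, 5, 10, 7,
   16, 11, 7, 10, 15, 7, 16, 15, 10, 10, 5, 11, 7, 15, 10, 14, 19, 6, 14, 9, 15, 5, 10, 14, 6, 6,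
   2, 10, 4, 7, 11, 15, 9, 10, 4, 11, 8, 15, 10, 7, 11, 11, 8, 9, 4, 10, 5, 16, 7, 7, 11, 15, 10,
   16, 7, 10, 15, 5, 10, 7, 11, 10, 15, 19, 14, 14, 6, 15, 9, 11, 7, 10, 15, 5, 10, 7, 16, 10, 5,
   11, 7, 7, 16, 15, 10, 6, 14, 9, 15, 15, 10, 14, 19, 2, 6, 4, 10, 10, 5, 6, 14, 4, 10, 8, 11, 11,
   7, 9, 15, 8, 11, 4, 9, 10, 15, 11, 7, 7, 11, 15, 10, 10, 5, 16, 7, 5, 10, 7, 11, 16, 7, 10, 15,
   14, 6, 15, 9, 10, 15, 19, 14, 6, 2, 10, 4, 5, 10, 14, 6, 10, 4, 11, 8, 7, 11, 15, 9, 11, 8, 9,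
   4, 15, 10, 7, 11, 15, 10, 7, 16, 11, 7, 10, 5, 7, 16, 5, 10, 10, 15, 11, 7, 15, 10, 14, 19, 6,
   14, 9, 15, 10, 5, 6, 14, 2, 6, 4, 10, 11, 7, 10, 15, 4, 9, 8, 11, 9, 15, 11, 7, 8, 11, 4, 10,
   10, 15, 16, 7, 7, 11, 5, 10, 16, 7, 10, 5, 15, 10, 7, 11, 10, 15, 19, 14, 14, 6, 15, 9, 5, 10,
   14, 6, 6, 2, 10, 4, 7, 11, 15, 10, 9, 4, 11, 8, 15, 9, 7, 11, 11, 8, 10, 4, 4, 9, 7, 11, 11, 8,
   10, 15, 7, 11, 4, 10, 9, 15, 11, 8, 4, 9, 17, 19, 19, 14, 9, 22, 10, 15, 19, 14, 14, 6, 15, 9,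
   11, 8, 9, 15, 22, 9, 8, 23, 9, 22, 11, 8, 8, 23, 15, 9, 9, 4, 11, 7, 8, 11, 15, 10, 11, 7, 10,
   4, 15, 9, 8, 11, 9, 4, 19, 17, 14, 19, 22, 9, 15, 10, 14, 19, 6, 14, 9, 15, 8, 11, 15, 9, 9, 22,
   23, 8, 22, 9, 8, 11, 23, 8, 9, 15, 11, 8, 9, 15, 4, 10, 7, 11, 10, 15, 11, 8, 7, 11, 4, 9, 19,
   14, 9, 22, 4, 9, 17, 19, 14, 6, 15, 9, 10, 15, 19, 14, 15, 9, 8, 23, 11, 8, 9, 22, 8, 23, 22, 9,
   9, 15, 11, 8, 8, 11, 15, 9, 10, 4, 11, 7, 15, 10, 8, 11, 11, 7, 9, 4, 14, 19, 22, 9, 9, 4, 19,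
   17, 6, 14, 9, 15, 15, 10, 14, 19, 9, 15, 23, 8, 8, 11, 22, 9, 23, 8, 9, 22, 15, 9, 8, 11, 10,
   15, 19, 14, 14, 6, 15, 9, 11, 8, 9, 22, 15, 9, 8, 23, 9, 15, 11, 8, 8, 23, 22, 9, 4, 10, 7, 11,
   11, 8, 9, 15, 7, 11, 4, 9, 10, 15, 11, 8, 4, 9, 17, 19, 19, 14, 9, 22, 15, 10, 14, 19, 6, 14, 9,
   15, 8, 11, 22, 9, 9, 15, 23, 8, 15, 9, 8, 11, 23, 8, 9, 22, 10, 4, 11, 7, 8, 11, 15, 9, 11, 7,
   9, 4, 15, 10, 8, 11, 9, 4, 19, 17, 14, 19, 22, 9, 14, 6, 15, 9, 10, 15, 19, 14, 22, 9, 8, 23,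
   11, 8, 9, 15, 8, 23, 15, 9, 9, 22, 11, 8, 11, 8, 10, 15, 4, 9, 7, 11, 9, 15, 11, 8, 7, 11, 4,
   10, 19, 14, 9, 22, 4, 9, 17, 19, 6, 14, 9, 15, 15, 10, 14, 19, 9, 22, 23, 8, 8, 11, 15, 9, 23,
   8, 9, 15, 22, 9, 8, 11, 8, 11, 15, 10, 9, 4, 11, 7, 15, 9, 8, 11, 11, 7, 10, 4, 14, 19, 22, 9,
   9, 4, 19, 17]

/-- index of the class of a frame -/
def labOf (f : Fr) : ℕ := invT.findIdx fun t => t == invI f

theorem frames_length : frames.length = 1152 := by decide +kernel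

theorem chkA_all : frames.all chkA = true := by decide +kernel

theorem chkB_all : frames.all chkB = true := by decide +kernel

theorem labs_eq : frames.map labOf = labs := by decide +kernel

theorem labs_count : (List.range 25).map (fun c => (labs.count c : ℤ)) = sizes := by
  decide +kernel

end Pool.Agent.Lib.MP_eacc3c_al
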