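import Pool.Agent.Lib.MP_eacc3c_al.Grp

/-!
# The Weyl group of type F4 and the list of its 1152 elements, II
-/

open scoped Matrix

namespace Pool.Agent.Lib.MP_eacc3c_al

/-! ### Membership in the list of frames -/

theorem mem_frames (f : Fr) : f ∈ frames ↔ okB f = true := by
  obtain ⟨c₁, c₂, c₃, c₄⟩ := f
  simp only [frames, List.mem_flatMap, List.mem_filter, List.mem_map, okB, Bool.and_eq_true,
    List.contains_iff_mem]
  constructor
  · rintro ⟨a, ha, b, ⟨hb, hab⟩, c, ⟨⟨hc, hac⟩, hbc⟩, d, ⟨⟨⟨hd, had⟩, hbd⟩, hcd⟩, h⟩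
    simp only [Prod.mk.injEq] at h
    obtain ⟨rfl, rfl, rfl, rfl⟩ := h
    exact ⟨⟨⟨⟨⟨⟨⟨⟨⟨ha, hb⟩, hc⟩, hd⟩, hab⟩, hac⟩, hbc⟩, had⟩, hbd⟩, hcd⟩
  · rintro ⟨⟨⟨⟨⟨⟨⟨⟨⟨ha, hb⟩, hc⟩, hd⟩, hab⟩, hac⟩, hbc⟩, had⟩, hbd⟩, hcd⟩
    exact ⟨_, ha, _, ⟨hb, hab⟩, _, ⟨⟨hc, hac⟩, hbc⟩, _, ⟨⟨⟨hd, had⟩, hbd⟩, hcd⟩, rfl⟩

theorem shortL_nodup : shortL.Nodup := by decide +kernel

theorem frames_nodup : frames.Nodup := by
  unfold frames
  have hd : ∀ (l : List V4) (g : V4 → List Fr), l.Nodup → (∀ x ∈ l, (g x).Nodup) →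
      (∀ x ∈ l, ∀ y ∈ l, x ≠ y → List.Disjoint (g x) (g y)) → (l.flatMap g).Nodup := by
    intro l g h1 h2 h3
    rw [List.nodup_flatMap]
    refine ⟨h2, ?_⟩
    refine h1.pairwise_of_forall_ne ?_
    intro a ha b hb hab
    exact h3 a ha b hb hab
  refine hd _ _ shortL_nodup (fun c₁ _ => hd _ _ (shortL_nodup.filter _) (fun c₂ _ =>
    hd _ _ ((shortL_nodup.filter _).filter _) (fun c₃ _ => ?_) ?_) ?_) ?_
  · exact (((shortL_nodup.filter _).filter _).filter _).map (fun x y h => by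
      simp only [Prod.mk.injEq, true_and] at h
      exact h)
  · intro x _ y _ hxy z hz hz'
    simp only [List.mem_map] at hz hz'
    obtain ⟨a, _, rfl⟩ := hz
    obtain ⟨b, _, h⟩ := hz'
    simp only [Prod.mk.injEq, true_and] at h
    exact hxy h.1.symm
  · intro x _ y _ hxy z hz hz'
    simp only [List.mem_map, List.mem_flatMap] at hz hz'
    obtain ⟨a, _, a', _, rfl⟩ := hz
    obtain ⟨b, _, b', _, h⟩ := hz'
    simp only [Prod.mk.injEq, true_and] at h
    exact hxy h.1.symm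
  · intro x _ y _ hxy z hz hz'
    simp only [List.mem_map, List.mem_flatMap] at hz hz'
    obtain ⟨a, _, a', _, a'', _, rfl⟩ := hz
    obtain ⟨b, _, b', _, b'', _, h⟩ := hz'
    simp only [Prod.mk.injEq] at h
    exact hxy h.1.symm

theorem sAct_mem {f : Fr} (hf : f ∈ frames) (i : Fin 4) : sAct i f ∈ frames := by
  have h := List.all_eq_true.1 chkA_all f hf
  simp only [chkA, Bool.and_eq_true] at h
  rw [mem_frames]
  obtain ⟨⟨⟨⟨⟨⟨⟨h0, h1⟩, h2⟩, h3⟩, _⟩, _⟩, _⟩, _⟩ := h
  fin_cases i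
  · exact h0
  · exact h1
  · exact h2
  · exact h3

/-- the entry `i` of a column -/
def ent : V4 → Fin 4 → ℤ
  | (a, b, c, d) => ![a, b, c, d]

/-- the columns of a frame -/
def col : Fr → Fin 4 → V4
  | (a, b, c, d) => ![a, b, c, d]

/-- the rational matrix of a frame -/
def toMat (f : Fr) : M4 := Matrix.of fun i j => ((ent (col f j) i : ℤ) : ℚ) / 2

theorem evenB_iff (v : V4) : evenB v = true ↔ (v.1 - v.2.1 - v.2.2.1 - v.2.2.2) % 2 = 0 := by
  obtain ⟨a, b, c, d⟩ := v
  simp [evenB]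

theorem even_col {f : Fr} (hf : f ∈ frames) (j : Fin 4) : evenB (col f j) = true := by
  have h := List.all_eq_true.1 chkA_all f hf
  simp only [chkA, Bool.and_eq_true] at h
  obtain ⟨⟨⟨⟨_, h0⟩, h1⟩, h2⟩, h3⟩ := h
  obtain ⟨c₁, c₂, c₃, c₄⟩ := f
  fin_cases j
  · exact h0
  · exact h1
  · exact h2
  · exact h3

theorem col_sAct (i : Fin 4) (f : Fr) (j : Fin 4) : col (sAct i f) j = sCol i (col f j) := by
  obtain ⟨c₁, c₂, c₃, c₄⟩ := f
  fin_cases j <;> rfl

/-- the reflection applied to a column -/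
theorem refl_col (i : Fin 4) (v : V4) (hv : evenB v = true) (k : Fin 4) :
    ∑ l, reflMatrix (simpleRoot i) k l * (((ent v l : ℤ) : ℚ) / 2) =
      ((ent (sCol i v) k : ℤ) : ℚ) / 2 := by
  obtain ⟨a, b, c, d⟩ := v
  rw [evenB_iff] at hv
  simp only at hv
  obtain ⟨t, ht⟩ : ∃ t, a - b - c - d = 2 * t := ⟨(a - b - c - d) / 2, by omega⟩
  have ht' : (a - b - c - d) / 2 = t := by omega
  have hq : (t : ℚ) = ((a : ℚ) - b - c - d) / 2 := by
    have : ((a - b - c - d : ℤ) : ℚ) = ((2 * t : ℤ) : ℚ) := by rw [ht]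
    push_cast at this
    linarith
  fin_cases i <;> fin_cases k <;>
    simp [Fin.sum_univ_succ, reflMatrix, simpleRoot, ent, sCol, Matrix.vecMulVec_apply,
      Matrix.one_apply, dotProduct, ht', hq] <;> ring

theorem refl_toMat (i : Fin 4) {f : Fr} (hf : f ∈ frames) :
    reflMatrix (simpleRoot i) * toMat f = toMat (sAct i f) := by
  ext k j
  rw [Matrix.mul_apply]
  simp only [toMat, Matrix.of_apply, col_sAct]
  exact refl_col i (col f j) (even_col hf j) k

theorem refl_sq (i : Fin 4) : reflMatrix (simpleRoot i) * reflMatrix (simpleRoot i) = 1 := by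
  ext k j
  rw [Matrix.mul_apply]
  fin_cases i <;> fin_cases k <;> fin_cases j <;>
    simp [Fin.sum_univ_succ, reflMatrix, simpleRoot, Matrix.vecMulVec_apply,
      Matrix.one_apply, dotProduct] <;> norm_num

/-- the reflection as a unit -/
def rU (i : Fin 4) : M4ˣ :=
  ⟨reflMatrix (simpleRoot i), reflMatrix (simpleRoot i), refl_sq i, refl_sq i⟩

theorem rU_mem (i : Fin 4) : rU i ∈ W := Subgroup.subset_closure ⟨i, rfl⟩

theorem idF_mem : idF ∈ frames := by
  rw [mem_frames]
  decide +kernel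

theorem toMat_idF : toMat idF = 1 := by
  ext i j
  fin_cases i <;> fin_cases j <;> simp [toMat, idF, ent, col, Matrix.one_apply]

theorem toMat_inj {f g : Fr} (h : toMat f = toMat g) : f = g := by
  have h' : ∀ i j, ent (col f j) i = ent (col g j) i := by
    intro i j
    have := congrFun (congrFun h i) j
    simp only [toMat, Matrix.of_apply] at this
    have h2 : ((ent (col f j) i : ℤ) : ℚ) = ((ent (col g j) i : ℤ) : ℚ) := by linarith
    exact_mod_cast h2
  obtain ⟨⟨a1, a2, a3, a4⟩, ⟨b1, b2, b3, b4⟩, ⟨c1, c2, c3, c4⟩, ⟨d1, d2, d3, d4⟩⟩ := f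
  obtain ⟨⟨a1', a2', a3', a4'⟩, ⟨b1', b2', b3', b4'⟩, ⟨c1', c2', c3', c4'⟩,
    ⟨d1', d2', d3', d4'⟩⟩ := g
  have e1 := h' 0 0; have e2 := h' 1 0; have e3 := h' 2 0; have e4 := h' 3 0
  have e5 := h' 0 1; have e6 := h' 1 1; have e7 := h' 2 1; have e8 := h' 3 1
  have e9 := h' 0 2; have e10 := h' 1 2; have e11 := h' 2 2; have e12 := h' 3 2
  have e13 := h' 0 3; have e14 := h' 1 3; have e15 := h' 2 3; have e16 := h' 3 3
  simp only [ent, col, Matrix.cons_val] at e1 e2 e3 e4 e5 e6 e7 e8 e9 e10 e11 e12 e13 e14 e15 e16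
  subst e1 e2 e3 e4 e5 e6 e7 e8 e9 e10 e11 e12 e13 e14 e15 e16
  rfl

/-- every element of the Weyl group is the matrix of a frame -/
theorem exists_frame (w : W) : ∃ f ∈ frames, mat w = toMat f := by
  obtain ⟨u, hu⟩ := w
  show ∃ f ∈ frames, (u : M4) = toMat f
  unfold W at hu
  induction hu using Subgroup.closure_induction_left with
  | one => exact ⟨idF, idF_mem, by rw [toMat_idF]; rfl⟩
  | mul_left x hx y hy ih =>
    obtain ⟨i, hi⟩ := hx
    obtain ⟨f, hf, h⟩ := ih
    exact ⟨sAct i f, sAct_mem hf i, by rw [Units.val_mul, hi, h, refl_toMat i hf]⟩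
  | inv_mul_cancel x hx y hy ih =>
    obtain ⟨i, hi⟩ := hx
    obtain ⟨f, hf, h⟩ := ih
    have hxi : x = rU i := Units.ext hi
    have hinv : ((x⁻¹ : M4ˣ) : M4) = reflMatrix (simpleRoot i) := by rw [hxi]; rfl
    exact ⟨sAct i f, sAct_mem hf i, by rw [Units.val_mul, hinv, h, refl_toMat i hf]⟩

/-- every frame is the matrix of an element of the Weyl group -/
theorem exists_elt (n : ℕ) : ∀ f ∈ frames, (mu f).toNat = n → ∃ w : W, mat w = toMat f := by
  induction n using Nat.strong_induction_on with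
  | _ n ih =>
    intro f hf hn
    have h := List.all_eq_true.1 chkB_all f hf
    simp only [chkB, Bool.and_eq_true, Bool.or_eq_true, decide_eq_true_eq] at h
    obtain ⟨h0, h1⟩ := h
    have hk : ∀ i : Fin 4, mu (sAct i f) < mu f → ∃ w : W, mat w = toMat f := by
      intro i hi
      have hs := List.all_eq_true.1 chkB_all (sAct i f) (sAct_mem hf i)
      simp only [chkB, Bool.and_eq_true, Bool.or_eq_true, decide_eq_true_eq] at hs
      obtain ⟨w, hw⟩ := ih (mu (sAct i f)).toNat (by have := hs.1; omega) (sAct i f)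
        (sAct_mem hf i) rfl
      refine ⟨⟨rU i, rU_mem i⟩ * w, ?_⟩
      show reflMatrix (simpleRoot i) * mat w = toMat f
      rw [hw, ← refl_toMat i hf, ← Matrix.mul_assoc, refl_sq, Matrix.one_mul]
    rcases h1 with (((h1 | h1) | h1) | h1) | h1
    · refine ⟨1, ?_⟩
      rw [h1, toMat_idF]
      rfl
    · exact hk 0 h1
    · exact hk 1 h1
    · exact hk 2 h1
    · exact hk 3 h1

/-- the frame of an element -/
noncomputable def fr (w : W) : Fr := (exists_frame w).choose

theorem fr_mem (w : W) : fr w ∈ frames := (exists_frame w).choose_spec.1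

theorem mat_eq (w : W) : mat w = toMat (fr w) := (exists_frame w).choose_spec.2

theorem mat_inj : Function.Injective mat := fun _ _ h => Subtype.ext (Units.ext h)

theorem fr_inj : Function.Injective fr := fun a b h =>
  mat_inj (by rw [mat_eq a, mat_eq b, h])

theorem fr_surj {f : Fr} (hf : f ∈ frames) : ∃ w : W, fr w = f := by
  obtain ⟨w, hw⟩ := exists_elt _ f hf rfl
  exact ⟨w, toMat_inj (by rw [← mat_eq, hw])⟩

instance : Finite W := by
  classical
  exact Finite.of_injective (fun w : W => (⟨fr w, List.mem_toFinset.2 (fr_mem w)⟩ :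
    {f // f ∈ frames.toFinset})) fun a b h => fr_inj (congrArg Subtype.val h)

noncomputable instance : Fintype W := Fintype.ofFinite W

/-- sums over the Weyl group are sums over the list of frames -/
theorem sum_W {R : Type*} [AddCommMonoid R] (F : Fr → R) :
    ∑ w : W, F (fr w) = (frames.map F).sum := by
  classical
  rw [← List.sum_toFinset _ frames_nodup]
  have h : frames.toFinset = Finset.univ.image fr := by
    ext f
    rw [List.mem_toFinset, Finset.mem_image]
    constructor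
    · intro hf
      obtain ⟨w, hw⟩ := fr_surj hf
      exact ⟨w, Finset.mem_univ _, hw⟩
    · rintro ⟨w, _, rfl⟩
      exact fr_mem w
  rw [h, Finset.sum_image (fun a _ b _ h => fr_inj h)]

theorem labs_lt : ∀ x ∈ labs, x < 25 := by decide +kernel

/-- sums of class functions -/
theorem sum_lab {R : Type*} [CommRing R] (F : ℕ → R) :
    ∑ w : W, F (labOf (fr w)) = ∑ c ∈ Finset.range 25, ((sizes.getD c 0 : ℤ) : R) * F c := by
  classical
  rw [sum_W (fun f => F (labOf f))]
  have h1 : frames.map (fun f => F (labOf f)) = labs.map F := by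
    rw [← labs_eq, List.map_map]
    rfl
  rw [h1, Finset.sum_list_map_count]
  have h2 : labs.toFinset ⊆ Finset.range 25 := fun x hx =>
    Finset.mem_range.2 (labs_lt x (List.mem_toFinset.1 hx))
  rw [Finset.sum_subset h2 (fun x _ hx => by
    rw [List.count_eq_zero_of_not_mem (fun h => hx (List.mem_toFinset.2 h)), zero_smul])]
  refine Finset.sum_congr rfl fun c hc => ?_
  have h3 : (sizes.getD c 0 : ℤ) = (labs.count c : ℤ) := by
    rw [← labs_count]
    have : c < 25 := Finset.mem_range.1 hc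
    simp [List.getD_eq_getElem?_getD, List.getElem?_map, List.getElem?_range this]
  rw [h3, nsmul_eq_mul]
  push_cast
  rfl

end Pool.Agent.Lib.MP_eacc3c_al
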