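import Mathlib

/-!
# Uniqueness of the block factorization
-/

namespace Pool.Agent.Lib.MP_eacc3c_al

open scoped Matrix

/-- Uniqueness of the factorization `P Λ Pᵗ` with `P` block lower triangular with scalar diagonal
blocks and `Λ` block diagonal; `Λ₀` has a right inverse up to a diagonal matrix. -/
theorem ldl_unique {K : Type*} [Field K] {n : ℕ} (b : Fin n → ℕ) (d : Fin n → K)
    (hd : ∀ i, d i ≠ 0)
    (P P₀ L L₀ : Matrix (Fin n) (Fin n) K)
    (hP : ∀ i j, b i < b j → P i j = 0) (hP' : ∀ i j, b i = b j → P i j = if i = j then d j else 0)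
    (hP₀ : ∀ i j, b i < b j → P₀ i j = 0)
    (hP₀' : ∀ i j, b i = b j → P₀ i j = if i = j then d j else 0)
    (hL : ∀ i j, b i ≠ b j → L i j = 0) (hL₀ : ∀ i j, b i ≠ b j → L₀ i j = 0)
    (M : Matrix (Fin n) (Fin n) K) (D : Fin n → K) (hD : ∀ i, D i ≠ 0)
    (hM : L₀ * M = Matrix.diagonal D)
    (h : P * L * Pᵀ = P₀ * L₀ * P₀ᵀ) : P = P₀ := by
  classical
  have key : ∀ N : ℕ, ∀ j, b j < N → (∀ i, P i j = P₀ i j) ∧ ∀ k, L k j = L₀ k j := by
    intro N
    induction N with
    | zero => intro j hj; exact absurd hj (Nat.not_lt_zero _)
    | succ N ih =>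
      intro j0 hj0
      rcases Nat.lt_succ_iff_lt_or_eq.1 hj0 with hlt | hj0N
      · exact ih j0 hlt
      -- the products on the columns of the block
      have hcol : ∀ j, b j = N → ∀ i, (P * L) i j = (P₀ * L₀) i j := by
        intro j hj i
        have h1 := congrFun (congrFun h i) j
        rw [Matrix.mul_apply, Matrix.mul_apply] at h1
        simp only [Matrix.transpose_apply] at h1
        have e : ∀ l, (P * L) i l * P j l - (P₀ * L₀) i l * P₀ j l =
            if l = j then ((P * L) i j - (P₀ * L₀) i j) * d j else 0 := by
          intro l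
          rcases lt_trichotomy (b l) N with hl | hl | hl
          · obtain ⟨hPl, hLl⟩ := ih l hl
            have hne : l ≠ j := fun hc => by rw [hc, hj] at hl; exact lt_irrefl _ hl
            rw [if_neg hne]
            have e1 : (P * L) i l = (P₀ * L₀) i l := by
              rw [Matrix.mul_apply, Matrix.mul_apply]
              refine Finset.sum_congr rfl fun k _ => ?_
              by_cases hk : b k = b l
              · rw [hLl k, (ih k (by omega)).1 i]
              · rw [hL k l hk, hL₀ k l hk, mul_zero, mul_zero]
            rw [e1, hPl j, sub_self]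
          · rw [hP' j l (hj.trans hl.symm), hP₀' j l (hj.trans hl.symm)]
            by_cases hjl : j = l
            · subst hjl
              rw [if_pos rfl, if_pos rfl]
              ring
            · rw [if_neg hjl, if_neg (fun hc => hjl hc.symm)]
              ring
          · rw [hP j l (by omega), hP₀ j l (by omega), if_neg (fun hc => by
              rw [hc, hj] at hl; exact lt_irrefl _ hl)]
            ring
        have h2 : ∑ l, ((P * L) i l * P j l - (P₀ * L₀) i l * P₀ j l) = 0 := by
          rw [Finset.sum_sub_distrib, h1, sub_self]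
        simp only [e] at h2
        rw [Finset.sum_ite_eq' Finset.univ j, if_pos (Finset.mem_univ _)] at h2
        have h3 := (mul_eq_zero.1 h2).resolve_right (hd j)
        exact sub_eq_zero.1 h3
      have hLb : ∀ j, b j = N → ∀ k, L k j = L₀ k j := by
        intro j hj k
        by_cases hk : b k = b j
        · have h1 := hcol j hj k
          have e1 : ∀ (Q R : Matrix (Fin n) (Fin n) K),
              (∀ i j, b i < b j → Q i j = 0) →
              (∀ i j, b i = b j → Q i j = if i = j then d j else 0) →
              (∀ i j, b i ≠ b j → R i j = 0) → (Q * R) k j = d k * R k j := by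
            intro Q R hQ hQ' hR
            rw [Matrix.mul_apply, Finset.sum_eq_single k]
            · rw [hQ' k k rfl, if_pos rfl]
            · intro l _ hlk
              by_cases hl : b l = b j
              · rw [hQ' k l (hk.trans hl.symm), if_neg (fun hc => hlk hc.symm), zero_mul]
              · rw [hR l j hl, mul_zero]
            · intro hc
              exact absurd (Finset.mem_univ _) hc
          rw [e1 P L hP hP' hL, e1 P₀ L₀ hP₀ hP₀' hL₀] at h1
          exact mul_left_cancel₀ (hd k) h1
        · rw [hL k j hk, hL₀ k j hk]
      refine ⟨fun i => ?_, hLb j0 hj0N⟩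
      -- `∑_k (P - P₀) i k * L₀ k j = 0` for `j` in the block
      have h4 : ∀ j, b j = N → ∑ k, (if b k = N then P i k - P₀ i k else 0) * L₀ k j = 0 := by
        intro j hj
        have h1 := hcol j hj i
        rw [Matrix.mul_apply, Matrix.mul_apply] at h1
        have h5 : ∑ k, (P i k * L k j - P₀ i k * L₀ k j) = 0 := by
          rw [Finset.sum_sub_distrib, h1, sub_self]
        rw [← h5]
        refine Finset.sum_congr rfl fun k _ => ?_
        by_cases hk : b k = N
        · rw [if_pos hk, hLb j hj k]
          ring
        · rw [if_neg hk, hL k j (by rw [hj]; exact hk), hL₀ k j (by rw [hj]; exact hk)]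
          ring
      have h6 : ∀ j, ∑ k, (if b k = N then P i k - P₀ i k else 0) * L₀ k j = 0 := by
        intro j
        by_cases hj : b j = N
        · exact h4 j hj
        · refine Finset.sum_eq_zero fun k _ => ?_
          by_cases hk : b k = N
          · rw [hL₀ k j (by rw [hk]; exact fun hc => hj hc.symm), mul_zero]
          · rw [if_neg hk, zero_mul]
      have h7 : (if b j0 = N then P i j0 - P₀ i j0 else 0) * D j0 = 0 := by
        have e2 : ∀ k, (if b k = N then P i k - P₀ i k else 0) * (L₀ * M) k j0 =
            ∑ j, (if b k = N then P i k - P₀ i k else 0) * L₀ k j * M j j0 := by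
          intro k
          rw [Matrix.mul_apply, Finset.mul_sum]
          exact Finset.sum_congr rfl fun j _ => by ring
        have e3 : ∑ k, (if b k = N then P i k - P₀ i k else 0) * (L₀ * M) k j0 = 0 := by
          simp only [e2]
          rw [Finset.sum_comm]
          refine Finset.sum_eq_zero fun j _ => ?_
          rw [← Finset.sum_mul, h6 j, zero_mul]
        rw [hM, Finset.sum_eq_single j0 (fun k _ hk => by
            rw [Matrix.diagonal_apply_ne _ hk, mul_zero])
          (fun hc => absurd (Finset.mem_univ _) hc), Matrix.diagonal_apply_eq] at e3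
        exact e3
      rw [if_pos hj0N] at h7
      exact sub_eq_zero.1 ((mul_eq_zero.1 h7).resolve_right (hD j0))
  ext i j
  exact (key (b j + 1) j (Nat.lt_succ_self _)).1 i

end Pool.Agent.Lib.MP_eacc3c_al
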