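import Pool.Agent.Lib.MP_eacc3c_al.Cls
import Pool.Agent.Lib.MP_eacc3c_al.Ldl

/-!
# The matrix of the graded multiplicities is determined
-/

open scoped Matrix

namespace Pool.Agent.Lib.MP_eacc3c_al

/-- the block matrices which are inverse to `Λ` up to a diagonal matrix -/
def adjT : List (List (List ℤ)) :=
  [[[1], [], [], [], [], [], [], [], [], [], [], [], [], [], [], [], [], [], [], [], [], [], [],
    [], []],
   [[], [1], [], [], [], [], [], [], [], [], [], [], [], [], [], [], [], [], [], [], [], [], [],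
    [], []],
   [[], [], [0, 0, 0, 0, 0, 0, -1, 0, 0, 0, -1, 0, 0, 0, 0, 0, 0, 0, 1, 0, 0, 0, 1], [0, 0, 0, 1,
    0, 0, 0, 1, 0, 0, 0, 0, 0, 0, 0, -1, 0, 0, 0, -1], [], [], [], [], [], [], [], [], [], [], [],
    [], [], [], [], [], [], [], [], [], []],
   [[], [], [0, 0, 0, 1, 0, 0, 0, 1, 0, 0, 0, 0, 0, 0, 0, -1, 0, 0, 0, -1], [0, 0, 0, 0, 0, 0,
    -1, 0, 0, 0, -1, 0, 0, 0, 0, 0, 0, 0, 1, 0, 0, 0, 1], [], [], [], [], [], [], [], [], [], [],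
    [], [], [], [], [], [], [], [], [], [], []],
   [[], [], [], [], [1], [], [], [], [], [], [], [], [], [], [], [], [], [], [], [], [], [], [],
    [], []],
   [[], [], [], [], [], [0, 0, 0, 0, 0, 0, 0, 0, 0, 0, 1, 0, 0, 0, 0, 0, 0, 0, -1, 0, 0, 0, -1,
    0, 0, 0, 0, 0, 0, 0, 1], [0, 0, 0, 0, 0, 0, 0, -1, 0, 0, 0, 0, 0, 0, 0, 1, 0, 0, 0, 1, 0, 0,
    0, 0, 0, 0, 0, -1], [], [], [], [], [], [], [], [], [], [], [], [], [], [], [], [], [], []],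
   [[], [], [], [], [], [0, 0, 0, 0, 0, 0, 0, -1, 0, 0, 0, 0, 0, 0, 0, 1, 0, 0, 0, 1, 0, 0, 0, 0,
    0, 0, 0, -1], [0, 0, 0, 0, 0, 0, 0, 0, 0, 0, 1, 0, 0, 0, 0, 0, 0, 0, -1, 0, 0, 0, -1, 0, 0, 0,
    0, 0, 0, 0, 1], [], [], [], [], [], [], [], [], [], [], [], [], [], [], [], [], [], []],
   [[], [], [], [], [], [], [], [1], [], [], [], [], [], [], [], [], [], [], [], [], [], [], [],
    [], []],
   [[], [], [], [], [], [], [], [], [1], [], [], [], [], [], [], [], [], [], [], [], [], [], [],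
    [], []],
   [[], [], [], [], [], [], [], [], [], [0, 0, 0, 0, 0, 0, 0, 0, 0, 0, 0, 0, 0, 0, 1, 0, 0, 0, 1,
    0, -1, 0, 0, 0, -1, 0, -1, 0, 0, 0, -1, 0, 1, 0, 0, 0, 1], [0, 0, 0, 0, 0, 0, 0, 0, 0, 0, 0,
    0, -1, 0, 0, 0, -1, 0, 1, 0, 0, 0, 1, 0, 1, 0, 0, 0, 1, 0, -1, 0, 0, 0, -1], [], [], [], [],
    [], [], [], [], [], [], [], [], [], []],
   [[], [], [], [], [], [], [], [], [], [0, 0, 0, 0, 0, 0, 0, 0, 0, 0, 0, 0, -1, 0, 0, 0, -1, 0,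
    1, 0, 0, 0, 1, 0, 1, 0, 0, 0, 1, 0, -1, 0, 0, 0, -1], [0, 0, 0, 0, 0, 0, 0, 0, 0, 0, 0, 0, 0,
    0, 1, 0, 0, 0, 1, 0, -1, 0, 0, 0, -1, 0, -1, 0, 0, 0, -1, 0, 1, 0, 0, 0, 1], [], [], [], [],
    [], [], [], [], [], [], [], [], [], []],
   [[], [], [], [], [], [], [], [], [], [], [], [1], [], [], [], [], [], [], [], [], [], [], [],
    [], []],
   [[], [], [], [], [], [], [], [], [], [], [], [], [0, 0, 0, 0, 0, 0, 0, 0, 0, 0, 0, 0, -1, 0,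
    0, 0, 0, 0, 1, 0, 1, 0, 0, 0, 1, 0, -1, 0, 0, 0, -1, 0, -1, 0, 0, 0, 0, 0, 1], [], [], [], [],
    [], [], [], [], [], [], [], []],
   [[], [], [], [], [], [], [], [], [], [], [], [], [], [0, 0, 0, 0, 0, 0, 0, 0, 0, 0, 0, 0, -1,
    0, 0, 0, 0, 0, 1, 0, 1, 0, 0, 0, 1, 0, -1, 0, 0, 0, -1, 0, -1, 0, 0, 0, 0, 0, 1], [], [], [],
    [], [], [], [], [], [], [], []],
   [[], [], [], [], [], [], [], [], [], [], [], [], [], [], [1], [], [], [], [], [], [], [], [],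
    [], []],
   [[], [], [], [], [], [], [], [], [], [], [], [], [], [], [], [1], [], [], [], [], [], [], [],
    [], []],
   [[], [], [], [], [], [], [], [], [], [], [], [], [], [], [], [], [1], [], [], [], [], [], [],
    [], []],
   [[], [], [], [], [], [], [], [], [], [], [], [], [], [], [], [], [], [1], [], [], [], [], [],
    [], []],
   [[], [], [], [], [], [], [], [], [], [], [], [], [], [], [], [], [], [], [1], [], [], [], [],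
    [], []],
   [[], [], [], [], [], [], [], [], [], [], [], [], [], [], [], [], [], [], [], [1], [], [], [],
    [], []],
   [[], [], [], [], [], [], [], [], [], [], [], [], [], [], [], [], [], [], [], [], [0, 0, 0, 0,
    0, 0, 0, 0, 0, 0, 0, 0, 0, 0, 0, 0, 1, 0, -1, 0, 0, 0, -1, 0, 0, 0, 1, 0, -1, 0, 2, 0, -1, 0,
    1, 0, 0, 0, -1, 0, 0, 0, -1, 0, 1], [], [], [], []],
   [[], [], [], [], [], [], [], [], [], [], [], [], [], [], [], [], [], [], [], [], [], [0, 0, 0,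
    0, 0, 0, 0, 0, 0, 0, 0, 0, 0, 0, 0, 0, 1, 0, -1, 0, 0, 0, -1, 0, 0, 0, 1, 0, -1, 0, 2, 0, -1,
    0, 1, 0, 0, 0, -1, 0, 0, 0, -1, 0, 1], [], [], []],
   [[], [], [], [], [], [], [], [], [], [], [], [], [], [], [], [], [], [], [], [], [], [], [0,
    0, 0, 0, 0, 0, 0, 0, 0, 0, 0, 0, 0, 0, 0, 0, 0, 0, 1, 0, -1, 0, 0, 0, -1, 0, 0, 0, 1, 0, -1,
    0, 2, 0, -1, 0, 1, 0, 0, 0, -1, 0, 0, 0, -1, 0, 1], [], []],
   [[], [], [], [], [], [], [], [], [], [], [], [], [], [], [], [], [], [], [], [], [], [], [],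
    [0, 0, 0, 0, 0, 0, 0, 0, 0, 0, 0, 0, 0, 0, 0, 0, 0, 0, 1, 0, -1, 0, 0, 0, -1, 0, 0, 0, 1, 0,
    -1, 0, 2, 0, -1, 0, 1, 0, 0, 0, -1, 0, 0, 0, -1, 0, 1], []],
   [[], [], [], [], [], [], [], [], [], [], [], [], [], [], [], [], [], [], [], [], [], [], [],
    [], [1]]]

/-- the diagonal matrix -/
def diaT : List (List ℤ) :=
  [[1],
   [-1, 0, 0, 0, -1, 0, 0, 0, 0, 0, 0, 0, 1, 0, 0, 0, 1],
   [0, 0, 0, 0, 0, 0, -1, 0, 0, 0, -2, 0, 1, 0, -1, 0, 2, 0, 2, 0, 1, 0, 4, 0, -2, 0, 2, 0, -4,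
    0, -1, 0, -2, 0, -2, 0, 1, 0, -1, 0, 2, 0, 0, 0, 1],
   [0, 0, 0, 0, 0, 0, -1, 0, 0, 0, -2, 0, 1, 0, -1, 0, 2, 0, 2, 0, 1, 0, 4, 0, -2, 0, 2, 0, -4,
    0, -1, 0, -2, 0, -2, 0, 1, 0, -1, 0, 2, 0, 0, 0, 1],
   [0, 0, 0, 0, 1, 0, 1, 0, 1, 0, 0, 0, -1, 0, -1, 0, -2, 0, -1, 0, -1, 0, 0, 0, 1, 0, 1, 0, 1],
   [0, 0, 0, 0, 0, 0, 0, 0, 0, 0, 0, 0, 0, 0, -1, 0, 0, 0, 0, 0, 1, 0, 2, 0, 0, 0, 2, 0, -2, 0,
    -1, 0, -2, 0, -4, 0, 1, 0, -1, 0, 4, 0, 2, 0, 1, 0, 2, 0, -2, 0, 0, 0, -2, 0, -1, 0, 0, 0, 0,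
    0, 1],
   [0, 0, 0, 0, 0, 0, 0, 0, 0, 0, 0, 0, 0, 0, -1, 0, 0, 0, 0, 0, 1, 0, 2, 0, 0, 0, 2, 0, -2, 0,
    -1, 0, -2, 0, -4, 0, 1, 0, -1, 0, 4, 0, 2, 0, 1, 0, 2, 0, -2, 0, 0, 0, -2, 0, -1, 0, 0, 0, 0,
    0, 1],
   [0, 0, 0, 0, 0, 0, 0, 0, 0, 0, 1, 0, 0, 0, 0, 0, 0, 0, -1, 0, 0, 0, -1, 0, 0, 0, 0, 0, 0, 0,
    1],
   [0, 0, 0, 0, 0, 0, 0, 0, -1, 0, 0, 0, 0, 0, 1, 0, 1, 0, 0, 0, 1, 0, -1, 0, 0, 0, -1, 0, -1, 0,
    0, 0, 0, 0, 1],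
   [0, 0, 0, 0, 0, 0, 0, 0, 0, 0, 0, 0, 0, 0, 0, 0, 0, 0, 0, 0, 0, 0, 0, 0, -1, 0, 0, 0, -1, 0,
    2, 0, 1, 0, 2, 0, 2, 0, -2, 0, 1, 0, -6, 0, -1, 0, -4, 0, 0, 0, 4, 0, 1, 0, 6, 0, -1, 0, 2, 0,
    -2, 0, -2, 0, -1, 0, -2, 0, 1, 0, 0, 0, 1],
   [0, 0, 0, 0, 0, 0, 0, 0, 0, 0, 0, 0, 0, 0, 0, 0, 0, 0, 0, 0, 0, 0, 0, 0, -1, 0, 0, 0, -1, 0,
    2, 0, 1, 0, 2, 0, 2, 0, -2, 0, 1, 0, -6, 0, -1, 0, -4, 0, 0, 0, 4, 0, 1, 0, 6, 0, -1, 0, 2, 0,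
    -2, 0, -2, 0, -1, 0, -2, 0, 1, 0, 0, 0, 1],
   [0, 0, 0, 0, 0, 0, 0, 0, 0, 0, -1, 0, 0, 0, 0, 0, 1, 0, 1, 0, 0, 0, 1, 0, -1, 0, 0, 0, -1, 0,
    -1, 0, 0, 0, 0, 0, 1],
   [0, 0, 0, 0, 0, 0, 0, 0, 0, 0, 0, 0, 0, 0, 0, 0, 0, 0, 0, 0, 0, 0, 0, 0, 1, 0, 0, 0, 0, 0, -2,
    0, -2, 0, 0, 0, -1, 0, 4, 0, 1, 0, 4, 0, 2, 0, -2, 0, -1, 0, -8, 0, -1, 0, -2, 0, 2, 0, 4, 0,
    1, 0, 4, 0, -1, 0, 0, 0, -2, 0, -2, 0, 0, 0, 0, 0, 1],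
   [0, 0, 0, 0, 0, 0, 0, 0, 0, 0, 0, 0, 0, 0, 0, 0, 0, 0, 0, 0, 0, 0, 0, 0, 1, 0, 0, 0, 0, 0, -2,
    0, -2, 0, 0, 0, -1, 0, 4, 0, 1, 0, 4, 0, 2, 0, -2, 0, -1, 0, -8, 0, -1, 0, -2, 0, 2, 0, 4, 0,
    1, 0, 4, 0, -1, 0, 0, 0, -2, 0, -2, 0, 0, 0, 0, 0, 1],
   [0, 0, 0, 0, 0, 0, 0, 0, 0, 0, 0, 0, 1, 0, -1, 0, 0, 0, -1, 0, 0, 0, 1, 0, -1, 0, 2, 0, -1, 0,
    1, 0, 0, 0, -1, 0, 0, 0, -1, 0, 1],
   [0, 0, 0, 0, 0, 0, 0, 0, 0, 0, 0, 0, 1, 0, -1, 0, 0, 0, -1, 0, 0, 0, 1, 0, -1, 0, 2, 0, -1, 0,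
    1, 0, 0, 0, -1, 0, 0, 0, -1, 0, 1],
   [0, 0, 0, 0, 0, 0, 0, 0, 0, 0, 0, 0, 1, 0, -1, 0, 0, 0, -1, 0, 0, 0, 1, 0, -1, 0, 2, 0, -1, 0,
    1, 0, 0, 0, -1, 0, 0, 0, -1, 0, 1],
   [0, 0, 0, 0, 0, 0, 0, 0, 0, 0, 0, 0, 1, 0, -1, 0, 0, 0, -1, 0, 0, 0, 1, 0, -1, 0, 2, 0, -1, 0,
    1, 0, 0, 0, -1, 0, 0, 0, -1, 0, 1],
   [0, 0, 0, 0, 0, 0, 0, 0, 0, 0, 0, 0, 0, 0, 0, 0, -1, 0, 0, 0, 0, 0, 1, 0, 1, 0, 0, 0, 1, 0,
    -1, 0, 0, 0, -1, 0, -1, 0, 0, 0, 0, 0, 1],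
   [0, 0, 0, 0, 0, 0, 0, 0, 0, 0, 0, 0, 0, 0, 0, 0, -1, 0, 0, 0, 0, 0, 1, 0, 1, 0, 0, 0, 1, 0,
    -1, 0, 0, 0, -1, 0, -1, 0, 0, 0, 0, 0, 1],
   [0, 0, 0, 0, 0, 0, 0, 0, 0, 0, 0, 0, 0, 0, 0, 0, 0, 0, 0, 0, 0, 0, 0, 0, 0, 0, 0, 0, 0, 0, 0,
    0, 1, 0, -2, 0, 1, 0, -2, 0, 2, 0, 2, 0, -3, 0, 6, 0, -8, 0, 6, 0, -5, 0, -2, 0, 5, 0, -8, 0,
    14, 0, -8, 0, 5, 0, -2, 0, -5, 0, 6, 0, -8, 0, 6, 0, -3, 0, 2, 0, 2, 0, -2, 0, 1, 0, -2, 0, 1],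
   [0, 0, 0, 0, 0, 0, 0, 0, 0, 0, 0, 0, 0, 0, 0, 0, 0, 0, 0, 0, 0, 0, 0, 0, 0, 0, 0, 0, 0, 0, 0,
    0, 1, 0, -2, 0, 1, 0, -2, 0, 2, 0, 2, 0, -3, 0, 6, 0, -8, 0, 6, 0, -5, 0, -2, 0, 5, 0, -8, 0,
    14, 0, -8, 0, 5, 0, -2, 0, -5, 0, 6, 0, -8, 0, 6, 0, -3, 0, 2, 0, 2, 0, -2, 0, 1, 0, -2, 0, 1],
   [0, 0, 0, 0, 0, 0, 0, 0, 0, 0, 0, 0, 0, 0, 0, 0, 0, 0, 0, 0, 0, 0, 0, 0, 0, 0, 0, 0, 0, 0, 0,
    0, 0, 0, 0, 0, 1, 0, -2, 0, 1, 0, -2, 0, 2, 0, 2, 0, -3, 0, 6, 0, -8, 0, 6, 0, -5, 0, -2, 0,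
    5, 0, -8, 0, 14, 0, -8, 0, 5, 0, -2, 0, -5, 0, 6, 0, -8, 0, 6, 0, -3, 0, 2, 0, 2, 0, -2, 0, 1,
    0, -2, 0, 1],
   [0, 0, 0, 0, 0, 0, 0, 0, 0, 0, 0, 0, 0, 0, 0, 0, 0, 0, 0, 0, 0, 0, 0, 0, 0, 0, 0, 0, 0, 0, 0,
    0, 0, 0, 0, 0, 1, 0, -2, 0, 1, 0, -2, 0, 2, 0, 2, 0, -3, 0, 6, 0, -8, 0, 6, 0, -5, 0, -2, 0,
    5, 0, -8, 0, 14, 0, -8, 0, 5, 0, -2, 0, -5, 0, 6, 0, -8, 0, 6, 0, -3, 0, 2, 0, 2, 0, -2, 0, 1,
    0, -2, 0, 1],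
   [0, 0, 0, 0, 0, 0, 0, 0, 0, 0, 0, 0, 0, 0, 0, 0, 0, 0, 0, 0, 1, 0, -1, 0, 0, 0, -1, 0, 0, 0,
    1, 0, -1, 0, 2, 0, -1, 0, 1, 0, 0, 0, -1, 0, 0, 0, -1, 0, 1]]


/-- integer values -/
def evZ (q : ℤ) : List ℤ → ℤ
  | [] => 0
  | a :: s => a + q * evZ q s

theorem pev_evZ {R : Type*} [CommRing R] (q : ℤ) (a : List ℤ) :
    pev (q : R) a = ((evZ q a : ℤ) : R) := by
  induction a with
  | nil => simp [pev, evZ]
  | cons x s ih =>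
    simp only [pev, evZ, ih]
    push_cast
    rfl

/-- the check of the inverse -/
def chkM (i j : ℕ) : Bool :=
  isZ (padd (pdot (lamT.getD i []) (adjT.getD j [])) (if i = j then psmul (-1) (diaT.getD i [])
    else []))

theorem chkM_all : ∀ i j : Fin 25, chkM i j = true := by decide +kernel

theorem lamT_symm : ∀ i j : Fin 25, (lamT.getD j []).getD i [] = (lamT.getD i []).getD j [] := by
  decide +kernel

theorem diaT_ne : ∀ i : Fin 25, evZ 5 (diaT.getD i []) ≠ 0 ∧ evZ 7 (diaT.getD i []) ≠ 0 ∧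
    evZ 11 (diaT.getD i []) ≠ 0 ∧ evZ 13 (diaT.getD i []) ≠ 0 ∧
    evZ 17 (diaT.getD i []) ≠ 0 := by decide +kernel

theorem lamT_block : ∀ i j : Fin 25, orb i ≠ orb j → (lamT.getD j []).getD i [] = [] := by
  decide +kernel

theorem pT_lower : ∀ i j : Fin 25, (orb i : ℕ) < (orb j : ℕ) → (pT.getD i []).getD j [] = [] := by
  decide +kernel

theorem pT_diag : ∀ i j : Fin 25, orb i = orb j → (pT.getD i []).getD j [] =
    if i = j then List.replicate (dimB (orb j)) 0 ++ [1] else [] := by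
  decide +kernel

theorem dimB_anti : ∀ e e' : Fin 16, (e : ℕ) < (e' : ℕ) → dimB e' ≤ dimB e := by decide +kernel

theorem dimB_lt : ∀ e : Fin 16, dimB e < 25 := by decide +kernel

theorem lM_adj {R : Type*} [CommRing R] (q : R) :
    lM q * (Matrix.of fun i j : Fin 25 => pev q ((adjT.getD j []).getD i [])) =
      Matrix.diagonal fun i : Fin 25 => pev q (diaT.getD i []) := by
  ext i j
  have h := pev_isZ q (chkM_all i j)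
  have hl : (lamT.getD i []).length ≤ 25 := lamT_row_length i
  rw [pev_padd, pev_pdot q _ _ 25 hl] at h
  have h1 : (lM q * (Matrix.of fun i j : Fin 25 => pev q ((adjT.getD j []).getD i []))) i j =
      ∑ k ∈ Finset.range 25, pev q ((lamT.getD i []).getD k []) *
        pev q ((adjT.getD j []).getD k []) := by
    rw [← sum_fin_eq (fun k => pev q ((lamT.getD i []).getD k []) *
        pev q ((adjT.getD j []).getD k [])), Matrix.mul_apply]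
    refine Finset.sum_congr rfl fun k _ => ?_
    simp only [lM, Matrix.of_apply]
    rw [lamT_symm i k]
  rw [h1]
  by_cases hij : i = j
  · subst hij
    rw [if_pos rfl, pev_psmul] at h
    rw [Matrix.diagonal_apply_eq]
    push_cast at h
    linear_combination h
  · rw [if_neg (fun hc => hij (Fin.ext hc))] at h
    rw [Matrix.diagonal_apply_ne _ hij]
    simpa [pev] using h

theorem map_pM (q : ℚ) : (pM q).map (algebraMap ℚ ℂ) = pM (q : ℂ) := by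
  ext i j
  simp only [pM, Matrix.map_apply, Matrix.of_apply]
  generalize (pT.getD i []).getD j [] = a
  induction a with
  | nil => simp [pev]
  | cons x s ih =>
    simp only [pev, map_add, map_mul, ih]
    simp

theorem map_lM (q : ℚ) : (lM q).map (algebraMap ℚ ℂ) = lM (q : ℂ) := by
  ext i j
  simp only [lM, Matrix.map_apply, Matrix.of_apply]
  generalize (lamT.getD j []).getD i [] = a
  induction a with
  | nil => simp [pev]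
  | cons x s ih =>
    simp only [pev, map_add, map_mul, ih]
    simp

/-- The explicit solution of the orthogonality relations, over the complex numbers. -/
theorem omega_map (p : ℕ) (hp : 2 ≤ p) : (omega p).map (algebraMap ℚ ℂ) =
    pM (p : ℂ) * lM (p : ℂ) * (pM (p : ℂ))ᵀ := by
  have h1 : (1 : ℚ) < (p : ℚ) := by exact_mod_cast hp
  rw [omega_eq _ h1, Matrix.map_mul, Matrix.map_mul, Matrix.transpose_map, map_pM, map_lM]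
  simp

theorem pMat_lower {μ : Fin 25 → Fin 25 → ℕ → ℂ} (S : Green μ) (q : ℂ) (i j : Fin 25)
    (h : (orb i : ℕ) < (orb j : ℕ)) : pMat μ q i j = 0 := by
  have hne : orb i ≠ orb j := fun hc => by rw [hc] at h; exact lt_irrefl _ h
  simp only [pMat, Matrix.of_apply]
  refine Finset.sum_eq_zero fun m _ => ?_
  rw [S.triangular i j m hne (dimB_anti _ _ h), zero_mul]

theorem pMat_diag {μ : Fin 25 → Fin 25 → ℕ → ℂ} (S : Green μ) (q : ℂ) (i j : Fin 25)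
    (h : (orb i : ℕ) = (orb j : ℕ)) :
    pMat μ q i j = if i = j then q ^ dimB (orb j) else 0 := by
  have he : orb i = orb j := Fin.ext h
  simp only [pMat, Matrix.of_apply]
  simp only [S.springer i j _ he]
  by_cases hij : i = j
  · subst hij
    simp only [true_and, if_true]
    rw [Finset.sum_eq_single (dimB (orb i))]
    · rw [if_pos rfl, one_mul]
    · intro m _ hm
      rw [if_neg hm, zero_mul]
    · intro hc
      exact absurd (Finset.mem_range.2 (dimB_lt _)) hc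
  · simp only [hij, false_and, if_false, zero_mul, Finset.sum_const_zero]

theorem pMat_eq {μ : Fin 25 → Fin 25 → ℕ → ℂ} (S : Green μ) (p : ℕ) (hp : p.Prime) (h5 : 5 ≤ p)
    (hD : ∀ i : Fin 25, evZ p (diaT.getD i []) ≠ 0) :
    pMat μ p = pM (p : ℂ) := by
  obtain ⟨Λ, hΛ, h⟩ := S.orthogonality p hp h5
  rw [omega_map p (by omega)] at h
  have hp0 : (p : ℂ) ≠ 0 := by exact_mod_cast hp.ne_zero
  refine ldl_unique (fun i => (orb i : ℕ)) (fun i => (p : ℂ) ^ dimB (orb i))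
    (fun i => pow_ne_zero _ hp0) _ _ Λ (lM (p : ℂ)) (pMat_lower S _) (pMat_diag S _) ?_ ?_ ?_ ?_
    _ (fun i => pev (p : ℂ) (diaT.getD i [])) ?_ (lM_adj (p : ℂ)) h
  · intro i j hij
    simp only [pM, Matrix.of_apply]
    rw [pT_lower i j hij]
    rfl
  · intro i j hij
    simp only [pM, Matrix.of_apply]
    rw [pT_diag i j (Fin.ext hij)]
    split_ifs with hc
    · rw [pev_replicate]
      simp [pev]
    · rfl
  · intro i j hij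
    exact hΛ i j (fun hc => hij (by rw [hc]))
  · intro i j hij
    simp only [lM, Matrix.of_apply]
    rw [lamT_block i j (fun hc => hij (by rw [hc]))]
    rfl
  · intro i
    have e : (p : ℂ) = (((p : ℤ) : ℤ) : ℂ) := by push_cast; rfl
    rw [e, pev_evZ]
    exact_mod_cast hD i

theorem pT_entry : (pT.getD 22 []).getD 16 [] = [0, 0, 0, 1] := by decide +kernel

/-- The multiplicity of `V ⊗ ρ_(2,2)` in `H^6` of the Springer fibre of `F₄(a₃)` is one. -/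
theorem mult_one {μ : Fin 25 → Fin 25 → ℕ → ℂ} (S : Green μ) : μ 22 16 3 = 1 := by
  have key : ∀ p : ℕ, p.Prime → 5 ≤ p → (∀ i : Fin 25, evZ p (diaT.getD i []) ≠ 0) →
      μ 22 16 0 + μ 22 16 1 * (p : ℂ) + μ 22 16 2 * (p : ℂ) ^ 2 + μ 22 16 3 * (p : ℂ) ^ 3 +
      μ 22 16 4 * (p : ℂ) ^ 4 = (p : ℂ) ^ 3 := by
    intro p hp h5 hD
    have h := congrFun (congrFun (pMat_eq S p hp h5 hD) 22) 16
    have hr : pM (p : ℂ) 22 16 = (p : ℂ) ^ 3 := by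
      show pev (p : ℂ) ((pT.getD 22 []).getD 16 []) = _
      rw [pT_entry]
      simp only [pev]
      push_cast
      ring
    rw [hr] at h
    simp only [pMat, Matrix.of_apply] at h
    have hs : ∑ m ∈ Finset.range 25, μ 22 16 m * (p : ℂ) ^ m =
        ∑ m ∈ Finset.range 5, μ 22 16 m * (p : ℂ) ^ m := by
      symm
      refine Finset.sum_subset (fun x hx => Finset.mem_range.2 (by
        have := Finset.mem_range.1 hx
        omega)) (fun m _ hm => ?_)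
      have hm' : 4 < m := by
        by_contra hc
        exact hm (Finset.mem_range.2 (by omega))
      rw [S.vanishing _ _ m (by
        have : dimB (orb 16) = 4 := by decide +kernel
        rw [this]
        exact hm'), zero_mul]
    rw [hs] at h
    simp only [Finset.sum_range_succ, Finset.sum_range_zero] at h
    linear_combination h
  have h5 := key 5 (by norm_num) (by norm_num) (fun i => (diaT_ne i).1)
  have h7 := key 7 (by norm_num) (by norm_num) (fun i => (diaT_ne i).2.1)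
  have h11 := key 11 (by norm_num) (by norm_num) (fun i => (diaT_ne i).2.2.1)
  have h13 := key 13 (by norm_num) (by norm_num) (fun i => (diaT_ne i).2.2.2.1)
  have h17 := key 17 (by norm_num) (by norm_num) (fun i => (diaT_ne i).2.2.2.2)
  push_cast at h5 h7 h11 h13 h17
  linear_combination (-1 / 24 : ℂ) * h5 + (23 / 240 : ℂ) * h7 + (-7 / 48 : ℂ) * h11 + (5 / 48 : ℂ) * h13 + (-1 / 80 : ℂ) * h17

end Pool.Agent.Lib.MP_eacc3c_al
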